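import Pool.Agent.Y262.Peg.LemS2

/-! Positions of the two further vertices of the square on a chord near a cusp. -/

set_option autoImplicit false
set_option maxHeartbeats 400000
open Set Filter Topology

namespace Pool.Agent.Y262.Peg

/-- two flat branches with the same end `0`, without inscribed squares of the special kind -/
structure Br (u l : ℝ → ℝ) (r : ℝ) : Prop where
  hu : Lip4 u
  hl : Lip4 l
  u0 : u 0 = 0
  l0 : l 0 = 0
  gap : ∀ x, 0 < x → x ≤ r → l x < u x
  no1 : ∀ a b, 0 < b → b < a → a ≤ r → FF u l a b = 0 → HH u l a b ≠ 0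
  no2 : ∀ a b, 0 < b → b < a → a ≤ r → FF (fun x => -l x) (fun x => -u x) a b = 0 →
    HH (fun x => -l x) (fun x => -u x) a b ≠ 0

theorem Lip4.neg {f : ℝ → ℝ} (h : Lip4 f) : Lip4 (fun x => -f x) := by
  intro x y
  have := h x y
  rw [show -f x - -f y = -(f x - f y) by ring, abs_neg]
  exact this

variable {u l : ℝ → ℝ} {r : ℝ}

theorem Br.mirror (B : Br u l r) : Br (fun x => -l x) (fun x => -u x) r where
  hu := B.hl.neg
  hl := B.hu.neg
  u0 := by simp [B.l0]
  l0 := by simp [B.u0]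
  gap x h1 h2 := by have := B.gap x h1 h2; simpa using this
  no1 := B.no2
  no2 := by simpa using B.no1

theorem Br.gap' (B : Br u l r) {x : ℝ} (h1 : 0 ≤ x) (h2 : x ≤ r) : l x ≤ u x := by
  rcases h1.lt_or_eq with h | h
  · exact (B.gap x h h2).le
  · rw [← h, B.u0, B.l0]

theorem Br.lem (B : Br u l r) {a b : ℝ} (hb : 0 ≤ b) (hab : b < a) (ha : a ≤ r) :
    ¬ (FF u l a b ≤ 0 ∧ 0 ≤ HH u l a b) :=
  lemS B.hu B.hl B.u0 B.l0 (fun x h1 h2 => B.gap x h1 (h2.trans ha))
    (fun a' b' h1 h2 h3 => B.no1 a' b' h1 h2 (h3.trans ha)) hb hab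

/-- mixed chord from the upper to the lower branch -/
theorem Br.mix1 (B : Br u l r) {a b : ℝ} (ha : 0 ≤ a) (ha' : a ≤ r) 
    (h1 : u a + (b - a) - l (a + (u a - l b)) < 0) : l b + (b - a) - l (b + (u a - l b)) < 0 := by
  by_contra hcon
  push Not at hcon
  have g := B.gap' ha ha'
  have k1 := abs_le.1 (B.hl a b)
  have k2 := abs_le.1 (B.hl b (b + (u a - l b)))
  have k3 := abs_le.1 (B.hl b (a + (u a - l b)))
  obtain ⟨h, hh⟩ : ∃ h, h = u a - l b := ⟨_, rfl⟩
  rw [← hh] at h1 hcon k2 k3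
  rw [show b - (b + h) = -h by ring, abs_neg] at k2
  rw [show b - (a + h) = -((a - b) + h) by ring, abs_neg] at k3
  rcases le_total 0 (a - b) with c1 | c1 <;> rcases le_total 0 h with c2 | c2 <;>
    rcases le_total 0 (a - b + h) with c3 | c3
  all_goals
    first
    | rw [abs_of_nonneg c1] at k1
    | rw [abs_of_nonpos c1] at k1
  all_goals
    first
    | rw [abs_of_nonneg c2] at k2
    | rw [abs_of_nonpos c2] at k2
  all_goals
    first
    | rw [abs_of_nonneg c3] at k3
    | rw [abs_of_nonpos c3] at k3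
  all_goals linarith [k1.1, k1.2, k2.1, k2.2, k3.1, k3.2]

theorem Br.mix_pos (B : Br u l r) {a b : ℝ} (ha : 0 ≤ a) (ha' : a ≤ r) (hb : 0 ≤ b)
    (h0 : a ≠ 0 ∨ b ≠ 0) (h1 : |b - a| ≤ |u a - l b| / 4) : 0 < u a - l b := by
  have g := B.gap' ha ha'
  have k1 := abs_le.1 (B.hl a b)
  rw [abs_sub_comm] at k1
  have hnn : 0 ≤ u a - l b := by
    by_contra hcon
    push Not at hcon
    rw [abs_of_neg hcon] at h1
    linarith [k1.1, k1.2, abs_nonneg (b - a)]
  rcases hnn.lt_or_eq with h | h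
  · exact h
  · exfalso
    rw [← h, abs_zero, zero_div] at h1
    have h2 : b - a = 0 := abs_eq_zero.1 (le_antisymm h1 (abs_nonneg _))
    have h3 : b = a := by linarith
    rw [h3] at h
    rcases ha.lt_or_eq with h4 | h4
    · have := B.gap a h4 ha'
      linarith
    · rcases h0 with h5 | h5
      · exact h5 h4.symm
      · exact h5 (by rw [h3, ← h4])

/-- mixed chord from the upper to the lower branch, third vertex on the upper branch -/
theorem Br.mix2 (B : Br u l r) {a b : ℝ} (ha : 0 ≤ a) (ha' : a ≤ r / 2) (hb : 0 ≤ b) (hb' : b ≤ r / 2)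
    (h0 : a ≠ 0 ∨ b ≠ 0) (h1 : u a + (b - a) - u (a + (u a - l b)) = 0) :
    0 < u a - l b ∧ 0 < l b + (b - a) - l (b + (u a - l b)) ∧
      l b + (b - a) - u (b + (u a - l b)) < 0 := by
  have hr : a ≤ r := by linarith
  have e1 : |b - a| ≤ |u a - l b| / 4 := by
    have := B.hu (a + (u a - l b)) a
    rw [show u (a + (u a - l b)) - u a = b - a by linarith,
      show a + (u a - l b) - a = u a - l b by ring] at this
    exact this
  have hp := B.mix_pos ha hr hb h0 e1
  have ka := abs_le.1 (B.hu a 0)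
  have kb := abs_le.1 (B.hl b 0)
  rw [B.u0, sub_zero, sub_zero, abs_of_nonneg ha] at ka
  rw [B.l0, sub_zero, sub_zero, abs_of_nonneg hb] at kb
  have hS := B.lem (b := a) (a := a + (u a - l b)) ha (by linarith)
    (by linarith [ka.1, ka.2, kb.1, kb.2])
  have eF : FF u l (a + (u a - l b)) a = l b + (b - a) - l (b + (u a - l b)) := by
    unfold FF
    rw [show u (a + (u a - l b)) = u a + (b - a) by linarith,
      show a + (u a - l b) + (u a + (b - a) - u a) = b + (u a - l b) by ring]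
    ring
  have eH : HH u l (a + (u a - l b)) a = 0 := by
    unfold HH
    rw [show u (a + (u a - l b)) = u a + (b - a) by linarith,
      show a + (u a + (b - a) - u a) = b by ring]
    ring
  rw [eF, eH] at hS
  refine ⟨hp, ?_, ?_⟩
  · by_contra hcon
    push Not at hcon
    exact hS ⟨hcon, le_rfl⟩
  · have k := abs_le.1 (B.hu (a + (u a - l b)) (b + (u a - l b)))
    rw [show a + (u a - l b) - (b + (u a - l b)) = -(b - a) by ring, abs_neg] at k
    rw [abs_of_pos hp] at e1
    linarith [k.1, k.2]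

theorem Br.mix_b0 (B : Br u l r) {a : ℝ} (ha : 0 < a) :
    u a + (0 - a) - u (a + (u a - l 0)) < 0 := by
  have k := abs_le.1 (B.hu (a + (u a - l 0)) a)
  have ka := abs_le.1 (B.hu a 0)
  rw [B.u0, sub_zero, sub_zero, abs_of_pos ha] at ka
  rw [B.l0, sub_zero] at *
  rw [show a + u a - a = u a by ring] at k
  have : |u a| ≤ a / 4 := abs_le.2 ka
  linarith [k.1, k.2]

theorem Br.mix_a0 (B : Br u l r) {b : ℝ} (hb : 0 < b) :
    0 < u 0 + (b - 0) - u (0 + (u 0 - l b)) := by
  have k := abs_le.1 (B.hu (0 + (u 0 - l b)) 0)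
  have kb := abs_le.1 (B.hl b 0)
  rw [B.l0, sub_zero, sub_zero, abs_of_pos hb] at kb
  simp only [B.u0, zero_add, zero_sub, sub_zero, abs_neg] at k ⊢
  have : |l b| ≤ b / 4 := abs_le.2 kb
  linarith [k.1, k.2]

/-- mixed chord from the lower to the upper branch -/
theorem Br.mix3 (B : Br u l r) {a b : ℝ} (ha : 0 ≤ a) (ha' : a ≤ r / 2) (hb : 0 ≤ b) (hb' : b ≤ r / 2)
    (h0 : a ≠ 0 ∨ b ≠ 0) : ¬ (0 ≤ l a + (b - a) - l (a - (u b - l a)) ∧
      u b + (b - a) - u (b - (u b - l a)) ≤ 0) := by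
  rintro ⟨hD, hE⟩
  have ka := abs_le.1 (B.hl a 0)
  rw [B.l0, sub_zero, sub_zero, abs_of_nonneg ha] at ka
  have big : ∀ b', 0 ≤ b' → 2 * a ≤ b' → (a ≠ 0 ∨ b' ≠ 0) →
      0 < u b' + (b' - a) - u (b' - (u b' - l a)) := by
    intro b' h1 h2 h3
    have kb := abs_le.1 (B.hu b' 0)
    rw [B.u0, sub_zero, sub_zero, abs_of_nonneg h1] at kb
    have k := abs_le.1 (B.hu b' (b' - (u b' - l a)))
    rw [show b' - (b' - (u b' - l a)) = u b' - l a by ring] at k
    have hh : |u b' - l a| ≤ (a + b') / 4 := by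
      rw [abs_le]; constructor <;> linarith [ka.1, ka.2, kb.1, kb.2]
    have hb : 0 < b' := by
      rcases h1.lt_or_eq with h | h
      · exact h
      · exfalso
        rcases h3 with h4 | h4
        · exact h4 (by linarith)
        · exact h4 h.symm
    linarith [k.1, k.2]
  have hlt : b < 2 * a := by
    by_contra hcon
    push Not at hcon
    have := big b hb hcon h0
    linarith
  have hap : 0 < a := by linarith
  have cu := B.hu.cont
  obtain ⟨b1, ⟨hb1, hb2⟩, hb3⟩ : ∃ b1 ∈ Icc b (2 * a), u b1 + (b1 - a) - u (b1 - (u b1 - l a)) = 0 := by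
    have hc : ContinuousOn (fun b1 => u b1 + (b1 - a) - u (b1 - (u b1 - l a))) (Icc b (2 * a)) := by
      apply Continuous.continuousOn
      fun_prop
    exact intermediate_value_Icc hlt.le hc ⟨hE, (big (2 * a) (by linarith) le_rfl (Or.inl hap.ne')).le⟩
  have hD1 : 0 ≤ l a + (b1 - a) - l (a - (u b1 - l a)) := by
    have g1 := B.hu.le hb1
    have k := B.hl (a - (u b1 - l a)) (a - (u b - l a))
    rw [show a - (u b1 - l a) - (a - (u b - l a)) = -(u b1 - u b) by ring, abs_neg] at k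
    have h2 : |u b1 - u b| ≤ (b1 - b) / 4 := abs_le.2 ⟨g1.2, g1.1⟩
    have k' := abs_le.1 k
    linarith [k'.1, k'.2]
  have e1 : |b1 - a| ≤ |u b1 - l a| / 4 := by
    have := B.hu b1 (b1 - (u b1 - l a))
    rw [show u b1 - u (b1 - (u b1 - l a)) = -(b1 - a) by linarith, abs_neg,
      show b1 - (b1 - (u b1 - l a)) = u b1 - l a by ring] at this
    exact this
  have hb1' : 0 ≤ b1 := by linarith
  have hp : 0 < u b1 - l a := B.mix_pos hb1' (by linarith) ha (Or.inr hap.ne')
    (by rw [abs_sub_comm]; exact e1)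
  rw [abs_of_pos hp] at e1
  have e2 := abs_le.1 e1
  have kb := abs_le.1 (B.hu b1 0)
  rw [B.u0, sub_zero, sub_zero, abs_of_nonneg hb1'] at kb
  have hS := B.lem (b := b1 - (u b1 - l a)) (a := b1)
    (by linarith [ka.1, ka.2, kb.1, kb.2, e2.1, e2.2]) (by linarith) (by linarith)
  have eu : u (b1 - (u b1 - l a)) = u b1 + (b1 - a) := by linarith
  have eF : FF u l b1 (b1 - (u b1 - l a)) = 0 := by
    unfold FF
    rw [eu, show b1 + (u b1 - (u b1 + (b1 - a))) = a by ring]
    ring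
  have eH : HH u l b1 (b1 - (u b1 - l a)) = l a + (b1 - a) - l (a - (u b1 - l a)) := by
    unfold HH
    rw [eu, show b1 - (u b1 - l a) + (u b1 - (u b1 + (b1 - a))) = a - (u b1 - l a) by ring]
    ring
  rw [eF, eH] at hS
  exact hS ⟨le_rfl, hD1⟩

end Pool.Agent.Y262.Peg
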