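import Mathlib

/-! Positions of the two further vertices of the square on a chord near a corner. -/

set_option autoImplicit false
set_option maxHeartbeats 400000
open Set Filter Topology

namespace Pool.Agent.Y262.Peg

/-- heights of the two further vertices above the graph -/
def hD (f : ℝ → ℝ) (s t : ℝ) : ℝ := f s + (t - s) - f (s - (f t - f s))
def hE (f : ℝ → ℝ) (s t : ℝ) : ℝ := f t + (t - s) - f (t - (f t - f s))

/-- a graph close to the graph of `m |x|` -/
structure Vf (f : ℝ → ℝ) (m e : ℝ) : Prop where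
  lip : ∀ x y, |(f x - m * |x|) - (f y - m * |y|)| ≤ e * |x - y|
  e0 : 0 ≤ e
  e1 : e * (1 + |m| + e) < 1

variable {f : ℝ → ℝ} {m e : ℝ}

theorem hE_refl (f : ℝ → ℝ) (s t : ℝ) : hE (fun x => f (-x)) (-t) (-s) = hD f s t := by
  unfold hE hD
  simp only [neg_neg]
  rw [show -(-s - (f s - f t)) = s - (f t - f s) by ring]
  ring

theorem hD_refl (f : ℝ → ℝ) (s t : ℝ) : hD (fun x => f (-x)) (-t) (-s) = hE f s t := by
  unfold hE hD
  simp only [neg_neg]
  rw [show -(-t - (f s - f t)) = t - (f t - f s) by ring]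
  ring

theorem Vf.refl (V : Vf f m e) : Vf (fun x => f (-x)) m e where
  lip x y := by
    have := V.lip (-x) (-y)
    rw [abs_neg, abs_neg, show -x - -y = -(x - y) by ring, abs_neg] at this
    exact this
  e0 := V.e0
  e1 := V.e1

theorem Vf.a (V : Vf f m e) (hm : 0 ≤ m) {s t : ℝ} (hst : s < t) (hΔ : f t ≤ f s) :
    ¬ (hD f s t ≤ 0 ∧ 0 ≤ hE f s t) := by
  rintro ⟨h1, h2⟩
  have he := V.e0
  have he1 := V.e1
  rw [abs_of_nonneg hm] at he1
  unfold hD at h1
  unfold hE at h2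
  obtain ⟨δ, hδ⟩ : ∃ δ, δ = f s - f t := ⟨_, rfl⟩
  have δ0 : 0 ≤ δ := by linarith
  rw [show f t - f s = -δ by rw [hδ]; ring, sub_neg_eq_add] at h1 h2
  have k1 := abs_le.1 (V.lip (s + δ) s)
  have k2 := abs_le.1 (V.lip (t + δ) t)
  have k3 := abs_le.1 (V.lip t s)
  rw [show s + δ - s = δ by ring, abs_of_nonneg δ0] at k1
  rw [show t + δ - t = δ by ring, abs_of_nonneg δ0] at k2
  rw [abs_of_nonneg (show 0 ≤ t - s by linarith)] at k3
  obtain ⟨ℓ, hℓ⟩ : ∃ ℓ, ℓ = t - s := ⟨_, rfl⟩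
  rw [← hℓ] at h1 h2 k3
  have ℓ0 : 0 < ℓ := by linarith
  obtain ⟨X, hX⟩ : ∃ X, X = |s + δ| - |s| := ⟨_, rfl⟩
  obtain ⟨Y, hY⟩ : ∃ Y, Y = |t + δ| - |t| := ⟨_, rfl⟩
  obtain ⟨W, hW⟩ : ∃ W, W = |s| - |t| := ⟨_, rfl⟩
  have X1 : X ≤ δ := by
    have := abs_sub_abs_le_abs_sub (s + δ) s
    rw [show s + δ - s = δ by ring, abs_of_nonneg δ0] at this
    linarith
  have W1 : W ≤ ℓ := by
    have := abs_sub_abs_le_abs_sub s t
    rw [abs_sub_comm, abs_of_nonneg (show 0 ≤ t - s by linarith)] at this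
    linarith
  -- the three inequalities
  have i1 : ℓ ≤ m * X + e * δ := by
    have : m * X = m * |s + δ| - m * |s| := by rw [hX]; ring
    linarith [k1.1, k1.2]
  have i2 : m * Y - e * δ ≤ ℓ := by
    have : m * Y = m * |t + δ| - m * |t| := by rw [hY]; ring
    linarith [k2.1, k2.2]
  have i3 : δ ≤ m * W + e * ℓ := by
    have : m * W = m * |s| - m * |t| := by rw [hW]; ring
    linarith [k3.1, k3.2]
  have j1 : ℓ ≤ (m + e) * δ := by
    have := mul_le_mul_of_nonneg_left X1 hm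
    linarith
  have j2 : e * ℓ ≤ e * ((m + e) * δ) := mul_le_mul_of_nonneg_left j1 he
  have j3 : δ ≤ (m + e) * ℓ := by
    have := mul_le_mul_of_nonneg_left W1 hm
    linarith
  have j4 : e * δ ≤ e * ((m + e) * ℓ) := mul_le_mul_of_nonneg_left j3 he
  have c1 : e * (m + e) < 1 := by nlinarith
  have δp : 0 < δ := by
    rcases δ0.lt_or_eq with h | h
    · exact h
    · rw [← h, mul_zero] at j1; linarith
  have W2 : 0 < m * W := by
    have : 0 < (1 - e * (m + e)) * δ := mul_pos (by linarith) δp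
    nlinarith
  have X2 : 0 < m * X := by
    have : 0 < (1 - e * (m + e)) * ℓ := mul_pos (by linarith) ℓ0
    nlinarith
  have W3 : 0 < W := by
    by_contra hcon
    push Not at hcon
    have := mul_nonpos_of_nonneg_of_nonpos hm hcon
    linarith
  have X3 : 0 < X := by
    by_contra hcon
    push Not at hcon
    have := mul_nonpos_of_nonneg_of_nonpos hm hcon
    linarith
  have s0 : s < 0 := by
    by_contra hcon
    push Not at hcon
    rw [abs_of_nonneg hcon, abs_of_nonneg (by linarith)] at hW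
    linarith
  rw [abs_of_neg s0] at hX hW
  have sδ : 0 < s + δ := by
    by_contra hcon
    push Not at hcon
    rw [abs_of_nonpos hcon] at hX
    linarith
  rw [abs_of_pos sδ] at hX
  rw [abs_of_pos (show 0 < t + δ by linarith)] at hY
  have YX : 2 * W ≤ Y - X := by
    rcases le_total 0 t with h | h
    · rw [abs_of_nonneg h] at hY hW; linarith
    · rw [abs_of_nonpos h] at hY hW; linarith
  have f1 : m * (2 * W) ≤ m * (Y - X) := mul_le_mul_of_nonneg_left YX hm
  have f2 : m * W ≤ e * δ := by nlinarith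
  have f3 : 0 < (1 - e * (1 + m + e)) * δ := mul_pos (by linarith) δp
  nlinarith

theorem Vf.b (V : Vf f m e) (hm : 0 ≤ m) {s t : ℝ} (hst : s < t) (hΔ : f s ≤ f t) :
    ¬ (hE f s t ≤ 0 ∧ 0 ≤ hD f s t) := by
  have := V.refl.a hm (s := -t) (t := -s) (by linarith) (by simpa using hΔ)
  rw [hD_refl, hE_refl] at this
  exact this

theorem Vf.c (V : Vf f m e) (hm : m ≤ 0) {s t : ℝ} (hst : s < t) (hΔ : f s ≤ f t) :
    0 < hD f s t := by
  have he := V.e0
  have he1 := V.e1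
  rw [abs_of_nonpos hm] at he1
  unfold hD
  obtain ⟨δ, hδ⟩ : ∃ δ, δ = f t - f s := ⟨_, rfl⟩
  have δ0 : 0 ≤ δ := by linarith
  rw [← hδ]
  obtain ⟨μ, hμ⟩ : ∃ μ, μ = -m := ⟨_, rfl⟩
  have μ0 : 0 ≤ μ := by linarith
  have k1 := abs_le.1 (V.lip (s - δ) s)
  have k3 := abs_le.1 (V.lip t s)
  rw [show s - δ - s = -δ by ring, abs_neg, abs_of_nonneg δ0] at k1
  rw [abs_of_nonneg (show 0 ≤ t - s by linarith)] at k3
  obtain ⟨ℓ, hℓ⟩ : ∃ ℓ, ℓ = t - s := ⟨_, rfl⟩
  rw [← hℓ] at k3 ⊢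
  have ℓ0 : 0 < ℓ := by linarith
  obtain ⟨X, hX⟩ : ∃ X, X = |s - δ| - |s| := ⟨_, rfl⟩
  obtain ⟨W, hW⟩ : ∃ W, W = |s| - |t| := ⟨_, rfl⟩
  have W1 : W ≤ ℓ := by
    have := abs_sub_abs_le_abs_sub s t
    rw [abs_sub_comm, abs_of_nonneg (show 0 ≤ t - s by linarith)] at this
    linarith
  have i1 : ℓ + μ * X - e * δ ≤ f s + ℓ - f (s - δ) := by
    have : μ * X = -(m * |s - δ|) + m * |s| := by rw [hX, hμ]; ring
    linarith [k1.1, k1.2]
  have i3 : δ ≤ μ * W + e * ℓ := by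
    have : μ * W = -(m * |s|) + m * |t| := by rw [hW, hμ]; ring
    linarith [k3.1, k3.2]
  rcases le_or_gt s 0 with hs | hs
  · have X1 : 0 ≤ X := by
      rw [hX, abs_of_nonpos hs, abs_of_nonpos (by linarith)]; linarith
    have h1 := mul_nonneg μ0 X1
    have j3 : δ ≤ (μ + e) * ℓ := by
      have := mul_le_mul_of_nonneg_left W1 μ0
      linarith
    have j4 : e * δ ≤ e * ((μ + e) * ℓ) := mul_le_mul_of_nonneg_left j3 he
    have c1 : e * (μ + e) < 1 := by nlinarith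
    have : 0 < (1 - e * (μ + e)) * ℓ := mul_pos (by linarith) ℓ0
    nlinarith
  · have W2 : W = -ℓ := by
      rw [hW, abs_of_pos hs, abs_of_pos (by linarith)]; linarith
    rw [W2] at i3
    have μe : μ ≤ e := by
      by_contra hcon
      push Not at hcon
      have : 0 < (μ - e) * ℓ := mul_pos (by linarith) ℓ0
      nlinarith
    have X1 : -δ ≤ X := by
      have := abs_sub_abs_le_abs_sub s (s - δ)
      rw [show s - (s - δ) = δ by ring, abs_of_nonneg δ0] at this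
      linarith
    have h1 := mul_le_mul_of_nonneg_left X1 μ0
    have h2 : μ * δ ≤ e * δ := mul_le_mul_of_nonneg_right μe δ0
    have h3 : δ ≤ e * ℓ := by
      have := mul_nonneg μ0 ℓ0.le
      linarith
    have h4 : e * δ ≤ e * (e * ℓ) := mul_le_mul_of_nonneg_left h3 he
    have e2 : 2 * e * e < 1 := by
      have : e * (1 + e) < 1 := by
        have := mul_nonneg he μ0
        nlinarith
      nlinarith
    have : 0 < (1 - 2 * e * e) * ℓ := mul_pos (by linarith) ℓ0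
    nlinarith

theorem Vf.d (V : Vf f m e) (hm : m ≤ 0) {s t : ℝ} (hst : s < t) (hΔ : f t ≤ f s) :
    0 < hE f s t := by
  have := V.refl.c hm (s := -t) (t := -s) (by linarith) (by simpa using hΔ)
  rw [hD_refl] at this
  exact this

theorem Vf.cont (V : Vf f m e) : Continuous f := by
  have : LipschitzWith ⟨e, V.e0⟩ (fun x => f x - m * |x|) := by
    refine LipschitzWith.of_dist_le_mul fun x y => ?_
    rw [Real.dist_eq, Real.dist_eq]
    exact V.lip x y
  have h1 := this.continuous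
  have h2 : f = fun x => (f x - m * |x|) + m * |x| := by funext x; ring
  rw [h2]
  exact h1.add (by fun_prop)

theorem Vf.arm_aux (V : Vf f m e) {s t ν : ℝ} (hst : s < t)
    (h1 : ∀ x ∈ ({s, t, s - (f t - f s), t - (f t - f s)} : Set ℝ), |x| = ν * x) 
    (hν : ν = 1 ∨ ν = -1) : 0 < hD f s t ∧ 0 < hE f s t := by
  have he := V.e0
  have he1 := V.e1
  have a1 := h1 s (by simp)
  have a2 := h1 t (by simp)
  have a3 := h1 (s - (f t - f s)) (by simp)
  have a4 := h1 (t - (f t - f s)) (by simp)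
  have k1 := V.lip (s - (f t - f s)) s
  have k2 := V.lip (t - (f t - f s)) t
  have k3 := V.lip t s
  rw [a1, a3] at k1
  rw [a2, a4] at k2
  rw [a1, a2] at k3
  obtain ⟨Δ, hΔ⟩ : ∃ Δ, Δ = f t - f s := ⟨_, rfl⟩
  obtain ⟨ℓ, hℓ⟩ : ∃ ℓ, ℓ = t - s := ⟨_, rfl⟩
  have ℓ0 : 0 < ℓ := by linarith
  unfold hD hE
  rw [← hΔ] at k1 k2 ⊢
  rw [show s - Δ - s = -Δ by ring, abs_neg] at k1
  rw [show t - Δ - t = -Δ by ring, abs_neg] at k2
  rw [← hℓ, abs_of_pos ℓ0] at k3
  have e3 : f t - m * (ν * t) - (f s - m * (ν * s)) = Δ - m * ν * ℓ := by rw [hΔ, hℓ]; ring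
  rw [e3] at k3
  obtain ⟨w, hw⟩ : ∃ w, w = Δ - m * ν * ℓ := ⟨_, rfl⟩
  rw [← hw] at k3
  have hΔ' : Δ = m * ν * ℓ + w := by linarith
  have mν : m * ν * (m * ν) = |m| * |m| := by
    rw [abs_mul_abs_self]
    rcases hν with rfl | rfl <;> ring
  have am : |m * ν| = |m| := by
    rcases hν with rfl | rfl <;> simp
  have m0 := abs_nonneg m
  have bΔ : |Δ| ≤ (|m| + e) * ℓ := by
    rw [hΔ']
    refine (abs_add_le _ _).trans ?_
    rw [abs_mul, am, abs_of_pos ℓ0]
    linarith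
  have b2 : e * |Δ| ≤ e * ((|m| + e) * ℓ) := mul_le_mul_of_nonneg_left bΔ he
  have b3 : m * ν * Δ = |m| * |m| * ℓ + m * ν * w := by rw [hΔ', ← mν]; ring
  have b4 : |m * ν * w| ≤ |m| * (e * ℓ) := by
    rw [abs_mul, am]
    exact mul_le_mul_of_nonneg_left k3 m0
  have b5 := abs_le.1 b4
  have e2 : 2 * e * e < 1 := by
    have : e * (1 + e) < 1 := by
      have := mul_nonneg he m0
      nlinarith
    nlinarith
  have fin : 0 < ℓ + m * ν * Δ - e * |Δ| := by
    rw [b3]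
    have h2 : 0 ≤ (|m| - e) ^ 2 := sq_nonneg _
    have h3 : 0 ≤ ℓ * (|m| - e) ^ 2 := mul_nonneg ℓ0.le h2
    have h4 : 0 < ℓ * (1 - 2 * e * e) := mul_pos ℓ0 (by linarith)
    nlinarith [b5.1]
  constructor
  · have h5 := abs_le.1 k1
    nlinarith [h5.1, h5.2]
  · have h5 := abs_le.1 k2
    nlinarith [h5.1, h5.2]

/-- short chords away from the corner -/
theorem Vf.short (V : Vf f m e) {s : ℝ} (hs : s ≠ 0) :
    ∃ η > 0, ∀ t, s < t → t < s + η → 0 < hD f s t ∧ 0 < hE f s t := by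
  have hc := V.cont
  rcases lt_or_gt_of_ne hs with h | h
  · have q1 : IsOpen {t : ℝ | t < 0} := isOpen_Iio
    have q2 : IsOpen {t : ℝ | s - (f t - f s) < 0} := isOpen_lt (by fun_prop) continuous_const
    have q3 : IsOpen {t : ℝ | t - (f t - f s) < 0} := isOpen_lt (by fun_prop) continuous_const
    have o1 : IsOpen ({t : ℝ | t < 0} ∩ ({t : ℝ | s - (f t - f s) < 0} ∩
      {t : ℝ | t - (f t - f s) < 0})) := q1.inter (q2.inter q3)
    obtain ⟨η, hη, hb⟩ := Metric.isOpen_iff.1 o1 s (by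
      refine ⟨h, ?_, ?_⟩ <;> · simp only [mem_ofPred_eq, sub_self, sub_zero]; exact h)
    refine ⟨η, hη, fun t ht1 ht2 => V.arm_aux (ν := -1) ht1 ?_ (Or.inr rfl)⟩
    obtain ⟨g1, g2, g3⟩ := hb (show t ∈ Metric.ball s η by
      rw [Metric.mem_ball, Real.dist_eq, abs_of_pos (by linarith)]; linarith)
    intro x hx
    rw [neg_one_mul]
    simp only [mem_insert_iff, mem_singleton_iff] at hx
    rcases hx with rfl | rfl | rfl | rfl
    · exact abs_of_neg h
    · exact abs_of_neg g1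
    · exact abs_of_neg g2
    · exact abs_of_neg g3
  · have q1 : IsOpen {t : ℝ | 0 < t} := isOpen_Ioi
    have q2 : IsOpen {t : ℝ | 0 < s - (f t - f s)} := isOpen_lt continuous_const (by fun_prop)
    have q3 : IsOpen {t : ℝ | 0 < t - (f t - f s)} := isOpen_lt continuous_const (by fun_prop)
    have o1 : IsOpen ({t : ℝ | 0 < t} ∩ ({t : ℝ | 0 < s - (f t - f s)} ∩
      {t : ℝ | 0 < t - (f t - f s)})) := q1.inter (q2.inter q3)
    obtain ⟨η, hη, hb⟩ := Metric.isOpen_iff.1 o1 s (by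
      refine ⟨h, ?_, ?_⟩ <;> · simp only [mem_ofPred_eq, sub_self, sub_zero]; exact h)
    refine ⟨η, hη, fun t ht1 ht2 => V.arm_aux (ν := 1) ht1 ?_ (Or.inl rfl)⟩
    obtain ⟨g1, g2, g3⟩ := hb (show t ∈ Metric.ball s η by
      rw [Metric.mem_ball, Real.dist_eq, abs_of_pos (by linarith)]; linarith)
    intro x hx
    rw [one_mul]
    simp only [mem_insert_iff, mem_singleton_iff] at hx
    rcases hx with rfl | rfl | rfl | rfl
    · exact abs_of_pos h
    · exact abs_of_pos g1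
    · exact abs_of_pos g2
    · exact abs_of_pos g3

end Pool.Agent.Y262.Peg
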