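import Pool.Agent.Y262.Peg.Side2
import Pool.Agent.Y262.Peg.Pat
import Pool.Agent.Y262.Peg.VPat

/-! Flat arcs are graphs. -/

set_option autoImplicit false
set_option maxHeartbeats 400000
open Complex Set Topology Metric Filter

namespace Pool.Agent.Y262.Peg

open Pool.Agent.H763R2 Pool.Agent.H763R2.An

/-- `w` has almost the direction `a` -/
def Cone (a w : ℂ) : Prop := |(w / a).im| ≤ (w / a).re / 1000

theorem extract {X Y : ℝ → ℝ} {T : Set ℝ} {K : NNReal}
    (h : ∀ s ∈ T, ∀ t ∈ T, |Y t - Y s| ≤ K * |X t - X s|) :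
    ∃ f : ℝ → ℝ, (∀ x y, |f x - f y| ≤ K * |x - y|) ∧ ∀ t ∈ T, Y t = f (X t) := by
  classical
  have hx : ∀ x ∈ X '' T, ∃ t ∈ T, X t = x := fun x hx => hx
  choose! p hp hpx using hx
  have hL : LipschitzOnWith K (fun x => Y (p x)) (X '' T) := by
    refine LipschitzOnWith.of_dist_le_mul fun x hx y hy => ?_
    rw [Real.dist_eq, Real.dist_eq]
    have := h (p y) (hp y hy) (p x) (hp x hx)
    rw [hpx x hx, hpx y hy] at this
    exact this
  obtain ⟨f, hf, he⟩ := hL.extend_real
  refine ⟨f, fun x y => ?_, fun t ht => ?_⟩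
  · have := hf.dist_le_mul x y
    rw [Real.dist_eq, Real.dist_eq] at this
    exact this
  · have h1 := he (mem_image_of_mem X ht)
    simp only at h1
    rw [← h1]
    have h2 := h (p (X t)) (hp _ (mem_image_of_mem X ht)) t ht
    rw [hpx _ (mem_image_of_mem X ht), sub_self, abs_zero, mul_zero] at h2
    have := abs_nonpos_iff.1 h2
    linarith

theorem half_re {a b : ℂ} (ha : ‖a‖ = 1) (hb : ‖b‖ = 1) (h : a + b ≠ 0) :
    (b / (a + b)).re = 1 / 2 := by
  have ha' : a * (starRingEnd ℂ) a = 1 := by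
    rw [Complex.mul_conj, Complex.normSq_eq_norm_sq, ha]; simp
  have hb' : b * (starRingEnd ℂ) b = 1 := by
    rw [Complex.mul_conj, Complex.normSq_eq_norm_sq, hb]; simp
  have h' : (starRingEnd ℂ) a + (starRingEnd ℂ) b ≠ 0 := by
    rw [← map_add]
    exact fun h0 => h ((map_eq_zero _).1 h0)
  have key : b / (a + b) + (starRingEnd ℂ) (b / (a + b)) = 1 := by
    rw [map_div₀, map_add, div_add_div _ _ h h', div_eq_one_iff_eq (mul_ne_zero h h')]
    linear_combination hb' - ha'
  rw [Complex.add_conj] at key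
  have := congrArg Complex.re key
  simp at this
  linarith

/-- the cone condition in the coordinates of a corner -/
theorem cone_V {w b e : ℂ} {m : ℝ} (hb : b ≠ 0) (he : e ≠ 0) (hbe : b / e = (1 / 2 : ℝ) + (m / 2 : ℝ) * I)
    (hm : m ^ 2 ≤ 685 / 10) (h : Cone b w) (hw : w ≠ 0) :
    0 < (w / e).re ∧ |(w / e).im - m * (w / e).re| ≤ 71 / 1000 * (w / e).re := by
  unfold Cone at h
  have e1 : w / e = (w / b) * ((1 / 2 : ℝ) + (m / 2 : ℝ) * I) := by
    rw [← hbe]; field_simp
  set X := (w / b).re with hX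
  set Y := (w / b).im with hY
  have e2 : (w / e).re = (X - m * Y) / 2 := by
    rw [e1, mul_re, ← hX, ← hY]; simp; ring
  have e3 : (w / e).im = (Y + m * X) / 2 := by
    rw [e1, mul_im, ← hX, ← hY]; simp; ring
  have h1 := abs_le.1 h
  have X0 : 0 < X := by
    have : 0 ≤ X := by have := (abs_nonneg Y).trans h; linarith
    rcases this.lt_or_eq with h2 | h2
    · exact h2
    · exfalso
      rw [← h2] at h1
      have hY0 : Y = 0 := by linarith [h1.1, h1.2]
      have : w / b = 0 := Complex.ext (by rw [← hX, ← h2]; simp) (by rw [← hY, hY0]; simp)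
      rcases div_eq_zero_iff.1 this with h3 | h3
      · exact hw h3
      · exact hb h3
  have hm1 : |m| ≤ 83 / 10 := by
    rw [abs_le]; constructor <;> nlinarith
  have hmY : |m * Y| ≤ 83 / 10 * (X / 1000) := by
    rw [abs_mul]
    exact mul_le_mul hm1 h (abs_nonneg _) (by norm_num)
  have h2 := abs_le.1 hmY
  have e4 : (w / e).im - m * (w / e).re = (1 + m ^ 2) * Y / 2 := by
    rw [e2, e3]; ring
  refine ⟨by rw [e2]; linarith [h2.2], ?_⟩
  rw [e4, e2, abs_div, abs_mul, abs_of_pos (show (0:ℝ) < 1 + m ^ 2 by positivity),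
    abs_of_pos (show (0:ℝ) < 2 by norm_num)]
  have : (1 + m ^ 2) * |Y| ≤ (1 + 685 / 10) * (X / 1000) :=
    mul_le_mul (by linarith) h (abs_nonneg _) (by norm_num)
  linarith [h2.2]

/-- the cone condition in the coordinates of a cusp, outgoing branch -/
theorem cone_T1 {w b : ℂ} (hb : b ≠ 0) (h : Cone b w) (hw : w ≠ 0) :
    0 < (w / b).re ∧ |(w / b).im| ≤ (w / b).re / 4 := by
  unfold Cone at h
  have X0 : 0 < (w / b).re := by
    have : 0 ≤ (w / b).re := by have := (abs_nonneg _).trans h; linarith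
    rcases this.lt_or_eq with h2 | h2
    · exact h2
    · exfalso
      have h1 := abs_le.1 h
      rw [← h2] at h1
      have : w / b = 0 := Complex.ext (by rw [← h2]; simp) (by
        have : (w / b).im = 0 := by linarith [h1.1, h1.2]
        rw [this]; simp)
      rcases div_eq_zero_iff.1 this with h3 | h3
      · exact hw h3
      · exact hb h3
  exact ⟨X0, by linarith⟩

/-- the cone condition in the coordinates of a cusp, incoming branch -/
theorem cone_T2 {w a b : ℂ} (ha : ‖a‖ = 1) (hb : ‖b‖ = 1) (hab : ‖a + b‖ ≤ 6 / 25)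
    (h : Cone a w) (hw : w ≠ 0) : (w / b).re < 0 ∧ |(w / b).im| ≤ -(w / b).re / 4 := by
  have ha0 : a ≠ 0 := by rw [← norm_pos_iff, ha]; norm_num
  have hb0 : b ≠ 0 := by rw [← norm_pos_iff, hb]; norm_num
  obtain ⟨X0, -⟩ := cone_T1 ha0 h hw
  unfold Cone at h
  set X := (w / a).re with hX
  set Y := (w / a).im with hY
  set p := (a / b).re with hp
  set q := (a / b).im with hq
  have e1 : w / b = (w / a) * (a / b) := by field_simp
  have n1 : p ^ 2 + q ^ 2 = 1 := by
    have : ‖a / b‖ ^ 2 = 1 := by rw [norm_div, ha, hb]; norm_num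
    rw [← Complex.normSq_eq_norm_sq, Complex.normSq_apply] at this
    nlinarith
  have n2 : (p + 1) ^ 2 + q ^ 2 ≤ (6 / 25) ^ 2 := by
    have h1 : ‖a / b + 1‖ ≤ 6 / 25 := by
      rw [show a / b + 1 = (a + b) / b by field_simp, norm_div, hb, div_one]
      exact hab
    have h2 : ‖a / b + 1‖ ^ 2 ≤ (6 / 25) ^ 2 := pow_le_pow_left₀ (norm_nonneg _) h1 2
    rw [← Complex.normSq_eq_norm_sq, Complex.normSq_apply] at h2
    simp only [add_re, add_im, one_re, one_im, add_zero] at h2
    nlinarith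
  have p1 : p ≤ -(97 / 100) := by nlinarith
  have q1 : |q| ≤ 24 / 100 := by
    rw [abs_le]; constructor <;> nlinarith [sq_nonneg (p + 1)]
  have p2 : |p| ≤ 1 := by rw [abs_le]; constructor <;> nlinarith [sq_nonneg q]
  have hYq : |Y * q| ≤ X / 1000 * (24 / 100) := by
    rw [abs_mul]; exact mul_le_mul h q1 (abs_nonneg _) (by positivity)
  have hXq : |X * q| ≤ X * (24 / 100) := by
    rw [abs_mul, abs_of_pos X0]; exact mul_le_mul_of_nonneg_left q1 X0.le
  have hYp : |Y * p| ≤ X / 1000 * 1 := by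
    rw [abs_mul]; exact mul_le_mul h p2 (abs_nonneg _) (by positivity)
  have hXp : X * p ≤ X * (-(97 / 100)) := mul_le_mul_of_nonneg_left p1 X0.le
  have e2 : (w / b).re = X * p - Y * q := by rw [e1, mul_re]
  have e3 : (w / b).im = X * q + Y * p := by rw [e1, mul_im]
  have k1 := abs_le.1 hYq
  have k2 := abs_le.1 hXq
  have k3 := abs_le.1 hYp
  rw [e2, e3]
  refine ⟨by linarith [k1.1], ?_⟩
  rw [abs_le]; constructor <;> linarith [k1.1, k1.2, k2.1, k2.2, k3.1, k3.2]

end Pool.Agent.Y262.Peg
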