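import Pool.Agent.Y262.Peg.PC

/-! Loops of finite total curvature consist of flat arcs. -/

set_option autoImplicit false
set_option maxHeartbeats 400000
open Complex Set Topology Metric Filter

namespace Pool.Agent.Y262.Peg

open Pool.Agent.H763R2 Pool.Agent.H763R2.An
open Pool.Agent.H763R2.Dm (NoSq)
open InnerProductGeometry (angle)

/-- the sum of the turning angles of an inscribed polygonal arc -/
noncomputable def turn (c : ℝ → ℂ) (t : ℕ → ℝ) (n : ℕ) : ℝ :=
  ∑ i ∈ Finset.range n, angle (c (t (i + 1)) - c (t i)) (c (t (i + 2)) - c (t (i + 1)))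

/-- there is an arc starting with `x, y`, ending before `e`, of total turning `S` -/
def Ch (c : ℝ → ℂ) (e x y S : ℝ) : Prop :=
  ∃ (n : ℕ) (t : ℕ → ℝ), (∀ i ≤ n, t i < t (i + 1)) ∧ t (n + 1) < e ∧ t 0 = x ∧ t 1 = y ∧
    turn c t n = S

theorem Ch.cons {c : ℝ → ℂ} {e x y z S : ℝ} (h : Ch c e x y S) (hz : z < x) :
    Ch c e z x (S + angle (c x - c z) (c y - c x)) := by
  obtain ⟨n, t, h1, h2, h3, h4, h5⟩ := h
  refine ⟨n + 1, fun i => Nat.casesOn i z t, fun i hi => ?_, h2, rfl, h3, ?_⟩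
  · cases i with
    | zero => simpa [h3] using hz
    | succ i => exact h1 i (by omega)
  · unfold turn at h5 ⊢
    rw [Finset.sum_range_succ', ← h5]
    simp only [h3, h4, zero_add, Nat.rec_add_one]
    rfl

theorem dir_le {v w : ℂ} (hv : v ≠ 0) (hw : w ≠ 0) : ‖v / ‖v‖ - w / ‖w‖‖ ≤ angle v w := by
  have nv : 0 < ‖v‖ := norm_pos_iff.2 hv
  have nw : 0 < ‖w‖ := norm_pos_iff.2 hw
  have e : angle (v / ‖v‖) (w / ‖w‖) = angle v w := by
    have e1 : v / (‖v‖ : ℂ) = (‖v‖⁻¹ : ℝ) • v := by
      rw [real_smul]; push_cast; rw [div_eq_inv_mul]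
    have e2 : w / (‖w‖ : ℂ) = (‖w‖⁻¹ : ℝ) • w := by
      rw [real_smul]; push_cast; rw [div_eq_inv_mul]
    rw [e1, e2, InnerProductGeometry.angle_smul_left_of_pos _ _ (inv_pos.2 nv),
      InnerProductGeometry.angle_smul_right_of_pos _ _ (inv_pos.2 nw)]
  rw [← e]
  apply norm_sub_le_angle
  · rw [norm_div, norm_real, norm_norm, div_self nv.ne']
  · rw [norm_div, norm_real, norm_norm, div_self nw.ne']

/-- an arc of finite total curvature -/
theorem half_of_FTC {c : ℝ → ℂ} (hcont : Continuous c) {τ δ : ℝ} (hδ : 0 < δ)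
    (J : ∀ x y, τ < x → x < y → y < τ + δ → c x ≠ c y) {V : ℝ}
    (hV : ∀ (n : ℕ) (t : ℕ → ℝ), (∀ i ≤ n, t i < t (i + 1)) → τ ≤ t 0 → t (n + 1) ≤ τ + δ →
      turn c t n ≤ V) : Half c τ := by
  obtain ⟨A, hA⟩ : ∃ A : Set ℝ, A = {S | ∃ x y, τ < x ∧ Ch c (τ + δ) x y S} := ⟨_, rfl⟩
  have hb : BddAbove A := by
    refine ⟨V, ?_⟩
    rintro S hS
    rw [hA] at hS
    obtain ⟨x, y, hx, n, t, h1, h2, h3, h4, h5⟩ := hS
    rw [← h5]
    exact hV n t h1 (by rw [h3]; exact hx.le) h2.le
  have hne : A.Nonempty := by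
    refine ⟨0, ?_⟩
    rw [hA]
    refine ⟨τ + δ / 3, τ + δ / 3 + δ / 3, by linarith, 0, fun i => τ + δ / 3 + i * (δ / 3),
      fun i hi => ?_, ?_, ?_, ?_, ?_⟩
    · push_cast; linarith
    · norm_num; linarith
    · simp
    · norm_num
    · simp [turn]
  obtain ⟨S0, hS0, hlt⟩ := exists_lt_of_lt_csSup hne (show sSup A - 1 / 3000 < sSup A by linarith)
  rw [hA] at hS0
  obtain ⟨u, v, hu, hch⟩ := hS0
  have hle : ∀ x y S, τ < x → Ch c (τ + δ) x y S → S < S0 + 1 / 3000 := by
    intro x y S hx hc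
    have : S ≤ sSup A := le_csSup hb (by rw [hA]; exact ⟨x, y, hx, hc⟩)
    linarith
  have hv1 : u < τ + δ := by
    obtain ⟨n, t, h1, h2, h3, h4, h5⟩ := hch
    have : ∀ k ≤ n + 1, t 0 ≤ t k := by
      intro k
      induction k with
      | zero => intro _; rfl
      | succ k ih => intro hk; linarith [ih (by omega), h1 k (by omega)]
    linarith [this (n + 1) le_rfl]
  have ne : ∀ s t, τ < s → s < t → t < u → c t - c s ≠ 0 := fun s t h1 h2 h3 =>
    sub_ne_zero.2 (J s t h1 h2 (by linarith)).symm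
  obtain ⟨d, hd⟩ : ∃ d : ℝ → ℝ → ℂ, d = fun x y => (c y - c x) / ‖c y - c x‖ := ⟨_, rfl⟩
  have hde : ∀ x y, (c y - c x) / ‖c y - c x‖ = d x y := fun x y => by rw [hd]
  -- ordered chords
  have ord : ∀ x y x' y', τ < x → x < y → y ≤ x' → x' < y' → y' < u →
      ‖d x y - d x' y'‖ ≤ 1 / 3000 := by
    intro x y x' y' k1 k2 k3 k4 k5
    have c1 := hch.cons k5
    have c2 := c1.cons k4
    rcases k3.lt_or_eq with k | k
    · have c3 := c2.cons k
      have c4 := c3.cons k2
      have b := hle _ _ _ k1 c4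
      have a1 := InnerProductGeometry.angle_nonneg (c u - c y') (c v - c u)
      have a2 := InnerProductGeometry.angle_nonneg (c y' - c x') (c u - c y')
      have a3 := dir_le (ne x' y' (by linarith) k4 k5) (ne y x' (by linarith) k (by linarith))
      have a4 := dir_le (ne y x' (by linarith) k (by linarith)) (ne x y k1 k2 (by linarith))
      rw [hde, hde, InnerProductGeometry.angle_comm] at a3 a4
      have := norm_sub_le_norm_sub_add_norm_sub (d x y) (d y x') (d x' y')
      rw [norm_sub_rev] at a3 a4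
      linarith
    · subst k
      have c3 := c2.cons k2
      have b := hle _ _ _ k1 c3
      have a1 := InnerProductGeometry.angle_nonneg (c u - c y') (c v - c u)
      have a2 := InnerProductGeometry.angle_nonneg (c y' - c y) (c u - c y')
      have a3 := dir_le (ne x y (by linarith) k2 (by linarith)) (ne y y' (by linarith) k4 (by linarith))
      rw [hde, hde] at a3
      linarith
  -- the reference chord
  obtain ⟨p, q, hp, hpq, hq⟩ : ∃ p q, τ < p ∧ p < q ∧ q < u :=
    ⟨τ + (u - τ) / 3, τ + (u - τ) / 2, by linarith, by linarith, by linarith⟩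
  obtain ⟨b, hb'⟩ : ∃ b, b = d p q := ⟨_, rfl⟩
  have nb : ‖b‖ = 1 := by
    rw [hb', hd]
    simp only
    rw [norm_div, norm_real, norm_norm, div_self (norm_pos_iff.2 (ne p q hp hpq hq)).ne']
  have cone1 : ∀ s t, τ < s → s < t → t < u → Cone b (c t - c s) := by
    intro s t h1 h2 h3
    have hm : τ < min s p := lt_min h1 hp
    have m1 := min_le_left s p
    have m2 := min_le_right s p
    obtain ⟨z, z', g1, g2, g3⟩ : ∃ z z', τ < z ∧ z < z' ∧ z' < min s p :=
      ⟨τ + (min s p - τ) / 3, τ + (min s p - τ) / 2, by linarith, by linarith, by linarith⟩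
    have o1 := ord z z' s t g1 g2 (by linarith) h2 h3
    have o2 := ord z z' p q g1 g2 (by linarith) hpq hq
    have o3 : ‖d s t - b‖ ≤ 1 / 1500 := by
      rw [hb']
      have := norm_sub_le_norm_sub_add_norm_sub (d s t) (d z z') (d p q)
      rw [norm_sub_rev] at o1
      linarith
    have nst := norm_pos_iff.2 (ne s t h1 h2 h3)
    refine cone_of_close nb nst.le ?_
    have e : c t - c s - (‖c t - c s‖ : ℝ) * b = (‖c t - c s‖ : ℝ) * (d s t - b) := by
      rw [← hde, mul_sub, mul_div_cancel₀]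
      exact_mod_cast nst.ne'
    rw [e, norm_mul, norm_real, norm_norm]
    calc ‖c t - c s‖ * ‖d s t - b‖ ≤ ‖c t - c s‖ * (1 / 1500) :=
          mul_le_mul_of_nonneg_left o3 nst.le
      _ = _ := by ring
  refine ⟨u - τ, by linarith, b, nb, fun s t h1 h2 h3 => ?_⟩
  have h3' : t < u := by linarith
  rcases h1.lt_or_eq with h | h
  · exact cone1 s t h h2 h3'
  · subst h
    have hcl : IsClosed {s | |((c t - c s) / b).im| ≤ ((c t - c s) / b).re / 1000} := by
      apply isClosed_le
      · exact (continuous_im.comp ((continuous_const.sub hcont).div_const b)).abs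
      · exact (continuous_re.comp ((continuous_const.sub hcont).div_const b)).div_const 1000
    have hs : Ioo τ t ⊆ {s | |((c t - c s) / b).im| ≤ ((c t - c s) / b).re / 1000} :=
      fun s hs => cone1 s t hs.1 hs.2 h3'
    have := hcl.closure_subset_iff.2 hs
    rw [closure_Ioo h2.ne] at this
    exact this ⟨le_rfl, h2.le⟩

end Pool.Agent.Y262.Peg
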