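import Mathlib

/-! Angles that stay in a range along a family. -/

set_option autoImplicit false
set_option maxHeartbeats 400000
open Set Filter Topology

namespace Pool.Agent.Y262.Peg

theorem const_index {K : Set (ℝ × ℝ)} (hK : IsPreconnected K) {n : ℝ × ℝ → ℤ → Prop}
    (h1 : ∀ p ∈ K, ∃ k, n p k)
    (h2 : ∀ p ∈ K, ∀ k, n p k → ∀ᶠ q in 𝓝[K] p, n q k)
    (h3 : ∀ p ∈ K, ∀ k k', n p k → n p k' → k = k') : ∃ k, ∀ p ∈ K, n p k := by
  rcases K.eq_empty_or_nonempty with h | ⟨p0, hp0⟩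
  · exact ⟨0, fun p hp => by rw [h] at hp; exact absurd hp (notMem_empty p)⟩
  choose! N hN using h1
  have : PreconnectedSpace K := isPreconnected_iff_preconnectedSpace.1 hK
  have hl : IsLocallyConstant (fun p : K => N p) := by
    rw [IsLocallyConstant.iff_eventually_eq]
    intro p
    have := h2 p p.2 (N p) (hN p p.2)
    have h4 := (eventually_nhds_subtype_iff K p (fun q => q ∈ K → N q = N p)).2 (by
      filter_upwards [this] with q hq hqK
      exact h3 q hqK _ _ (hN q hqK) hq)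
    filter_upwards [h4] with q hq
    exact hq q.2
  refine ⟨N p0, fun p hp => ?_⟩
  have := hl.apply_eq_of_preconnectedSpace ⟨p, hp⟩ ⟨p0, hp0⟩
  simp only at this
  rw [← this]
  exact hN p hp

theorem reduce (ψ : ℝ) : ∃ (k : ℤ) (ρ : ℝ), ψ = ρ + k * (2 * Real.pi) ∧ 0 ≤ ρ ∧ ρ < 2 * Real.pi := by
  have hπ := Real.two_pi_pos
  refine ⟨⌊ψ / (2 * Real.pi)⌋, ψ - ⌊ψ / (2 * Real.pi)⌋ * (2 * Real.pi), by ring, ?_, ?_⟩
  · have := Int.floor_le (ψ / (2 * Real.pi))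
    rw [le_div_iff₀ hπ] at this
    linarith
  · have := Int.lt_floor_add_one (ψ / (2 * Real.pi))
    rw [div_lt_iff₀ hπ] at this
    linarith

/-- between `-π` (excluded) and `π/2`, up to `2 π k` -/
def C1 (ψ : ℝ) (k : ℤ) : Prop := k * (2 * Real.pi) - Real.pi < ψ ∧ ψ ≤ k * (2 * Real.pi) + Real.pi / 2
def C2 (ψ : ℝ) (k : ℤ) : Prop := k * (2 * Real.pi) < ψ ∧ ψ < k * (2 * Real.pi) + 3 * Real.pi / 2
def C3 (ψ : ℝ) (k : ℤ) : Prop := k * (2 * Real.pi) - Real.pi / 2 < ψ ∧ ψ < k * (2 * Real.pi) + Real.pi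

theorem sh (ψ : ℝ) (k : ℤ) : Real.cos ψ = Real.cos (ψ - k * (2 * Real.pi)) ∧
    Real.sin ψ = Real.sin (ψ - k * (2 * Real.pi)) := by
  rw [Real.cos_sub_int_mul_two_pi, Real.sin_sub_int_mul_two_pi]
  exact ⟨rfl, rfl⟩

/-- the signs in terms of the reduced angle -/
theorem q2 {ρ : ℝ} (h1 : Real.pi / 2 < ρ) (h2 : ρ ≤ Real.pi) : Real.cos ρ < 0 ∧ 0 ≤ Real.sin ρ :=
  ⟨Real.cos_neg_of_pi_div_two_lt_of_lt h1 (by linarith [Real.pi_pos]),
    Real.sin_nonneg_of_nonneg_of_le_pi (by linarith [Real.pi_pos]) h2⟩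

theorem q2' {ρ : ℝ} (h1 : -(3 * Real.pi / 2) < ρ) (h2 : ρ ≤ -Real.pi) :
    Real.cos ρ < 0 ∧ 0 ≤ Real.sin ρ := by
  have := q2 (ρ := ρ + 2 * Real.pi) (by linarith) (by linarith)
  rw [Real.cos_add_two_pi, Real.sin_add_two_pi] at this
  exact this

theorem q4 {ρ : ℝ} (h1 : -(Real.pi / 2) ≤ ρ) (h2 : ρ ≤ 0) : 0 ≤ Real.cos ρ ∧ Real.sin ρ ≤ 0 :=
  ⟨Real.cos_nonneg_of_neg_pi_div_two_le_of_le h1 (by linarith [Real.pi_pos]),
    Real.sin_nonpos_of_nonpos_of_neg_pi_le h2 (by linarith [Real.pi_pos])⟩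

theorem q4' {ρ : ℝ} (h1 : 3 * Real.pi / 2 ≤ ρ) (h2 : ρ ≤ 2 * Real.pi) :
    0 ≤ Real.cos ρ ∧ Real.sin ρ ≤ 0 := by
  have := q4 (ρ := ρ - 2 * Real.pi) (by linarith) (by linarith)
  rw [Real.cos_sub_two_pi, Real.sin_sub_two_pi] at this
  exact this

theorem q3 {ρ : ℝ} (h1 : Real.pi ≤ ρ) (h2 : ρ ≤ 3 * Real.pi / 2) :
    Real.cos ρ ≤ 0 ∧ Real.sin ρ ≤ 0 := by
  have h3 : 0 ≤ Real.cos (ρ - Real.pi) :=
    Real.cos_nonneg_of_neg_pi_div_two_le_of_le (by linarith [Real.pi_pos]) (by linarith)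
  have h4 : 0 ≤ Real.sin (ρ - Real.pi) :=
    Real.sin_nonneg_of_nonneg_of_le_pi (by linarith) (by linarith [Real.pi_pos])
  rw [Real.cos_sub_pi] at h3
  rw [Real.sin_sub_pi] at h4
  constructor <;> linarith

theorem C1_ex {ψ : ℝ} (h : ¬ (Real.cos ψ < 0 ∧ 0 ≤ Real.sin ψ)) : ∃ k, C1 ψ k := by
  have hπ := Real.pi_pos
  obtain ⟨k, ρ, e, h1, h2⟩ := reduce ψ
  have hs := sh ψ k
  rw [show ψ - k * (2 * Real.pi) = ρ by linarith] at hs
  rw [hs.1, hs.2] at h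
  rcases le_or_gt ρ (Real.pi / 2) with h3 | h3
  · exact ⟨k, by linarith, by linarith⟩
  rcases le_or_gt ρ Real.pi with h4 | h4
  · exact absurd (q2 h3 h4) h
  · refine ⟨k + 1, ?_, ?_⟩ <;> push_cast <;> linarith

theorem C2_ex {ψ : ℝ} (h : ¬ (0 ≤ Real.cos ψ ∧ Real.sin ψ ≤ 0)) : ∃ k, C2 ψ k := by
  have hπ := Real.pi_pos
  obtain ⟨k, ρ, e, h1, h2⟩ := reduce ψ
  have hs := sh ψ k
  rw [show ψ - k * (2 * Real.pi) = ρ by linarith] at hs
  rw [hs.1, hs.2] at h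
  rcases h1.lt_or_eq with h3 | h3
  · rcases lt_or_ge ρ (3 * Real.pi / 2) with h4 | h4
    · exact ⟨k, by linarith, by linarith⟩
    · exact absurd (q4' h4 h2.le) h
  · rw [← h3] at h
    exact absurd (q4 (by linarith) le_rfl) h

theorem C3_ex {ψ : ℝ} (h : ¬ (Real.cos ψ ≤ 0 ∧ Real.sin ψ ≤ 0)) : ∃ k, C3 ψ k := by
  have hπ := Real.pi_pos
  obtain ⟨k, ρ, e, h1, h2⟩ := reduce ψ
  have hs := sh ψ k
  rw [show ψ - k * (2 * Real.pi) = ρ by linarith] at hs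
  rw [hs.1, hs.2] at h
  rcases lt_or_ge ρ Real.pi with h3 | h3
  · exact ⟨k, by linarith, by linarith⟩
  rcases le_or_gt ρ (3 * Real.pi / 2) with h4 | h4
  · exact absurd (q3 h3 h4) h
  · refine ⟨k + 1, ?_, ?_⟩ <;> push_cast <;> linarith

theorem int_eq {k k' : ℤ} {c : ℝ} (hc : |(k : ℝ) * (2 * Real.pi) - k' * (2 * Real.pi)| < c)
    (h : c ≤ 2 * Real.pi) : k = k' := by
  have hπ := Real.two_pi_pos
  rw [← sub_mul, abs_mul, abs_of_pos hπ] at hc
  have h1 : |((k - k' : ℤ) : ℝ)| < 1 := by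
    push_cast
    by_contra hcon
    push Not at hcon
    nlinarith
  rw [← Int.cast_abs] at h1
  have h2 : |k - k'| < 1 := by exact_mod_cast h1
  rw [Int.abs_lt_one_iff] at h2
  omega

theorem C1_un {ψ : ℝ} {k k' : ℤ} (h : C1 ψ k) (h' : C1 ψ k') : k = k' := by
  have hπ := Real.pi_pos
  refine int_eq (c := 2 * Real.pi) ?_ le_rfl
  rw [abs_lt]; constructor <;> linarith [h.1, h.2, h'.1, h'.2]

theorem C2_un {ψ : ℝ} {k k' : ℤ} (h : C2 ψ k) (h' : C2 ψ k') : k = k' := by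
  have hπ := Real.pi_pos
  refine int_eq (c := 2 * Real.pi) ?_ le_rfl
  rw [abs_lt]; constructor <;> linarith [h.1, h.2, h'.1, h'.2]

theorem C3_un {ψ : ℝ} {k k' : ℤ} (h : C3 ψ k) (h' : C3 ψ k') : k = k' := by
  have hπ := Real.pi_pos
  refine int_eq (c := 2 * Real.pi) ?_ le_rfl
  rw [abs_lt]; constructor <;> linarith [h.1, h.2, h'.1, h'.2]

theorem C1_near {ψ ψ' : ℝ} {k : ℤ} (h : C1 ψ k) (hn : |ψ' - ψ| < Real.pi / 4)
    (h' : ¬ (Real.cos ψ' < 0 ∧ 0 ≤ Real.sin ψ')) : C1 ψ' k := by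
  have hπ := Real.pi_pos
  have h1 := abs_lt.1 hn
  have hs := sh ψ' k
  rw [hs.1, hs.2] at h'
  constructor
  · by_contra hcon
    push Not at hcon
    exact h' (q2' (by linarith [h.1]) (by linarith))
  · by_contra hcon
    push Not at hcon
    exact h' (q2 (by linarith [h.1]) (by linarith [h.2]))

theorem C2_near {ψ ψ' : ℝ} {k : ℤ} (h : C2 ψ k) (hn : |ψ' - ψ| < Real.pi / 4)
    (h' : ¬ (0 ≤ Real.cos ψ' ∧ Real.sin ψ' ≤ 0)) : C2 ψ' k := by
  have hπ := Real.pi_pos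
  have h1 := abs_lt.1 hn
  have hs := sh ψ' k
  rw [hs.1, hs.2] at h'
  constructor
  · by_contra hcon
    push Not at hcon
    exact h' (q4 (by linarith [h.1]) (by linarith))
  · by_contra hcon
    push Not at hcon
    exact h' (q4' (by linarith [h.1]) (by linarith [h.2]))

/-- the conclusion of the two gluing statements -/
def Same (K : Set (ℝ × ℝ)) (ψ : ℝ × ℝ → ℝ) (k : ℤ) : Prop :=
  ∀ p ∈ K, 0 < Real.cos (ψ p) → 0 < Real.sin (ψ p) →
    k * (2 * Real.pi) < ψ p ∧ ψ p < k * (2 * Real.pi) + Real.pi / 2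

theorem mode1 {K : Set (ℝ × ℝ)} (hK : IsPreconnected K) {ψ : ℝ × ℝ → ℝ} (hψ : ContinuousOn ψ K)
    {K1 K2 : Set (ℝ × ℝ)} (c1 : IsClosed K1) (c2 : IsClosed K2) (hcov : K ⊆ K1 ∪ K2)
    (h1 : ∀ p ∈ K, p ∈ K1 → ¬ (Real.cos (ψ p) < 0 ∧ 0 ≤ Real.sin (ψ p)))
    (h2 : ∀ p ∈ K, p ∈ K2 → ¬ (0 ≤ Real.cos (ψ p) ∧ Real.sin (ψ p) ≤ 0))
    (h12 : ∀ p ∈ K, p ∈ K1 → p ∈ K2 → 0 ≤ Real.cos (ψ p)) : ∃ k, Same K ψ k := by
  have hπ := Real.pi_pos
  have key := const_index hK (n := fun p k => (p ∈ K1 → C1 (ψ p) k) ∧ (p ∈ K2 → C2 (ψ p) k)) ?_ ?_ ?_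
  · obtain ⟨k, hk⟩ := key
    refine ⟨k, fun p hp hc hs => ?_⟩
    have hsh := sh (ψ p) k
    rw [hsh.1] at hc
    rw [hsh.2] at hs
    rcases hcov hp with hp1 | hp2
    · have := (hk p hp).1 hp1
      refine ⟨?_, ?_⟩
      · by_contra hcon
        push Not at hcon
        have := Real.sin_nonpos_of_nonpos_of_neg_pi_le (x := ψ p - k * (2 * Real.pi))
          (by linarith) (by linarith [this.1])
        linarith
      · refine lt_of_le_of_ne this.2 fun he => ?_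
        rw [he, show (k:ℝ) * (2 * Real.pi) + Real.pi / 2 - k * (2 * Real.pi) = Real.pi / 2 by ring,
          Real.cos_pi_div_two] at hc
        exact lt_irrefl _ hc
    · have := (hk p hp).2 hp2
      refine ⟨this.1, ?_⟩
      by_contra hcon
      push Not at hcon
      have h5 := Real.cos_nonpos_of_pi_div_two_le_of_le (x := ψ p - k * (2 * Real.pi))
        (by linarith) (by linarith [this.2])
      linarith
  · intro p hp
    by_cases hp1 : p ∈ K1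
    · obtain ⟨k, hk⟩ := C1_ex (h1 p hp hp1)
      refine ⟨k, fun _ => hk, fun hp2 => ?_⟩
      have hc := h12 p hp hp1 hp2
      have hs : 0 < Real.sin (ψ p) := by
        by_contra hcon
        push Not at hcon
        exact h2 p hp hp2 ⟨hc, hcon⟩
      refine ⟨?_, by linarith [hk.2]⟩
      by_contra hcon
      push Not at hcon
      rw [(sh (ψ p) k).2] at hs
      have := Real.sin_nonpos_of_nonpos_of_neg_pi_le (x := ψ p - k * (2 * Real.pi))
          (by linarith) (by linarith [hk.1])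
      linarith
    · have hp2 : p ∈ K2 := (hcov hp).resolve_left hp1
      obtain ⟨k, hk⟩ := C2_ex (h2 p hp hp2)
      exact ⟨k, fun h => absurd h hp1, fun _ => hk⟩
  · intro p hp k ⟨hk1, hk2⟩
    have e0 : ∀ᶠ q in 𝓝[K] p, |ψ q - ψ p| < Real.pi / 4 := by
      have := (hψ p hp).eventually (Metric.ball_mem_nhds (ψ p) (show 0 < Real.pi / 4 by linarith))
      filter_upwards [this] with q hq
      rw [Real.dist_eq] at hq
      exact hq
    have e1 : ∀ᶠ q in 𝓝[K] p, q ∈ K1 → p ∈ K1 := by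
      by_cases h : p ∈ K1
      · exact Eventually.of_forall fun q _ => h
      · have := nhdsWithin_le_nhds (s := K) (c1.isOpen_compl.mem_nhds h)
        filter_upwards [this] with q hq hq1
        exact absurd hq1 hq
    have e2 : ∀ᶠ q in 𝓝[K] p, q ∈ K2 → p ∈ K2 := by
      by_cases h : p ∈ K2
      · exact Eventually.of_forall fun q _ => h
      · have := nhdsWithin_le_nhds (s := K) (c2.isOpen_compl.mem_nhds h)
        filter_upwards [this] with q hq hq1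
        exact absurd hq1 hq
    filter_upwards [e0, e1, e2, self_mem_nhdsWithin] with q q0 q1 q2 hq
    exact ⟨fun h => C1_near (hk1 (q1 h)) q0 (h1 q hq h), fun h => C2_near (hk2 (q2 h)) q0 (h2 q hq h)⟩
  · rintro p hp k k' ⟨a1, a2⟩ ⟨b1, b2⟩
    rcases hcov hp with h | h
    · exact C1_un (a1 h) (b1 h)
    · exact C2_un (a2 h) (b2 h)

theorem mode2 {K : Set (ℝ × ℝ)} (hK : IsPreconnected K) {ψ : ℝ × ℝ → ℝ} (hψ : ContinuousOn ψ K)
    (h1 : ∀ p ∈ K, ¬ (Real.cos (ψ p) ≤ 0 ∧ Real.sin (ψ p) ≤ 0)) : ∃ k, Same K ψ k := by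
  have hπ := Real.pi_pos
  have key := const_index hK (n := fun p k => C3 (ψ p) k) ?_ ?_ ?_
  · obtain ⟨k, hk⟩ := key
    refine ⟨k, fun p hp hc hs => ?_⟩
    have hsh := sh (ψ p) k
    rw [hsh.1] at hc
    rw [hsh.2] at hs
    have := hk p hp
    refine ⟨?_, ?_⟩
    · by_contra hcon
      push Not at hcon
      have := Real.sin_nonpos_of_nonpos_of_neg_pi_le (x := ψ p - k * (2 * Real.pi))
          (by linarith) (by linarith [this.1])
      linarith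
    · by_contra hcon
      push Not at hcon
      have h5 := Real.cos_nonpos_of_pi_div_two_le_of_le (x := ψ p - k * (2 * Real.pi))
        (by linarith) (by linarith [this.2])
      linarith
  · intro p hp
    exact C3_ex (h1 p hp)
  · intro p hp k hk
    have := (hψ p hp).eventually (Ioo_mem_nhds hk.1 hk.2)
    exact this
  · intro p hp k k' a b
    exact C3_un a b

end Pool.Agent.Y262.Peg
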