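import Mathlib

/-! A conserved integral (after Tao): squares hanging from the upper one of two flat branches. -/

set_option autoImplicit false
set_option maxHeartbeats 400000
open Set MeasureTheory Filter Topology

namespace Pool.Agent.Y262.Peg

/-- Lipschitz with constant `1/4` -/
def Lip4 (f : ℝ → ℝ) : Prop := ∀ x y, |f x - f y| ≤ |x - y| / 4

theorem Lip4.le {f : ℝ → ℝ} (h : Lip4 f) {x y : ℝ} (hxy : x ≤ y) :
    f y - f x ≤ (y - x) / 4 ∧ -((y - x) / 4) ≤ f y - f x := by
  have h1 := abs_le.1 (h y x)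
  rw [abs_of_nonneg (sub_nonneg.2 hxy)] at h1
  exact ⟨h1.2, h1.1⟩

theorem Lip4.cont {f : ℝ → ℝ} (h : Lip4 f) : Continuous f := by
  have : LipschitzWith (1/4 : NNReal) f := by
    refine LipschitzWith.of_dist_le_mul fun x y => ?_
    rw [Real.dist_eq, Real.dist_eq]
    have := h x y
    push_cast
    linarith
  exact this.continuous

theorem prim_aux {u : ℝ → ℝ} (hu : Lip4 u) {x y : ℝ} (hxy : y ≤ x) (c : ℝ) (hc : c = x ∨ c = y) :
    |(∫ t in y..x, (u t - u c))| ≤ (x - y) ^ 2 / 8 := by
  have e1 : ∫ t in y..x, (t - y) / 4 = (x - y) ^ 2 / 8 := by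
    rw [intervalIntegral.integral_div, intervalIntegral.integral_sub (by simp) (by simp),
      integral_id, intervalIntegral.integral_const]
    simp only [smul_eq_mul]
    ring
  have e2 : ∫ t in y..x, (x - t) / 4 = (x - y) ^ 2 / 8 := by
    rw [intervalIntegral.integral_div, intervalIntegral.integral_sub (by simp) (by simp),
      integral_id, intervalIntegral.integral_const]
    simp only [smul_eq_mul]
    ring
  rw [← Real.norm_eq_abs]
  rcases hc with rfl | rfl
  · rw [← e2]
    refine intervalIntegral.norm_integral_le_of_norm_le hxy (ae_of_all _ fun t ht => ?_) ?_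
    · rw [Real.norm_eq_abs]
      have := hu t c
      rw [abs_sub_comm t c, abs_of_nonneg (show (0:ℝ) ≤ c - t by linarith [ht.2])] at this
      exact this
    · exact (by fun_prop : Continuous fun t : ℝ => (c - t) / 4).intervalIntegrable _ _
  · rw [← e1]
    refine intervalIntegral.norm_integral_le_of_norm_le hxy (ae_of_all _ fun t ht => ?_) ?_
    · rw [Real.norm_eq_abs]
      have := hu t c
      rw [abs_of_nonneg (show (0:ℝ) ≤ t - c by linarith [ht.1])] at this
      exact this
    · exact (by fun_prop : Continuous fun t : ℝ => (t - c) / 4).intervalIntegrable _ _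

/-- the primitive -/
noncomputable def Pr (u : ℝ → ℝ) (x : ℝ) : ℝ := ∫ t in (0:ℝ)..x, u t

theorem prim {u : ℝ → ℝ} (hu : Lip4 u) (x y : ℝ) :
    |Pr u x - Pr u y - u y * (x - y)| ≤ (x - y) ^ 2 / 8 := by
  have hc := hu.cont
  have e : Pr u x - Pr u y - u y * (x - y) = ∫ t in y..x, (u t - u y) := by
    unfold Pr
    rw [intervalIntegral.integral_interval_sub_left (hc.intervalIntegrable _ _)
      (hc.intervalIntegrable _ _), intervalIntegral.integral_sub (hc.intervalIntegrable _ _)
      (by simp), intervalIntegral.integral_const, smul_eq_mul]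
    ring
  rw [e]
  rcases le_total y x with h | h
  · exact prim_aux hu h y (Or.inr rfl)
  · rw [intervalIntegral.integral_symm, abs_neg]
    have := prim_aux hu h y (Or.inl rfl)
    rw [show (x - y) ^ 2 = (y - x) ^ 2 by ring]
    exact this

theorem mono_of_quad {G : ℝ → ℝ} {a0 K : ℝ} (hK : 0 ≤ K)
    (h : ∀ a' a, 0 < a' → a' < a → a ≤ a0 → -(K * (a - a') ^ 2) ≤ G a - G a') {a' a : ℝ}
    (h1 : 0 < a') (h2 : a' < a) (h3 : a ≤ a0) : G a' ≤ G a := by
  have key : ∀ n : ℕ, ∀ a' a, 0 < a' → a' < a → a ≤ a0 →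
      -(K * (a - a') ^ 2 * (1 / 2) ^ n) ≤ G a - G a' := by
    intro n
    induction n with
    | zero => intro a' a h1 h2 h3; simpa using h a' a h1 h2 h3
    | succ n ih =>
      intro a' a h1 h2 h3
      have i1 := ih a' ((a + a') / 2) h1 (by linarith) (by linarith)
      have i2 := ih ((a + a') / 2) a (by linarith) (by linarith) h3
      have e : K * (a - a') ^ 2 * (1 / 2) ^ (n + 1) =
        K * ((a + a') / 2 - a') ^ 2 * (1 / 2) ^ n + K * (a - (a + a') / 2) ^ 2 * (1 / 2) ^ n := by
        rw [pow_succ]; ring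
      rw [e]; linarith
  have lim : Tendsto (fun n : ℕ => -(K * (a - a') ^ 2 * (1 / 2 : ℝ) ^ n)) atTop (𝓝 0) := by
    have := (tendsto_pow_atTop_nhds_zero_of_lt_one (r := (1/2 : ℝ)) (by norm_num)
      (by norm_num)).const_mul (K * (a - a') ^ 2)
    simpa using this.neg
  have h5 := le_of_tendsto lim (Eventually.of_forall fun n => key n a' a h1 h2 h3)
  linarith

end Pool.Agent.Y262.Peg
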