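import Pool.Agent.Y262.Peg.LemS

/-! Squares hanging from the upper one of two flat branches: the statement. -/

set_option autoImplicit false
set_option maxHeartbeats 400000
open Set MeasureTheory Filter Topology

namespace Pool.Agent.Y262.Peg

/-- height of the lower right vertex above the lower branch -/
def FF (u l : ℝ → ℝ) (a b : ℝ) : ℝ := u a - (a - b) - l (a + (u a - u b))
/-- height of the lower left vertex above the lower branch -/
def HH (u l : ℝ → ℝ) (a b : ℝ) : ℝ := u b - (a - b) - l (b + (u a - u b))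

variable {u l : ℝ → ℝ}

theorem FF_mono (hu : Lip4 u) (hl : Lip4 l) (a : ℝ) {b b' : ℝ} (h : b ≤ b') :
    15 / 16 * (b' - b) ≤ FF u l a b' - FF u l a b := by
  have h1 := hu.le h
  have h2 := hl (a + (u a - u b')) (a + (u a - u b))
  have h3 : |a + (u a - u b') - (a + (u a - u b))| ≤ (b' - b) / 4 := by
    rw [abs_le]; constructor <;> linarith [h1.1, h1.2]
  have h4 := abs_le.1 (h2.trans (div_le_div_of_nonneg_right h3 (by norm_num)))
  unfold FF
  linarith [h4.1, h4.2]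

theorem HH_mono (hu : Lip4 u) (hl : Lip4 l) (a : ℝ) {b b' : ℝ} (h : b ≤ b') :
    7 / 16 * (b' - b) ≤ HH u l a b' - HH u l a b := by
  have h1 := hu.le h
  have h2 := hl (b' + (u a - u b')) (b + (u a - u b))
  have h3 : |b' + (u a - u b') - (b + (u a - u b))| ≤ 5 / 4 * (b' - b) := by
    rw [abs_le]; constructor <;> linarith [h1.1, h1.2]
  have h4 := abs_le.1 (h2.trans (div_le_div_of_nonneg_right h3 (by norm_num)))
  unfold HH
  linarith [h4.1, h4.2, h1.1, h1.2]

theorem FF_zero_neg (hu : Lip4 u) (hl : Lip4 l) (u0 : u 0 = 0) (l0 : l 0 = 0) {a : ℝ} (ha : 0 < a) :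
    FF u l a 0 < 0 := by
  have h1 := hu.le ha.le
  have h2 := hl.le (show 0 ≤ a + (u a - u 0) by rw [u0] at *; linarith [h1.1, h1.2])
  unfold FF
  rw [u0] at *
  rw [l0] at h2
  linarith [h1.1, h1.2, h2.1, h2.2]

theorem compare (hu : Lip4 u) (hl : Lip4 l) {a a' b b' : ℝ} (ha : a' ≤ a)
    (h : FF u l a b = 0) (h' : FF u l a' b' = 0) :
    2 / 5 * (a - a') ≤ b - b' ∧ b - b' ≤ 5 / 3 * (a - a') := by
  have h1 := hu.le ha
  have h2 := abs_le.1 (hu b b')
  have h3 := abs_le.1 (hl (a + (u a - u b)) (a' + (u a' - u b')))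
  unfold FF at h h'
  have e : (u a - u a') - (a - a') + (b - b') =
    l (a + (u a - u b)) - l (a' + (u a' - u b')) := by linarith
  rw [← e] at h3
  rcases le_total 0 (b - b') with hb | hb
  · rw [abs_of_nonneg hb] at h2
    rcases le_total 0 (a + (u a - u b) - (a' + (u a' - u b'))) with hc | hc
    · rw [abs_of_nonneg hc] at h3
      constructor <;> linarith [h1.1, h1.2, h2.1, h2.2, h3.1, h3.2]
    · rw [abs_of_nonpos hc] at h3
      constructor <;> linarith [h1.1, h1.2, h2.1, h2.2, h3.1, h3.2]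
  · rw [abs_of_nonpos hb] at h2
    rcases le_total 0 (a + (u a - u b) - (a' + (u a' - u b'))) with hc | hc
    · rw [abs_of_nonneg hc] at h3
      constructor <;> linarith [h1.1, h1.2, h2.1, h2.2, h3.1, h3.2]
    · rw [abs_of_nonpos hc] at h3
      constructor <;> linarith [h1.1, h1.2, h2.1, h2.2, h3.1, h3.2]

/-- the conserved integral -/
noncomputable def GGa (u l : ℝ → ℝ) (a b : ℝ) : ℝ :=
  Pr u b - Pr u a + Pr l (a + (u a - u b)) - Pr l (b + (u a - u b)) +
    ((a - b) ^ 2 - (u a - u b) ^ 2) / 2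

theorem GGa_neg (hu : Lip4 u) (hl : Lip4 l) {a b : ℝ} (hab : b < a) (h : FF u l a b = 0) :
    GGa u l a b < 0 := by
  have e1 := abs_le.1 (prim hu b a)
  have e2 := abs_le.1 (prim hl (b + (u a - u b)) (a + (u a - u b)))
  have e3 : l (a + (u a - u b)) = u a - (a - b) := by unfold FF at h; linarith
  rw [e3] at e2
  have hp : 0 < (a - b) ^ 2 := by have : 0 < a - b := by linarith
                                  positivity
  have hq : 0 ≤ (u a - u b) ^ 2 := sq_nonneg _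
  unfold GGa
  have e4 : (b + (u a - u b) - (a + (u a - u b))) ^ 2 = (a - b) ^ 2 := by ring
  have e5 : (b - a) ^ 2 = (a - b) ^ 2 := by ring
  rw [e4] at e2
  rw [e5] at e1
  nlinarith [e1.1, e1.2, e2.1, e2.2]

theorem GGa_step (hu : Lip4 u) (hl : Lip4 l) {a a' b b' : ℝ} (ha : a' ≤ a)
    (h : FF u l a b = 0) (h' : FF u l a' b' = 0) (hs : 0 ≤ HH u l a' b') :
    -(10 * (a - a') ^ 2) ≤ GGa u l a b - GGa u l a' b' := by
  obtain ⟨c1, c2⟩ := compare hu hl ha h h'
  have hy : 0 ≤ a - a' := by linarith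
  have hx : 0 ≤ b - b' := by linarith
  have e1 := abs_le.1 (prim hu b b')
  have e2 := abs_le.1 (prim hu a a')
  have e3 := abs_le.1 (prim hl (a + (u a - u b)) (a' + (u a' - u b')))
  have e4 := abs_le.1 (prim hl (b + (u a - u b)) (b' + (u a' - u b')))
  have f3 : l (a' + (u a' - u b')) = u a' - (a' - b') := by unfold FF at h'; linarith
  obtain ⟨s, hs'⟩ : ∃ s, s = HH u l a' b' := ⟨_, rfl⟩
  have f4 : l (b' + (u a' - u b')) = u b' - (a' - b') - s := by rw [hs']; unfold HH; ring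
  rw [f3] at e3
  rw [f4] at e4
  rw [← hs'] at hs
  have g1 := hu.le ha
  have g2 := hu.le (show b' ≤ b by linarith)
  obtain ⟨x, hx'⟩ : ∃ x, x = b - b' := ⟨_, rfl⟩
  obtain ⟨y, hy'⟩ : ∃ y, y = a - a' := ⟨_, rfl⟩
  obtain ⟨z, hz'⟩ : ∃ z, z = (u a - u b) - (u a' - u b') := ⟨_, rfl⟩
  have z1 : -(2 / 3 * y) ≤ z := by linarith [g1.1, g1.2, g2.1, g2.2]
  have z2 : z ≤ 2 / 3 * y := by linarith [g1.1, g1.2, g2.1, g2.2]
  have xz : 0 ≤ x + z := by linarith [g1.1, g1.2, g2.1, g2.2]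
  have r3 : a + (u a - u b) - (a' + (u a' - u b')) = y + z := by rw [hy', hz']; ring
  have r4 : b + (u a - u b) - (b' + (u a' - u b')) = x + z := by rw [hx', hz']; ring
  rw [r3] at e3
  rw [r4] at e4
  rw [← hx'] at e1
  rw [← hy'] at e2
  have main : u b' * x - u a' * y + (u a' - (a' - b')) * (y + z) -
      (u b' - (a' - b') - s) * (x + z) +
      (((a - b) ^ 2 - (u a - u b) ^ 2) / 2 - ((a' - b') ^ 2 - (u a' - u b') ^ 2) / 2) =
      s * (x + z) + ((y - x) ^ 2 - z ^ 2) / 2 := by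
    rw [hx', hy', hz']; ring
  have p1 : 0 ≤ s * (x + z) := mul_nonneg hs xz
  have q1 : z ^ 2 ≤ (2 / 3 * y) ^ 2 := sq_le_sq' z1 z2
  have q2 : x ^ 2 ≤ (5 / 3 * y) ^ 2 := sq_le_sq' (by linarith) (by linarith)
  have q3 : (y + z) ^ 2 ≤ (5 / 3 * y) ^ 2 := sq_le_sq' (by linarith) (by linarith)
  have q4 : (x + z) ^ 2 ≤ (7 / 3 * y) ^ 2 := sq_le_sq' (by linarith) (by linarith)
  have q5 : 0 ≤ (y - x) ^ 2 := sq_nonneg _
  rw [← hy']
  unfold GGa
  have q6 : 0 ≤ y ^ 2 := sq_nonneg _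
  nlinarith [e1.1, e1.2, e2.1, e2.2, e3.1, e3.2, e4.1, e4.2]

theorem GGa_small (hu : Lip4 u) (hl : Lip4 l) (u0 : u 0 = 0) (l0 : l 0 = 0) {a b : ℝ}
    (hb : 0 < b) (hab : b < a) : -(5 * a ^ 2) ≤ GGa u l a b := by
  have e1 := abs_le.1 (prim hu b 0)
  have e2 := abs_le.1 (prim hu a 0)
  have e3 := abs_le.1 (prim hl (a + (u a - u b)) 0)
  have e4 := abs_le.1 (prim hl (b + (u a - u b)) 0)
  have g := hu.le hab.le
  rw [u0] at e1 e2
  rw [l0] at e3 e4
  have p0 : Pr u 0 = 0 := by unfold Pr; simp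
  have p1 : Pr l 0 = 0 := by unfold Pr; simp
  rw [p0] at e1 e2
  rw [p1] at e3 e4
  simp only [sub_zero, zero_mul] at e1 e2 e3 e4
  have q1 : b ^ 2 ≤ a ^ 2 := sq_le_sq' (by linarith) (by linarith)
  have q2 : (a + (u a - u b)) ^ 2 ≤ (2 * a) ^ 2 :=
    sq_le_sq' (by linarith [g.1, g.2]) (by linarith [g.1, g.2])
  have q3 : (b + (u a - u b)) ^ 2 ≤ (2 * a) ^ 2 :=
    sq_le_sq' (by linarith [g.1, g.2]) (by linarith [g.1, g.2])
  have q4 : (u a - u b) ^ 2 ≤ a ^ 2 := sq_le_sq' (by linarith [g.1, g.2]) (by linarith [g.1, g.2])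
  have q5 : 0 ≤ (a - b) ^ 2 := sq_nonneg _
  unfold GGa
  nlinarith [e1.1, e1.2, e2.1, e2.2, e3.1, e3.2, e4.1, e4.2]

/-- **No square hanging from the upper branch has its right vertex below and its left vertex above
the lower branch**, unless some such square is inscribed. -/
theorem lemS (hu : Lip4 u) (hl : Lip4 l) (u0 : u 0 = 0) (l0 : l 0 = 0) {a0 : ℝ}
    (hgap : ∀ x, 0 < x → x ≤ a0 → l x < u x)
    (hno : ∀ a b, 0 < b → b < a → a ≤ a0 → FF u l a b = 0 → HH u l a b ≠ 0)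
    {b0 : ℝ} (hb0 : 0 ≤ b0) (hba : b0 < a0) : ¬ (FF u l a0 b0 ≤ 0 ∧ 0 ≤ HH u l a0 b0) := by
  rintro ⟨hF, hH⟩
  have ha0 : 0 < a0 := by linarith
  have cu := hu.cont
  have cl := hl.cont
  have ex : ∀ a, 0 < a → a ≤ a0 → ∃ b, 0 < b ∧ b < a ∧ FF u l a b = 0 := by
    intro a h1 h2
    have hc : ContinuousOn (fun b => FF u l a b) (Icc 0 a) := by
      apply Continuous.continuousOn
      unfold FF
      fun_prop
    have h3 : FF u l a a > 0 := by
      unfold FF
      rw [sub_self, sub_self, add_zero]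
      have := hgap a h1 h2
      linarith
    obtain ⟨b, hb, e⟩ := intermediate_value_Ioo h1.le hc ⟨FF_zero_neg hu hl u0 l0 h1, h3⟩
    exact ⟨b, hb.1, hb.2, e⟩
  choose! β β1 β2 β3 using ex
  -- β is Lipschitz
  have hβ : ContinuousOn β (Ioc 0 a0) := by
    have : LipschitzOnWith (5/3 : NNReal) β (Ioc 0 a0) := by
      refine LipschitzOnWith.of_dist_le_mul fun x hx y hy => ?_
      rw [Real.dist_eq, Real.dist_eq]
      push_cast
      rcases le_total x y with h | h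
      · have := compare hu hl h (β3 y hy.1 hy.2) (β3 x hx.1 hx.2)
        rw [abs_sub_comm, abs_sub_comm x y, abs_of_nonneg (sub_nonneg.2 h), abs_of_nonneg
          (by linarith [this.1])]
        exact this.2
      · have := compare hu hl h (β3 x hx.1 hx.2) (β3 y hy.1 hy.2)
        rw [abs_of_nonneg (sub_nonneg.2 h), abs_of_nonneg (by linarith [this.1])]
        exact this.2
    exact this.continuousOn
  have hs : ContinuousOn (fun a => HH u l a (β a)) (Ioc 0 a0) := by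
    unfold HH
    have h1 : ContinuousOn (fun a => u (β a)) (Ioc 0 a0) := cu.comp_continuousOn hβ
    have h2 : ContinuousOn (fun a => l (β a + (u a - u (β a)))) (Ioc 0 a0) :=
      cl.comp_continuousOn (hβ.add (cu.continuousOn.sub h1))
    exact (h1.sub (continuousOn_id.sub hβ)).sub h2
  have hm : a0 ∈ Ioc 0 a0 := ⟨ha0, le_rfl⟩
  have hb1 : b0 ≤ β a0 := by
    by_contra hcon
    push Not at hcon
    have := FF_mono hu hl a0 hcon.le
    rw [β3 a0 ha0 le_rfl] at this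
    linarith
  have hpos0 : 0 < HH u l a0 (β a0) := by
    have h1 := HH_mono hu hl a0 hb1
    have h2 := hno a0 (β a0) (β1 a0 ha0 le_rfl) (β2 a0 ha0 le_rfl) le_rfl (β3 a0 ha0 le_rfl)
    exact lt_of_le_of_ne (by linarith) (Ne.symm h2)
  have hpos : ∀ a ∈ Ioc 0 a0, 0 < HH u l a (β a) := by
    intro a ha
    by_contra hcon
    push Not at hcon
    obtain ⟨a1, h1, h2⟩ := (isPreconnected_Ioc).intermediate_value ha hm hs
      (show (0:ℝ) ∈ Icc (HH u l a (β a)) (HH u l a0 (β a0)) from ⟨hcon, hpos0.le⟩)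
    exact hno a1 (β a1) (β1 a1 h1.1 h1.2) (β2 a1 h1.1 h1.2) h1.2 (β3 a1 h1.1 h1.2) h2
  have step : ∀ a' a, 0 < a' → a' < a → a ≤ a0 → -(10 * (a - a') ^ 2) ≤
      GGa u l a (β a) - GGa u l a' (β a') := by
    intro a' a h1 h2 h3
    exact GGa_step hu hl h2.le (β3 a (h1.trans h2) h3) (β3 a' h1 (h2.le.trans h3))
      (hpos a' ⟨h1, h2.le.trans h3⟩).le
  have neg := GGa_neg hu hl (β2 a0 ha0 le_rfl) (β3 a0 ha0 le_rfl)
  have lim : Tendsto (fun a : ℝ => -(5 * a ^ 2)) (𝓝[>] 0) (𝓝 0) := by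
    have h1 : Continuous fun a : ℝ => -(5 * a ^ 2) := by fun_prop
    have h2 := (h1.tendsto 0).mono_left (nhdsWithin_le_nhds (s := Ioi (0:ℝ)))
    simpa using h2
  have fin : 0 ≤ GGa u l a0 (β a0) := by
    refine le_of_tendsto lim ?_
    filter_upwards [Ioo_mem_nhdsGT ha0] with a' ha'
    have h1 := mono_of_quad (G := fun a => GGa u l a (β a)) (K := 10) (by norm_num) step ha'.1 ha'.2
      le_rfl
    have h2 := GGa_small hu hl u0 l0 (β1 a' ha'.1 ha'.2.le) (β2 a' ha'.1 ha'.2.le)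
    exact h2.trans h1
  linarith

end Pool.Agent.Y262.Peg
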