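import Pool.Agent.Y262.Peg.LocV

/-! The angle function near a cusp. -/

set_option autoImplicit false
set_option maxHeartbeats 400000
open Complex Set Topology Metric Filter

namespace Pool.Agent.Y262.Peg

open Pool.Agent.H763R2 Pool.Agent.H763R2.An
open Pool.Agent.H763R2.Dm (NoSq)

variable {c : ℝ → ℂ} {θ : ℝ → ℝ → ℝ} {g : ℤ}

/-- two flat branches of the curve with the same direction, `u` above `l` -/
structure Cu (c : ℝ → ℂ) (τ δ : ℝ) (e : ℂ) (u l : ℝ → ℝ) (r : ℝ) : Prop where
  hu : Lip4 u
  hl : Lip4 l
  u0 : u 0 = 0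
  l0 : l 0 = 0
  hr : 0 < r
  gap : ∀ x, 0 < x → x < r → l x < u x
  neg : ∀ x < 0, u x < l x
  inc : StrictAntiOn (fun t => ((c t - c τ) / e).re) (Icc (τ - δ) τ)
  out : StrictMonoOn (fun t => ((c t - c τ) / e).re) (Icc τ (τ + δ))
  memU : ∀ x, 0 ≤ x → x < r → c τ + e * (x + u x * I) ∈ range c
  memL : ∀ x, 0 ≤ x → x < r → c τ + e * (x + l x * I) ∈ range c

variable {τ δ : ℝ} {e : ℂ} {u l : ℝ → ℝ} {r : ℝ}

theorem Cu.no1 (H : Cu c τ δ e u l r) (he : e ≠ 0) (nosq : NoSq (range c)) {a b : ℝ} (hb : 0 < b)
    (hab : b < a) (ha : a ≤ r / 2) (hF : FF u l a b = 0) : HH u l a b ≠ 0 := by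
  intro hH
  have g1 := H.hu.le hab.le
  have g2 := H.hu.le hb.le
  rw [H.u0] at g2
  have hr := H.hr
  unfold FF at hF
  unfold HH at hH
  obtain ⟨Δ, hΔ⟩ : ∃ Δ, Δ = u a - u b := ⟨_, rfl⟩
  rw [← hΔ] at hF hH g1
  have hS : 0 ≤ b + Δ := by
    by_contra hcon
    push Not at hcon
    have k := H.hl.le hcon.le
    rw [H.l0] at k
    linarith [k.1, k.2, g1.1, g1.2, g2.1, g2.2]
  have m1 := H.memU b hb.le (by linarith)
  have m2 := H.memU a (by linarith) (by linarith)
  have m3 := H.memL (a + Δ) (by linarith) (by linarith [g1.2])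
  have m4 := H.memL (b + Δ) hS (by linarith [g1.2])
  have el : l (a + Δ) = u a - (a - b) := by linarith
  have el' : l (b + Δ) = u b - (a - b) := by linarith
  rw [el] at m3
  rw [el'] at m4
  refine nosq ⟨_, e * (((a - b : ℝ) : ℂ) + Δ * I), ?_, m4, ?_, ?_, ?_⟩
  · refine mul_ne_zero he fun h => ?_
    have := congrArg Complex.re h
    simp at this
    linarith
  · convert m3 using 1
    push_cast
    have : (u a : ℂ) = Δ + u b := by rw [hΔ]; push_cast; ring
    rw [this]; ring
  · convert m2 using 1
    push_cast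
    have : (u a : ℂ) = Δ + u b := by rw [hΔ]; push_cast; ring
    rw [this]
    linear_combination (e * Δ) * I_sq
  · convert m1 using 1
    push_cast
    linear_combination (e * Δ) * I_sq

theorem Cu.no2 (H : Cu c τ δ e u l r) (he : e ≠ 0) (nosq : NoSq (range c)) {a b : ℝ} (hb : 0 < b)
    (hab : b < a) (ha : a ≤ r / 2) (hF : FF (fun x => -l x) (fun x => -u x) a b = 0) :
    HH (fun x => -l x) (fun x => -u x) a b ≠ 0 := by
  intro hH
  have g1 := H.hl.le hab.le
  have g2 := H.hl.le hb.le
  rw [H.l0] at g2
  have hr := H.hr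
  unfold FF at hF
  unfold HH at hH
  simp only at hF hH
  obtain ⟨Δ, hΔ⟩ : ∃ Δ, Δ = l a - l b := ⟨_, rfl⟩
  rw [show -l a - -l b = -Δ by rw [hΔ]; ring] at hF hH
  rw [← hΔ] at g1
  have hS : 0 ≤ b + -Δ := by
    by_contra hcon
    push Not at hcon
    have k := H.hu.le hcon.le
    rw [H.u0] at k
    linarith [k.1, k.2, g1.1, g1.2, g2.1, g2.2]
  have m1 := H.memL b hb.le (by linarith)
  have m2 := H.memL a (by linarith) (by linarith)
  have m3 := H.memU (a + -Δ) (by linarith) (by linarith [g1.1])
  have m4 := H.memU (b + -Δ) hS (by linarith [g1.1])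
  have el : u (a + -Δ) = l a + (a - b) := by linarith
  have el' : u (b + -Δ) = l b + (a - b) := by linarith
  rw [el] at m3
  rw [el'] at m4
  have hla : (l a : ℂ) = Δ + l b := by rw [hΔ]; push_cast; ring
  refine nosq ⟨_, e * (((a - b : ℝ) : ℂ) + Δ * I), ?_, m1, ?_, ?_, ?_⟩
  · refine mul_ne_zero he fun h => ?_
    have := congrArg Complex.re h
    simp at this
    linarith
  · convert m2 using 1
    push_cast
    rw [hla]; ring
  · convert m3 using 1
    push_cast
    rw [hla]
    linear_combination (e * Δ) * I_sq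
  · convert m4 using 1
    push_cast
    linear_combination (e * Δ) * I_sq

theorem Cu.br (H : Cu c τ δ e u l r) (he : e ≠ 0) (nosq : NoSq (range c)) : Br u l (r / 2) where
  hu := H.hu
  hl := H.hl
  u0 := H.u0
  l0 := H.l0
  gap x h1 h2 := H.gap x h1 (by have := H.hr; linarith)
  no1 _ _ h1 h2 h3 h4 := H.no1 he nosq h1 h2 h3 h4
  no2 _ _ h1 h2 h3 h4 := H.no2 he nosq h1 h2 h3 h4

/-- what we know about the chords near the cusp -/
structure Fa (c : ℝ → ℂ) (Z : ℝ → ℂ) (σ : ℝ) (u l : ℝ → ℝ) (x y : ℝ) : Prop where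
  dT : l (Dz Z x y).re < (Dz Z x y).im → (Dz Z x y).im < u (Dz Z x y).re → 0 < σ * mgc c (DD c x y)
  dF : (u (Dz Z x y).re < (Dz Z x y).im ∨ (Dz Z x y).im < l (Dz Z x y).re) →
    σ * mgc c (DD c x y) < 0
  dU : 0 ≤ (Dz Z x y).re → (Dz Z x y).im = u (Dz Z x y).re → mgc c (DD c x y) = 0
  dL : 0 ≤ (Dz Z x y).re → (Dz Z x y).im = l (Dz Z x y).re → mgc c (DD c x y) = 0
  eT : l (Ez Z x y).re < (Ez Z x y).im → (Ez Z x y).im < u (Ez Z x y).re → 0 < σ * mgc c (CC c x y)
  eF : (u (Ez Z x y).re < (Ez Z x y).im ∨ (Ez Z x y).im < l (Ez Z x y).re) →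
    σ * mgc c (CC c x y) < 0

theorem Cu.facts (H : Cu c τ δ e u l r) (L : Loop c) (J : Inj c) (he : e ≠ 0) (hδ : 0 < δ)
    (hδ2 : δ < 1 / 2)
    (hg : ∀ t ∈ Icc (τ - δ) (τ + δ), 0 ≤ ((c t - c τ) / e).re ∧
      (((c t - c τ) / e).im = u ((c t - c τ) / e).re ∨ ((c t - c τ) / e).im = l ((c t - c τ) / e).re))
    (hout : (∀ t ∈ Icc τ (τ + δ), ((c t - c τ) / e).im = u ((c t - c τ) / e).re) ∨
      (∀ t ∈ Icc τ (τ + δ), ((c t - c τ) / e).im = l ((c t - c τ) / e).re)) :
    ∃ σ : ℝ, (σ = 1 ∨ σ = -1) ∧ ∃ δ1 > 0, δ1 < δ ∧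
      (∀ t, |t - τ| < δ1 → ((c t - c τ) / e).re ≤ r / 4) ∧
      ∀ x y, |x - τ| < δ1 → |y - τ| < δ1 → Fa c (fun t => (c t - c τ) / e) σ u l x y := by
  have hr := H.hr
  obtain ⟨ρ, hρ, σ, hσ, side⟩ := sideT L J hδ hδ2 he H.out H.hu.cont H.hl.cont H.u0 H.l0 hr H.gap
    H.neg hg hout
  obtain ⟨δ1, hδ1, hδ1', hsm⟩ := small_nbhd L τ e (show 0 < min (ρ / 3) (r / 4) by positivity) hδ
  have S := mgc_sg L
  refine ⟨σ, hσ, δ1, hδ1, hδ1', fun t ht => ?_, fun x y hx hy => ?_⟩
  · have h1 := (le_abs_self _).trans (abs_re_le_norm ((c t - c τ) / e))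
    have h2 := lt_of_lt_of_le (hsm t ht) (min_le_right _ _)
    linarith
  have d1 := Dz_norm (Z := fun t => (c t - c τ) / e) (hsm x hx) (hsm y hy)
  have d2 := Ez_norm (Z := fun t => (c t - c τ) / e) (hsm x hx) (hsm y hy)
  have m1 := min_le_left (ρ / 3) (r / 4)
  have m2 := min_le_right (ρ / 3) (r / 4)
  have s1 := side _ (show ‖Dz (fun t => (c t - c τ) / e) x y‖ < ρ by linarith)
  have s2 := side _ (show ‖Ez (fun t => (c t - c τ) / e) x y‖ < ρ by linarith)
  rw [← DD_loc he] at s1
  rw [← CC_loc he] at s2
  have hre : (Dz (fun t => (c t - c τ) / e) x y).re < r := by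
    have h1 := (le_abs_self _).trans (abs_re_le_norm (Dz (fun t => (c t - c τ) / e) x y))
    linarith
  refine ⟨s1.1, s1.2, fun h0 h1 => ?_, fun h0 h1 => ?_, s2.1, s2.2⟩
  · rw [S.zero L, DD_loc (τ := τ) he]
    have := H.memU _ h0 hre
    rw [← h1, re_add_im] at this
    exact this
  · rw [S.zero L, DD_loc (τ := τ) he]
    have := H.memL _ h0 hre
    rw [← h1, re_add_im] at this
    exact this

theorem near_right {F : ℝ → ℝ} (hF : Continuous F) {x : ℝ} (h : 0 < F x) :
    ∃ η > 0, ∀ y, x < y → y < x + η → 0 < F y := by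
  obtain ⟨η, hη, h'⟩ := Metric.continuous_iff.1 hF x (F x) h
  refine ⟨η, hη, fun y h1 h2 => ?_⟩
  have := h' y (by rw [Real.dist_eq, abs_of_pos (by linarith)]; linarith)
  rw [Real.dist_eq] at this
  linarith [(abs_lt.1 this).1]

theorem locT1 (H : Cu c τ δ e u l r) (L : Loop c) (J : Inj c) (nosq : NoSq (range c))
    (A : Ang c (mgc c) θ g) (he : e ≠ 0) (hδ : 0 < δ) (hδ2 : δ < 1 / 2)
    (h1 : ∀ t ∈ Icc (τ - δ) τ, ((c t - c τ) / e).im = u ((c t - c τ) / e).re)
    (h2 : ∀ t ∈ Icc τ (τ + δ), ((c t - c τ) / e).im = l ((c t - c τ) / e).re) : Loc θ τ := by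
  have B := H.br he nosq
  have hr := H.hr
  have hc := L.cont
  obtain ⟨Z, hZ⟩ : ∃ Z : ℝ → ℂ, Z = fun t => (c t - c τ) / e := ⟨_, rfl⟩
  have cZ : Continuous Z := by rw [hZ]; fun_prop
  have hZt : ∀ t, (c t - c τ) / e = Z t := fun t => by rw [hZ]
  have Zτ : Z τ = 0 := by rw [hZ]; simp
  have inc := H.inc
  have out := H.out
  have cu := H.hu.cont
  have cl := H.hl.cont
  simp only [hZt] at inc out h1 h2
  have pos1 : ∀ t ∈ Icc (τ - δ) τ, 0 ≤ (Z t).re := fun t ht => by
    have := inc.antitoneOn ht (right_mem_Icc.2 (by linarith)) ht.2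
    rw [Zτ] at this
    simpa using this
  have pos2 : ∀ t ∈ Icc τ (τ + δ), 0 ≤ (Z t).re := fun t ht => by
    have := out.monotoneOn (left_mem_Icc.2 (by linarith)) ht ht.1
    rw [Zτ] at this
    simpa using this
  obtain ⟨σ, hσ, δ1, hδ1, hδ1', hq, fa⟩ := H.facts L J he hδ hδ2 (fun t ht => by
    rw [hZt]
    rcases le_total t τ with h | h
    · exact ⟨pos1 t ⟨ht.1, h⟩, Or.inl (h1 t ⟨ht.1, h⟩)⟩
    · exact ⟨pos2 t ⟨h, ht.2⟩, Or.inr (h2 t ⟨h, ht.2⟩)⟩) (Or.inr (by simpa only [hZt] using h2))
  rw [← hZ] at fa
  simp only [hZt] at hq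
  have U : ∀ p ∈ Tri τ δ1, p.1 < p.2 ∧ p.2 < p.1 + 1 := fun p hp => Tri_UU (by linarith) hp
  have hψ : ContinuousOn (fun p : ℝ × ℝ => θ p.1 p.2 - shf σ) (Tri τ δ1) :=
    (A.cont.mono (Tri_UU (by linarith))).sub continuousOn_const
  have cD : Continuous fun p : ℝ × ℝ => Dz Z p.1 p.2 := by unfold Dz; fun_prop
  have cw : Continuous fun p : ℝ × ℝ => (Dz Z p.1 p.2).im - u (Dz Z p.1 p.2).re := by fun_prop
  have hk : ∃ k, Same (Tri τ δ1) (fun p : ℝ × ℝ => θ p.1 p.2 - shf σ) k := by
    refine mode1 (Tri_pre _ _) hψ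
      (K1 := {p | p.2 ≤ τ} ∪ ({p | p.1 ≤ τ} ∩ ({p | τ ≤ p.2} ∩
        {p | (Dz Z p.1 p.2).im - u (Dz Z p.1 p.2).re ≤ 0})))
      (K2 := {p | τ ≤ p.1} ∪ ({p | p.1 ≤ τ} ∩ ({p | τ ≤ p.2} ∩
        {p | 0 ≤ (Dz Z p.1 p.2).im - u (Dz Z p.1 p.2).re})))
      ((isClosed_le (by fun_prop) (by fun_prop)).union ((isClosed_le (by fun_prop)
        (by fun_prop)).inter ((isClosed_le (by fun_prop) (by fun_prop)).inter
        (isClosed_le cw continuous_const))))
      ((isClosed_le (by fun_prop) (by fun_prop)).union ((isClosed_le (by fun_prop)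
        (by fun_prop)).inter ((isClosed_le (by fun_prop) (by fun_prop)).inter
        (isClosed_le continuous_const cw)))) ?_ ?_ ?_ ?_
    · intro p _
      rcases le_total p.2 τ with h | h
      · exact Or.inl (Or.inl h)
      rcases le_total τ p.1 with h' | h'
      · exact Or.inr (Or.inl h')
      rcases le_total ((Dz Z p.1 p.2).im - u (Dz Z p.1 p.2).re) 0 with h'' | h''
      · exact Or.inl (Or.inr ⟨h', h, h''⟩)
      · exact Or.inr (Or.inr ⟨h', h, h''⟩)
    · rintro ⟨x, y⟩ hp hK ⟨g1, g2⟩
      obtain ⟨p1, p2, p3⟩ := hp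
      simp only at p1 p2 p3 g1 g2
      have hx : |x - τ| < δ1 := by rw [abs_lt]; constructor <;> linarith
      have hy : |y - τ| < δ1 := by rw [abs_lt]; constructor <;> linarith
      have F := fa x y hx hy
      have hc := cos_pos_iff A hσ p2 (U (x, y) ⟨p1, p2, p3⟩).2
      rcases hK with h | ⟨k1, k2, k3⟩
      · -- both on the incoming branch
        simp only [mem_ofPred_eq] at h
        have hx' : x ∈ Icc (τ - δ) τ := ⟨by linarith, by linarith⟩
        have hy' : y ∈ Icc (τ - δ) τ := ⟨by linarith, h⟩
        have eD := Dz_re Z x y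
        have eD' := Dz_im Z x y
        have eE := Ez_re Z x y
        have eE' := Ez_im Z x y
        rw [h1 x hx', h1 y hy'] at eD eE
        rw [h1 x hx'] at eD'
        rw [h1 y hy'] at eE'
        have hab := inc hx' hy' p2
        simp only at hab
        have hb := pos1 y hy'
        have ha := hq x hx
        set a := (Z x).re with ha'
        set b := (Z y).re with hb'
        have g3 := H.hu.le hab.le
        have k := H.hu (a + (u a - u b)) a
        rw [show a + (u a - u b) - a = u a - u b by ring] at k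
        have k' := abs_le.1 k
        have k4 : |u a - u b| ≤ (a - b) / 4 := by
          rw [abs_le]; constructor <;> linarith [g3.1, g3.2]
        rw [show a - (u b - u a) = a + (u a - u b) by ring] at eD
        rw [show b - (u b - u a) = b + (u a - u b) by ring] at eE
        refine B.lem hb hab (by linarith) ⟨?_, ?_⟩
        · by_contra hcon
          push Not at hcon
          unfold FF at hcon
          have := hc.1 (F.dT (by rw [eD, eD']; linarith) (by rw [eD, eD']; linarith [k'.1, k'.2]))
          linarith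
        · by_contra hcon
          push Not at hcon
          unfold HH at hcon
          have := hc.2.2.2.1 (F.eF (Or.inr (by rw [eE, eE']; linarith)))
          linarith
      · simp only [mem_ofPred_eq] at k1 k2 k3
        have hx' : x ∈ Icc (τ - δ) τ := ⟨by linarith, k1⟩
        have hy' : y ∈ Icc τ (τ + δ) := ⟨k2, by linarith⟩
        have eD := Dz_re Z x y
        have eD' := Dz_im Z x y
        have eE := Ez_re Z x y
        have eE' := Ez_im Z x y
        rw [h1 x hx', h2 y hy'] at eD eE
        rw [h1 x hx'] at eD'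
        rw [h2 y hy'] at eE'
        have ha := pos1 x hx'
        have hb := pos2 y hy'
        have hqa := hq x hx
        set a := (Z x).re with ha'
        set b := (Z y).re with hb'
        rw [show a - (l b - u a) = a + (u a - l b) by ring] at eD
        rw [show b - (l b - u a) = b + (u a - l b) by ring] at eE
        -- the third vertex is below the lower branch
        have hlt : (Dz Z x y).im < l (Dz Z x y).re := by
          by_contra hcon
          push Not at hcon
          have hre : 0 ≤ (Dz Z x y).re := by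
            by_contra hneg
            push Not at hneg
            have := H.neg _ hneg
            linarith
          rcases hcon.lt_or_eq with h | h
          · rcases lt_or_eq_of_le k3 with h' | h'
            · have := hc.1 (F.dT h (by linarith))
              linarith
            · have := hc.2.2.2.2 (F.dU hre (by linarith))
              linarith
          · have := hc.2.2.2.2 (F.dL hre h.symm)
            linarith
        rw [eD, eD'] at hlt
        have := B.mix1 ha (by linarith) (by linarith : u a + (b - a) - l (a + (u a - l b)) < 0)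
        have h5 := hc.2.2.2.1 (F.eF (Or.inr (by rw [eE, eE']; linarith)))
        linarith
    · rintro ⟨x, y⟩ hp hK ⟨g1, g2⟩
      obtain ⟨p1, p2, p3⟩ := hp
      simp only at p1 p2 p3 g1 g2
      have hx : |x - τ| < δ1 := by rw [abs_lt]; constructor <;> linarith
      have hy : |y - τ| < δ1 := by rw [abs_lt]; constructor <;> linarith
      have F := fa x y hx hy
      have hc := cos_pos_iff A hσ p2 (U (x, y) ⟨p1, p2, p3⟩).2
      rcases hK with h | ⟨k1, k2, k3⟩
      · -- both on the outgoing branch
        simp only [mem_ofPred_eq] at h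
        have hx' : x ∈ Icc τ (τ + δ) := ⟨h, by linarith⟩
        have hy' : y ∈ Icc τ (τ + δ) := ⟨by linarith, by linarith⟩
        have eD := Dz_re Z x y
        have eD' := Dz_im Z x y
        have eE := Ez_re Z x y
        have eE' := Ez_im Z x y
        rw [h2 x hx', h2 y hy'] at eD eE
        rw [h2 x hx'] at eD'
        rw [h2 y hy'] at eE'
        have hab := out hx' hy' p2
        simp only at hab
        have ha := pos2 x hx'
        have hb := hq y hy
        set a := (Z x).re with ha'
        set b := (Z y).re with hb'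
        have g3 := H.hl.le hab.le
        have k := H.hl (b - (l b - l a)) b
        rw [show b - (l b - l a) - b = -(l b - l a) by ring, abs_neg] at k
        have k' := abs_le.1 k
        have k4 : |l b - l a| ≤ (b - a) / 4 := by
          rw [abs_le]; constructor <;> linarith [g3.1, g3.2]
        refine B.mirror.lem ha hab (by linarith) ⟨?_, ?_⟩
        · by_contra hcon
          push Not at hcon
          unfold FF at hcon
          simp only at hcon
          rw [show b + (-l b - -l a) = b - (l b - l a) by ring] at hcon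
          have := hc.2.2.1 (F.eT (by rw [eE, eE']; linarith [k'.1, k'.2]) (by
            rw [eE, eE']; linarith))
          linarith
        · by_contra hcon
          push Not at hcon
          unfold HH at hcon
          simp only at hcon
          rw [show a + (-l b - -l a) = a - (l b - l a) by ring] at hcon
          have := hc.2.1 (F.dF (Or.inl (by rw [eD, eD']; linarith)))
          linarith
      · simp only [mem_ofPred_eq] at k1 k2 k3
        have hx' : x ∈ Icc (τ - δ) τ := ⟨by linarith, k1⟩
        have hy' : y ∈ Icc τ (τ + δ) := ⟨k2, by linarith⟩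
        have eD := Dz_re Z x y
        have eD' := Dz_im Z x y
        have eE := Ez_re Z x y
        have eE' := Ez_im Z x y
        rw [h1 x hx', h2 y hy'] at eD eE
        rw [h1 x hx'] at eD'
        rw [h2 y hy'] at eE'
        have hne : (Z x).re ≠ 0 ∨ (Z y).re ≠ 0 := by
          by_contra hcon
          push Not at hcon
          have e1 : x = τ := inc.injOn hx' (right_mem_Icc.2 (by linarith)) (by
            show (Z x).re = (Z τ).re
            rw [hcon.1, Zτ]; simp)
          have e2 : y = τ := out.injOn hy' (left_mem_Icc.2 (by linarith)) (by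
            show (Z y).re = (Z τ).re
            rw [hcon.2, Zτ]; simp)
          linarith
        have ha := pos1 x hx'
        have hb := pos2 y hy'
        have hqa := hq x hx
        have hqb := hq y hy
        set a := (Z x).re with ha'
        set b := (Z y).re with hb'
        rw [show a - (l b - u a) = a + (u a - l b) by ring] at eD
        rw [show b - (l b - u a) = b + (u a - l b) by ring] at eE
        have hw : (Dz Z x y).im - u (Dz Z x y).re = 0 := by
          refine le_antisymm ?_ k3
          by_contra hcon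
          push Not at hcon
          have := hc.2.1 (F.dF (Or.inl (by linarith)))
          linarith
        rw [eD, eD'] at hw
        obtain ⟨-, q2, q3⟩ := B.mix2 ha (by linarith) hb (by linarith) hne (by linarith)
        have := hc.2.2.1 (F.eT (by rw [eE, eE']; linarith) (by rw [eE, eE']; linarith))
        linarith
    · rintro ⟨x, y⟩ hp hK1 hK2
      obtain ⟨p1, p2, p3⟩ := hp
      simp only at p1 p2 p3
      have hx : |x - τ| < δ1 := by rw [abs_lt]; constructor <;> linarith
      have hy : |y - τ| < δ1 := by rw [abs_lt]; constructor <;> linarith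
      have F := fa x y hx hy
      have hc := cos_pos_iff A hσ p2 (U (x, y) ⟨p1, p2, p3⟩).2
      have mixed : x ≤ τ → τ ≤ y → ((Dz Z x y).re = (Z x).re + (u (Z x).re - l (Z y).re) ∧
          (Dz Z x y).im = u (Z x).re + ((Z y).re - (Z x).re)) := by
        intro k1 k2
        have hx' : x ∈ Icc (τ - δ) τ := ⟨by linarith, k1⟩
        have hy' : y ∈ Icc τ (τ + δ) := ⟨k2, by linarith⟩
        have eD := Dz_re Z x y
        have eD' := Dz_im Z x y
        rw [h1 x hx', h2 y hy'] at eD
        rw [h1 x hx'] at eD'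
        exact ⟨by rw [eD]; ring, eD'⟩
      rcases hK1 with h | ⟨k1, k2, k3⟩
      · simp only [mem_ofPred_eq] at h
        rcases hK2 with h' | ⟨j1, j2, j3⟩
        · simp only [mem_ofPred_eq] at h'
          linarith
        · simp only [mem_ofPred_eq] at j1 j2 j3
          exfalso
          obtain ⟨eD, eD'⟩ := mixed j1 j2
          have hy0 : y = τ := by linarith
          rw [hy0, Zτ] at eD eD'
          rw [hy0] at j3
          simp only [zero_re] at eD eD'
          have hx0 : 0 < (Z x).re := by
            have hx' : x ∈ Icc (τ - δ) τ := ⟨by linarith, j1⟩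
            have := inc hx' (right_mem_Icc.2 (by linarith)) (show x < τ by linarith)
            simp only at this
            rw [Zτ] at this
            simpa using this
          have := B.mix_b0 hx0
          rw [eD, eD'] at j3
          linarith
      · simp only [mem_ofPred_eq] at k1 k2 k3
        obtain ⟨eD, eD'⟩ := mixed k1 k2
        rcases hK2 with h' | ⟨j1, j2, j3⟩
        · simp only [mem_ofPred_eq] at h'
          exfalso
          have hx0 : x = τ := by linarith
          rw [hx0, Zτ] at eD eD'
          rw [hx0] at k3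
          simp only [zero_re] at eD eD'
          have hy0 : 0 < (Z y).re := by
            have hy' : y ∈ Icc τ (τ + δ) := ⟨k2, by linarith⟩
            have := out (left_mem_Icc.2 (by linarith)) hy' (show τ < y by linarith)
            simp only at this
            rw [Zτ] at this
            simpa using this
          have := B.mix_a0 hy0
          rw [eD, eD'] at k3
          linarith
        · simp only [mem_ofPred_eq] at j1 j2 j3
          have hw : (Dz Z x y).im = u (Dz Z x y).re := by linarith
          have hx' : x ∈ Icc (τ - δ) τ := ⟨by linarith, k1⟩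
          have hy' : y ∈ Icc τ (τ + δ) := ⟨k2, by linarith⟩
          have hne : (Z x).re ≠ 0 ∨ (Z y).re ≠ 0 := by
            by_contra hcon
            push Not at hcon
            have e1 : x = τ := inc.injOn hx' (right_mem_Icc.2 (by linarith)) (by
              show (Z x).re = (Z τ).re
              rw [hcon.1, Zτ]; simp)
            have e2 : y = τ := out.injOn hy' (left_mem_Icc.2 (by linarith)) (by
              show (Z y).re = (Z τ).re
              rw [hcon.2, Zτ]; simp)
            linarith
          have ha := pos1 x hx'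
          have hb := pos2 y hy'
          have hqa := hq x hx
          have hqb := hq y hy
          obtain ⟨q1, -, -⟩ := B.mix2 ha (by linarith) hb (by linarith) hne
            (by rw [eD, eD'] at hw; linarith)
          rw [hc.2.2.2.2 (F.dU (by rw [eD]; linarith) hw)]
  obtain ⟨k, hk⟩ := hk
  refine finish A hσ hδ1 (by linarith) hk fun x hx hxδ => ?_
  have hx' := abs_lt.1 hxδ
  rcases lt_or_gt_of_ne hx with hlt | hgt
  · have hxm : x ∈ Icc (τ - δ) τ := ⟨by linarith, hlt.le⟩
    have ha0 : 0 < (Z x).re := by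
      have := inc hxm (right_mem_Icc.2 (by linarith)) hlt
      simp only at this
      rw [Zτ] at this
      simpa using this
    have har := hq x hxδ
    have hgp := H.gap _ ha0 (by linarith)
    have c1 : Continuous fun y => FF u l (Z x).re (Z y).re := by unfold FF; fun_prop
    have c2 : Continuous fun y => HH u l (Z x).re (Z y).re := by unfold HH; fun_prop
    obtain ⟨η1, hη1, n1⟩ := near_right c1 (x := x) (by unfold FF; rw [sub_self, sub_self, add_zero]; linarith)
    obtain ⟨η2, hη2, n2⟩ := near_right c2 (x := x) (by unfold HH; rw [sub_self, sub_self, add_zero]; linarith)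
    refine ⟨min (min η1 η2) (τ - x), by
      apply lt_min (lt_min hη1 hη2); linarith, fun y h3 h4 h5 => ?_⟩
    have m1 : y < x + η1 := lt_of_lt_of_le h4 (add_le_add_right ((min_le_left _ _).trans (min_le_left _ _)) x)
    have m2 : y < x + η2 := lt_of_lt_of_le h4 (add_le_add_right ((min_le_left _ _).trans (min_le_right _ _)) x)
    have m3 : y < x + (τ - x) := lt_of_lt_of_le h4 (add_le_add_right (min_le_right _ _) x)
    have hy' : y ∈ Icc (τ - δ) τ := ⟨by linarith, by linarith⟩
    have F := fa x y hxδ (by rw [abs_lt]; constructor <;> linarith)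
    have eD := Dz_re Z x y
    have eD' := Dz_im Z x y
    have eE := Ez_re Z x y
    have eE' := Ez_im Z x y
    rw [h1 x hxm, h1 y hy'] at eD eE
    rw [h1 x hxm] at eD'
    rw [h1 y hy'] at eE'
    have hab := inc hxm hy' h3
    simp only at hab
    have f1 := n1 y h3 m1
    have f2 := n2 y h3 m2
    set a := (Z x).re with ha'
    set b := (Z y).re with hb'
    unfold FF at f1
    unfold HH at f2
    have g3 := H.hu.le hab.le
    have k := H.hu (a + (u a - u b)) a
    rw [show a + (u a - u b) - a = u a - u b by ring] at k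
    have k' := abs_le.1 k
    have j := H.hu (b + (u a - u b)) b
    rw [show b + (u a - u b) - b = u a - u b by ring] at j
    have j' := abs_le.1 j
    have k4 : |u a - u b| ≤ (a - b) / 4 := by
      rw [abs_le]; constructor <;> linarith [g3.1, g3.2]
    rw [show a - (u b - u a) = a + (u a - u b) by ring] at eD
    rw [show b - (u b - u a) = b + (u a - u b) by ring] at eE
    exact ⟨F.dT (by rw [eD, eD']; linarith) (by rw [eD, eD']; linarith [k'.1, k'.2]),
      F.eT (by rw [eE, eE']; linarith) (by rw [eE, eE']; linarith [j'.1, j'.2])⟩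
  · have hxm : x ∈ Icc τ (τ + δ) := ⟨hgt.le, by linarith⟩
    have ha0 : 0 < (Z x).re := by
      have := out (left_mem_Icc.2 (by linarith)) hxm hgt
      simp only at this
      rw [Zτ] at this
      simpa using this
    have har := hq x hxδ
    have hgp := H.gap _ ha0 (by linarith)
    have c1 : Continuous fun y => u ((Z x).re - (l (Z y).re - l (Z x).re)) -
      (l (Z x).re + ((Z y).re - (Z x).re)) := by fun_prop
    have c2 : Continuous fun y => u ((Z y).re - (l (Z y).re - l (Z x).re)) -
      (l (Z y).re + ((Z y).re - (Z x).re)) := by fun_prop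
    obtain ⟨η1, hη1, n1⟩ := near_right c1 (x := x) (by rw [sub_self, sub_self, add_zero, sub_zero]; linarith)
    obtain ⟨η2, hη2, n2⟩ := near_right c2 (x := x) (by rw [sub_self, sub_self, add_zero, sub_zero]; linarith)
    refine ⟨min η1 η2, lt_min hη1 hη2, fun y h3 h4 h5 => ?_⟩
    have m1 : y < x + η1 := lt_of_lt_of_le h4 (add_le_add_right (min_le_left _ _) x)
    have m2 : y < x + η2 := lt_of_lt_of_le h4 (add_le_add_right (min_le_right _ _) x)
    have hy' : y ∈ Icc τ (τ + δ) := ⟨by linarith, by linarith⟩
    have F := fa x y hxδ (by rw [abs_lt]; constructor <;> linarith)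
    have eD := Dz_re Z x y
    have eD' := Dz_im Z x y
    have eE := Ez_re Z x y
    have eE' := Ez_im Z x y
    rw [h2 x hxm, h2 y hy'] at eD eE
    rw [h2 x hxm] at eD'
    rw [h2 y hy'] at eE'
    have hab := out hxm hy' h3
    simp only at hab
    have f1 := n1 y h3 m1
    have f2 := n2 y h3 m2
    set a := (Z x).re with ha'
    set b := (Z y).re with hb'
    have g3 := H.hl.le hab.le
    have k := H.hl (a - (l b - l a)) a
    rw [show a - (l b - l a) - a = -(l b - l a) by ring, abs_neg] at k
    have k' := abs_le.1 k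
    have j := H.hl (b - (l b - l a)) b
    rw [show b - (l b - l a) - b = -(l b - l a) by ring, abs_neg] at j
    have j' := abs_le.1 j
    have k4 : |l b - l a| ≤ (b - a) / 4 := by
      rw [abs_le]; constructor <;> linarith [g3.1, g3.2]
    exact ⟨F.dT (by rw [eD, eD']; linarith [k'.1, k'.2]) (by rw [eD, eD']; linarith),
      F.eT (by rw [eE, eE']; linarith [j'.1, j'.2]) (by rw [eE, eE']; linarith)⟩

end Pool.Agent.Y262.Peg
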