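import Pool.Agent.Y262.Peg.LocT

/-! The angle function near a cusp: the other orientation. -/

set_option autoImplicit false
set_option maxHeartbeats 400000
open Complex Set Topology Metric Filter

namespace Pool.Agent.Y262.Peg

open Pool.Agent.H763R2 Pool.Agent.H763R2.An
open Pool.Agent.H763R2.Dm (NoSq)

variable {c : ℝ → ℂ} {θ : ℝ → ℝ → ℝ} {g : ℤ}
variable {τ δ : ℝ} {e : ℂ} {u l : ℝ → ℝ} {r : ℝ}

theorem locT2 (H : Cu c τ δ e u l r) (L : Loop c) (J : Inj c) (nosq : NoSq (range c))
    (A : Ang c (mgc c) θ g) (he : e ≠ 0) (hδ : 0 < δ) (hδ2 : δ < 1 / 2)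
    (h1 : ∀ t ∈ Icc (τ - δ) τ, ((c t - c τ) / e).im = l ((c t - c τ) / e).re)
    (h2 : ∀ t ∈ Icc τ (τ + δ), ((c t - c τ) / e).im = u ((c t - c τ) / e).re) : Loc θ τ := by
  have B := H.br he nosq
  have hr := H.hr
  have hc := L.cont
  obtain ⟨Z, hZ⟩ : ∃ Z : ℝ → ℂ, Z = fun t => (c t - c τ) / e := ⟨_, rfl⟩
  have cZ : Continuous Z := by rw [hZ]; fun_prop
  have hZt : ∀ t, (c t - c τ) / e = Z t := fun t => by rw [hZ]
  have Zτ : Z τ = 0 := by rw [hZ]; simp
  have inc := H.inc
  have out := H.out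
  have cu := H.hu.cont
  have cl := H.hl.cont
  simp only [hZt] at inc out h1 h2
  have pos1 : ∀ t ∈ Icc (τ - δ) τ, 0 ≤ (Z t).re := fun t ht => by
    have := inc.antitoneOn ht (right_mem_Icc.2 (by linarith)) ht.2
    rw [Zτ] at this
    simpa using this
  have pos2 : ∀ t ∈ Icc τ (τ + δ), 0 ≤ (Z t).re := fun t ht => by
    have := out.monotoneOn (left_mem_Icc.2 (by linarith)) ht ht.1
    rw [Zτ] at this
    simpa using this
  obtain ⟨σ, hσ, δ1, hδ1, hδ1', hq, fa⟩ := H.facts L J he hδ hδ2 (fun t ht => by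
    rw [hZt]
    rcases le_total t τ with h | h
    · exact ⟨pos1 t ⟨ht.1, h⟩, Or.inr (h1 t ⟨ht.1, h⟩)⟩
    · exact ⟨pos2 t ⟨h, ht.2⟩, Or.inl (h2 t ⟨h, ht.2⟩)⟩) (Or.inl (by simpa only [hZt] using h2))
  rw [← hZ] at fa
  simp only [hZt] at hq
  have hσ' : -σ = 1 ∨ -σ = -1 := by rcases hσ with h | h <;> [right; left] <;> rw [h] <;> norm_num
  have U : ∀ p ∈ Tri τ δ1, p.1 < p.2 ∧ p.2 < p.1 + 1 := fun p hp => Tri_UU (by linarith) hp
  have hψ : ContinuousOn (fun p : ℝ × ℝ => θ p.1 p.2 - shf (-σ)) (Tri τ δ1) :=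
    (A.cont.mono (Tri_UU (by linarith))).sub continuousOn_const
  -- chords on the incoming branch: both vertices below the lower branch
  have low : ∀ x y, |x - τ| < δ1 → |y - τ| < δ1 → x < y → y ≤ τ →
      σ * mgc c (DD c x y) < 0 ∧ σ * mgc c (CC c x y) < 0 := by
    intro x y hx hy hxy h
    have hx0 := abs_lt.1 hx
    have hx' : x ∈ Icc (τ - δ) τ := ⟨by linarith, by linarith⟩
    have hy' : y ∈ Icc (τ - δ) τ := ⟨by linarith, h⟩
    have F := fa x y hx hy
    have eD := Dz_re Z x y
    have eD' := Dz_im Z x y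
    have eE := Ez_re Z x y
    have eE' := Ez_im Z x y
    rw [h1 x hx', h1 y hy'] at eD eE
    rw [h1 x hx'] at eD'
    rw [h1 y hy'] at eE'
    have hab := inc hx' hy' hxy
    simp only at hab
    set a := (Z x).re with ha'
    set b := (Z y).re with hb'
    have g3 := H.hl.le hab.le
    have k := H.hl (a - (l b - l a)) a
    rw [show a - (l b - l a) - a = -(l b - l a) by ring, abs_neg] at k
    have k' := abs_le.1 k
    have j := H.hl (b - (l b - l a)) b
    rw [show b - (l b - l a) - b = -(l b - l a) by ring, abs_neg] at j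
    have j' := abs_le.1 j
    have k4 : |l b - l a| ≤ (a - b) / 4 := by
      rw [abs_le]; constructor <;> linarith [g3.1, g3.2]
    exact ⟨F.dF (Or.inr (by rw [eD, eD']; linarith [k'.1, k'.2])),
      F.eF (Or.inr (by rw [eE, eE']; linarith [j'.1, j'.2]))⟩
  -- chords on the outgoing branch: both vertices above the upper branch
  have high : ∀ x y, |x - τ| < δ1 → |y - τ| < δ1 → x < y → τ ≤ x →
      σ * mgc c (DD c x y) < 0 ∧ σ * mgc c (CC c x y) < 0 := by
    intro x y hx hy hxy h
    have hx0 := abs_lt.1 hy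
    have hx' : x ∈ Icc τ (τ + δ) := ⟨h, by linarith⟩
    have hy' : y ∈ Icc τ (τ + δ) := ⟨by linarith, by linarith⟩
    have F := fa x y hx hy
    have eD := Dz_re Z x y
    have eD' := Dz_im Z x y
    have eE := Ez_re Z x y
    have eE' := Ez_im Z x y
    rw [h2 x hx', h2 y hy'] at eD eE
    rw [h2 x hx'] at eD'
    rw [h2 y hy'] at eE'
    have hab := out hx' hy' hxy
    simp only at hab
    set a := (Z x).re with ha'
    set b := (Z y).re with hb'
    have g3 := H.hu.le hab.le
    have k := H.hu (a - (u b - u a)) a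
    rw [show a - (u b - u a) - a = -(u b - u a) by ring, abs_neg] at k
    have k' := abs_le.1 k
    have j := H.hu (b - (u b - u a)) b
    rw [show b - (u b - u a) - b = -(u b - u a) by ring, abs_neg] at j
    have j' := abs_le.1 j
    have k4 : |u b - u a| ≤ (b - a) / 4 := by
      rw [abs_le]; constructor <;> linarith [g3.1, g3.2]
    exact ⟨F.dF (Or.inl (by rw [eD, eD']; linarith [k'.1, k'.2])),
      F.eF (Or.inl (by rw [eE, eE']; linarith [j'.1, j'.2]))⟩
  have hk : ∃ k, Same (Tri τ δ1) (fun p : ℝ × ℝ => θ p.1 p.2 - shf (-σ)) k := by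
    refine mode2 (Tri_pre _ _) hψ ?_
    rintro ⟨x, y⟩ hp ⟨g1, g2⟩
    obtain ⟨p1, p2, p3⟩ := hp
    simp only at p1 p2 p3 g1 g2
    have hx : |x - τ| < δ1 := by rw [abs_lt]; constructor <;> linarith
    have hy : |y - τ| < δ1 := by rw [abs_lt]; constructor <;> linarith
    have hc := cos_pos_iff A hσ' p2 (U (x, y) ⟨p1, p2, p3⟩).2
    rcases le_total y τ with h | h
    · have := hc.1 (by have := (low x y hx hy p2 h).1; linarith)
      linarith
    rcases le_total τ x with h' | h'
    · have := hc.1 (by have := (high x y hx hy p2 h').1; linarith)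
      linarith
    have F := fa x y hx hy
    have hx' : x ∈ Icc (τ - δ) τ := ⟨by linarith, h'⟩
    have hy' : y ∈ Icc τ (τ + δ) := ⟨h, by linarith⟩
    have eD := Dz_re Z x y
    have eD' := Dz_im Z x y
    have eE := Ez_re Z x y
    have eE' := Ez_im Z x y
    rw [h1 x hx', h2 y hy'] at eD eE
    rw [h1 x hx'] at eD'
    rw [h2 y hy'] at eE'
    have hne : (Z x).re ≠ 0 ∨ (Z y).re ≠ 0 := by
      by_contra hcon
      push Not at hcon
      have e1 : x = τ := inc.injOn hx' (right_mem_Icc.2 (by linarith)) (by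
        show (Z x).re = (Z τ).re
        rw [hcon.1, Zτ]; simp)
      have e2 : y = τ := out.injOn hy' (left_mem_Icc.2 (by linarith)) (by
        show (Z y).re = (Z τ).re
        rw [hcon.2, Zτ]; simp)
      linarith
    have ha := pos1 x hx'
    have hb := pos2 y hy'
    have hqa := hq x hx
    have hqb := hq y hy
    set a := (Z x).re with ha'
    set b := (Z y).re with hb'
    refine B.mix3 ha (by linarith) hb (by linarith) hne ⟨?_, ?_⟩
    · by_contra hcon
      push Not at hcon
      have := F.dF (Or.inr (by rw [eD, eD']; linarith))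
      have := hc.1 (by linarith)
      linarith
    · by_contra hcon
      push Not at hcon
      have := F.eF (Or.inl (by rw [eE, eE']; linarith))
      have := hc.2.2.1 (by linarith)
      linarith
  obtain ⟨k, hk⟩ := hk
  refine finish A hσ' hδ1 (by linarith) hk fun x hx hxδ => ?_
  have hx' := abs_lt.1 hxδ
  rcases lt_or_gt_of_ne hx with hlt | hgt
  · refine ⟨τ - x, by linarith, fun y h3 h4 h5 => ?_⟩
    have := low x y hxδ (by rw [abs_lt]; constructor <;> linarith) h3 (by linarith)
    exact ⟨by linarith [this.1], by linarith [this.2]⟩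
  · refine ⟨1, one_pos, fun y h3 h4 h5 => ?_⟩
    have := high x y hxδ (by rw [abs_lt]; constructor <;> linarith) h3 hgt.le
    exact ⟨by linarith [this.1], by linarith [this.2]⟩

end Pool.Agent.Y262.Peg
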