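import Pool.Agent.Y262.Peg.Ext
import Pool.Agent.Y262.Peg.Glue

/-! The angle function near a corner. -/

set_option autoImplicit false
set_option maxHeartbeats 400000
open Complex Set Topology Metric Filter

namespace Pool.Agent.Y262.Peg

open Pool.Agent.H763R2 Pool.Agent.H763R2.An

variable {c : ℝ → ℂ} {θ : ℝ → ℝ → ℝ} {g : ℤ}

/-- the angle of all very short chords near `τ` is in one quadrant -/
def Loc (θ : ℝ → ℝ → ℝ) (τ : ℝ) : Prop := ∃ n : ℤ, ∃ δ > 0, ∀ x, x ≠ τ → |x - τ| < δ →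
  ∃ η > 0, ∀ y, x < y → y < x + η → n * Real.pi < θ x y ∧ θ x y < n * Real.pi + Real.pi / 2

def Tri (τ δ : ℝ) : Set (ℝ × ℝ) := {p | τ - δ < p.1 ∧ p.1 < p.2 ∧ p.2 < τ + δ}

theorem Tri_pre (τ δ : ℝ) : IsPreconnected (Tri τ δ) := by
  apply Convex.isPreconnected
  rintro ⟨x, y⟩ ⟨h1, h2, h3⟩ ⟨x', y'⟩ ⟨h1', h2', h3'⟩ a d ha hd had
  simp only at h1 h2 h3 h1' h2' h3'
  have key : ∀ u v : ℝ, 0 < u → 0 < v → 0 < a * u + d * v := by
    intro u v hu hv
    rcases ha.lt_or_eq with h | h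
    · have := mul_pos h hu
      have := mul_nonneg hd hv.le
      linarith
    · have : d = 1 := by linarith
      rw [← h, this]; linarith
  refine ⟨?_, ?_, ?_⟩
  · simp only [Prod.smul_mk, Prod.mk_add_mk, smul_eq_mul]
    have := key (x - (τ - δ)) (x' - (τ - δ)) (by linarith) (by linarith)
    have e : a * (x - (τ - δ)) + d * (x' - (τ - δ)) = a * x + d * x' - (a + d) * (τ - δ) := by ring
    rw [e, had] at this; linarith
  · simp only [Prod.smul_mk, Prod.mk_add_mk, smul_eq_mul]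
    have := key (y - x) (y' - x') (by linarith) (by linarith)
    linarith
  · simp only [Prod.smul_mk, Prod.mk_add_mk, smul_eq_mul]
    have := key (τ + δ - y) (τ + δ - y') (by linarith) (by linarith)
    have e : a * (τ + δ - y) + d * (τ + δ - y') = (a + d) * (τ + δ) - (a * y + d * y') := by ring
    rw [e, had] at this; linarith

theorem Tri_UU {τ δ : ℝ} (hδ : δ ≤ 1 / 2) : Tri τ δ ⊆ UU := by
  rintro ⟨x, y⟩ ⟨h1, h2, h3⟩
  exact ⟨h2, by simp only at *; linarith⟩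

open Classical in
/-- the shift of the angle for the sign `σ` -/
noncomputable def shf (σ : ℝ) : ℝ := if σ = 1 then 0 else Real.pi

theorem sgn (A : Ang c (mgc c) θ g) {σ : ℝ} (hσ : σ = 1 ∨ σ = -1) {x y : ℝ} (h1 : x < y)
    (h2 : y < x + 1) : ∃ ρ > 0, σ * mgc c (DD c x y) = ρ * Real.cos (θ x y - shf σ) ∧
      σ * mgc c (CC c x y) = ρ * Real.sin (θ x y - shf σ) := by
  obtain ⟨ρ, hρ, e1, e2⟩ := A.ex x y h1 h2
  refine ⟨ρ, hρ, ?_, ?_⟩
  · rcases hσ with rfl | rfl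
    · unfold shf; rw [if_pos rfl, sub_zero, e1]; ring
    · unfold shf; rw [if_neg (by norm_num), Real.cos_sub_pi, e1]; ring
  · rcases hσ with rfl | rfl
    · unfold shf; rw [if_pos rfl, sub_zero, e2]; ring
    · unfold shf; rw [if_neg (by norm_num), Real.sin_sub_pi, e2]; ring

theorem cos_pos_iff (A : Ang c (mgc c) θ g) {σ : ℝ} (hσ : σ = 1 ∨ σ = -1) {x y : ℝ} (h1 : x < y)
    (h2 : y < x + 1) : (0 < σ * mgc c (DD c x y) → 0 < Real.cos (θ x y - shf σ)) ∧
      (σ * mgc c (DD c x y) < 0 → Real.cos (θ x y - shf σ) < 0) ∧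
      (0 < σ * mgc c (CC c x y) → 0 < Real.sin (θ x y - shf σ)) ∧
      (σ * mgc c (CC c x y) < 0 → Real.sin (θ x y - shf σ) < 0) ∧
      (mgc c (DD c x y) = 0 → Real.cos (θ x y - shf σ) = 0) := by
  obtain ⟨ρ, hρ, e1, e2⟩ := sgn A hσ h1 h2
  rw [e1, e2]
  refine ⟨fun h => (pos_iff_pos_of_mul_pos h).1 hρ, fun h => ?_,
    fun h => (pos_iff_pos_of_mul_pos h).1 hρ, fun h => ?_, fun h => ?_⟩
  · by_contra hcon
    push Not at hcon
    linarith [mul_nonneg hρ.le hcon]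
  · by_contra hcon
    push Not at hcon
    linarith [mul_nonneg hρ.le hcon]
  · rw [h, mul_zero] at e1
    rcases mul_eq_zero.1 e1.symm with h3 | h3
    · exact absurd h3 hρ.ne'
    · exact h3

theorem finish (A : Ang c (mgc c) θ g) {σ : ℝ} (hσ : σ = 1 ∨ σ = -1) {τ δ : ℝ} (hδ : 0 < δ)
    (hδ2 : δ ≤ 1 / 2) {k : ℤ} (hS : Same (Tri τ δ) (fun p => θ p.1 p.2 - shf σ) k)
    (short : ∀ x, x ≠ τ → |x - τ| < δ → ∃ η > 0, ∀ y, x < y → y < x + η → y < τ + δ →
      0 < σ * mgc c (DD c x y) ∧ 0 < σ * mgc c (CC c x y)) : Loc θ τ := by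
  refine ⟨if σ = 1 then 2 * k else 2 * k + 1, δ, hδ, fun x hx hxδ => ?_⟩
  obtain ⟨η, hη, h⟩ := short x hx hxδ
  have hx' := abs_lt.1 hxδ
  refine ⟨min η (τ + δ - x), lt_min hη (by linarith), fun y h1 h2 => ?_⟩
  have h3 := lt_of_lt_of_le h2 (add_le_add_right (min_le_left _ _) x)
  have h4 := lt_of_lt_of_le h2 (add_le_add_right (min_le_right _ _) x)
  have h5 : y < τ + δ := by linarith
  obtain ⟨s1, s2⟩ := h y h1 h3 h5
  have hK : ((x, y) : ℝ × ℝ) ∈ Tri τ δ := ⟨by simp only; linarith, h1, h5⟩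
  have hU := Tri_UU hδ2 hK
  have hc := cos_pos_iff A hσ h1 hU.2
  have := hS (x, y) hK (hc.1 s1) (hc.2.2.1 s2)
  simp only at this
  unfold shf at this
  split_ifs at this ⊢ with h
  · push_cast
    constructor <;> linarith [this.1, this.2]
  · push_cast
    constructor <;> linarith [this.1, this.2]

/-- the third vertex in local coordinates -/
noncomputable def Dz (Z : ℝ → ℂ) (x y : ℝ) : ℂ := Z x + I * (Z y - Z x)
noncomputable def Ez (Z : ℝ → ℂ) (x y : ℝ) : ℂ := Z y + I * (Z y - Z x)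

theorem DD_loc {τ : ℝ} {e : ℂ} (he : e ≠ 0) (x y : ℝ) :
    DD c x y = c τ + e * Dz (fun t => (c t - c τ) / e) x y := by
  unfold DD Sq.Dv Dz
  field_simp; ring

theorem CC_loc {τ : ℝ} {e : ℂ} (he : e ≠ 0) (x y : ℝ) :
    CC c x y = c τ + e * Ez (fun t => (c t - c τ) / e) x y := by
  unfold CC Sq.Cv Ez
  field_simp; ring

theorem Dz_re (Z : ℝ → ℂ) (x y : ℝ) : (Dz Z x y).re = (Z x).re - ((Z y).im - (Z x).im) := by
  unfold Dz; simp; ring
theorem Dz_im (Z : ℝ → ℂ) (x y : ℝ) : (Dz Z x y).im = (Z x).im + ((Z y).re - (Z x).re) := by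
  unfold Dz; simp
theorem Ez_re (Z : ℝ → ℂ) (x y : ℝ) : (Ez Z x y).re = (Z y).re - ((Z y).im - (Z x).im) := by
  unfold Ez; simp; ring
theorem Ez_im (Z : ℝ → ℂ) (x y : ℝ) : (Ez Z x y).im = (Z y).im + ((Z y).re - (Z x).re) := by
  unfold Ez; simp

theorem Dz_norm {Z : ℝ → ℂ} {x y r : ℝ} (hx : ‖Z x‖ < r) (hy : ‖Z y‖ < r) : ‖Dz Z x y‖ < 3 * r := by
  unfold Dz
  have h1 := norm_add_le (Z x) (I * (Z y - Z x))
  have h2 := norm_sub_le (Z y) (Z x)
  rw [norm_mul, norm_I, one_mul] at h1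
  linarith

theorem Ez_norm {Z : ℝ → ℂ} {x y r : ℝ} (hx : ‖Z x‖ < r) (hy : ‖Z y‖ < r) : ‖Ez Z x y‖ < 3 * r := by
  unfold Ez
  have h1 := norm_add_le (Z y) (I * (Z y - Z x))
  have h2 := norm_sub_le (Z y) (Z x)
  rw [norm_mul, norm_I, one_mul] at h1
  linarith

theorem small_nbhd (L : Loop c) (τ : ℝ) (e : ℂ) {ρ δ : ℝ} (hρ : 0 < ρ) (hδ : 0 < δ) :
    ∃ δ1 > 0, δ1 < δ ∧ ∀ t, |t - τ| < δ1 → ‖(c t - c τ) / e‖ < ρ := by
  have hc := L.cont
  have h1 : Continuous fun t => ‖(c t - c τ) / e‖ := by fun_prop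
  obtain ⟨δ', hδ', h⟩ := Metric.continuous_iff.1 h1 τ ρ hρ
  refine ⟨min δ' (δ / 2), by positivity, lt_of_le_of_lt (min_le_right _ _) (by linarith),
    fun t ht => ?_⟩
  have := h t (by rw [Real.dist_eq]; exact lt_of_lt_of_le ht (min_le_left _ _))
  rw [Real.dist_eq, sub_self, zero_div, norm_zero, sub_zero, abs_of_nonneg (norm_nonneg _)] at this
  exact this

theorem locV (L : Loop c) (J : Inj c) (A : Ang c (mgc c) θ g) {τ δ : ℝ} (hδ : 0 < δ)
    (hδ2 : δ < 1 / 2) {e : ℂ} (he : e ≠ 0) {f : ℝ → ℝ} {m ε : ℝ} (V : Vf f m ε)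
    (hm : StrictMonoOn (fun t => ((c t - c τ) / e).re) (Icc (τ - δ) (τ + δ)))
    (hg : ∀ t ∈ Icc (τ - δ) (τ + δ), ((c t - c τ) / e).im = f ((c t - c τ) / e).re) :
    Loc θ τ := by
  have hf := V.cont
  obtain ⟨ρ, hρ, σ, hσ, side⟩ := sideV L J hδ hδ2 he (hm.mono (Icc_subset_Icc (by linarith) le_rfl))
    hf hg
  obtain ⟨δ1, hδ1, hδ1', hsm⟩ := small_nbhd L τ e (show 0 < ρ / 3 by positivity) hδ
  have hc := L.cont
  obtain ⟨Z, hZ⟩ : ∃ Z : ℝ → ℂ, Z = fun t => (c t - c τ) / e := ⟨_, rfl⟩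
  have cZ : Continuous Z := by rw [hZ]; fun_prop
  have hZt : ∀ t, (c t - c τ) / e = Z t := fun t => by rw [hZ]
  simp only [hZt] at hm hg hsm
  have Zτ : Z τ = 0 := by rw [hZ]; simp
  -- heights
  have gr : ∀ t, |t - τ| < δ1 → (Z t).im = f (Z t).re := fun t ht => by
    have := abs_lt.1 ht
    exact hg t ⟨by linarith, by linarith⟩
  have mo : ∀ s t, |s - τ| < δ1 → |t - τ| < δ1 → s < t → (Z s).re < (Z t).re := fun s t hs ht h => by
    have h1 := abs_lt.1 hs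
    have h2 := abs_lt.1 ht
    exact hm (a := s) (b := t) ⟨by linarith, by linarith⟩ ⟨by linarith, by linarith⟩ h
  have facts : ∀ x y, τ - δ1 < x → x < y → y < τ + δ1 →
      (Z x).re < (Z y).re ∧
      (0 < hD f (Z x).re (Z y).re → 0 < σ * mgc c (DD c x y)) ∧
      (hD f (Z x).re (Z y).re < 0 → σ * mgc c (DD c x y) < 0) ∧
      (0 < hE f (Z x).re (Z y).re → 0 < σ * mgc c (CC c x y)) ∧
      (hE f (Z x).re (Z y).re < 0 → σ * mgc c (CC c x y) < 0) := by
    intro x y h1 h2 h3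
    have hx : |x - τ| < δ1 := by rw [abs_lt]; constructor <;> linarith
    have hy : |y - τ| < δ1 := by rw [abs_lt]; constructor <;> linarith
    have s1 := side (Dz Z x y) (by have := Dz_norm (hsm x hx) (hsm y hy); linarith)
    have s2 := side (Ez Z x y) (by have := Ez_norm (hsm x hx) (hsm y hy); linarith)
    rw [Dz_re, Dz_im, gr x hx, gr y hy] at s1
    rw [Ez_re, Ez_im, gr x hx, gr y hy] at s2
    rw [DD_loc (τ := τ) he, CC_loc (τ := τ) he, ← hZ]
    unfold hD hE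
    refine ⟨mo x y hx hy h2, fun h => s1.1 (by linarith), fun h => s1.2 (by linarith),
      fun h => s2.1 (by linarith), fun h => s2.2 (by linarith)⟩
  have hψ : ContinuousOn (fun p : ℝ × ℝ => θ p.1 p.2 - shf σ) (Tri τ δ1) :=
    (A.cont.mono (Tri_UU (by linarith))).sub continuousOn_const
  have U : ∀ p ∈ Tri τ δ1, p.1 < p.2 ∧ p.2 < p.1 + 1 := fun p hp => Tri_UU (by linarith) hp
  have hk : ∃ k, Same (Tri τ δ1) (fun p : ℝ × ℝ => θ p.1 p.2 - shf σ) k := by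
    rcases le_total 0 m with hm0 | hm0
    · refine mode1 (Tri_pre _ _) hψ (K1 := {p | f (Z p.2).re ≤ f (Z p.1).re})
        (K2 := {p | f (Z p.1).re ≤ f (Z p.2).re}) (isClosed_le (by fun_prop) (by fun_prop))
        (isClosed_le (by fun_prop) (by fun_prop)) (fun p _ =>
          (le_total (f (Z p.2).re) (f (Z p.1).re)).elim (fun h => Or.inl h) (fun h => Or.inr h)) ?_ ?_ ?_
      · rintro ⟨x, y⟩ hp h1 ⟨h2, h3⟩
        obtain ⟨f0, f1, f2, f3, f4⟩ := facts x y hp.1 hp.2.1 hp.2.2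
        have hc := cos_pos_iff A hσ (U _ hp).1 (U _ hp).2
        simp only at h1 h2 h3 hc
        refine V.a hm0 f0 h1 ⟨?_, ?_⟩
        · by_contra hcon
          push Not at hcon
          linarith [hc.1 (f1 hcon)]
        · by_contra hcon
          push Not at hcon
          linarith [hc.2.2.2.1 (f4 hcon)]
      · rintro ⟨x, y⟩ hp h1 ⟨h2, h3⟩
        obtain ⟨f0, f1, f2, f3, f4⟩ := facts x y hp.1 hp.2.1 hp.2.2
        have hc := cos_pos_iff A hσ (U _ hp).1 (U _ hp).2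
        simp only at h1 h2 h3 hc
        refine V.b hm0 f0 h1 ⟨?_, ?_⟩
        · by_contra hcon
          push Not at hcon
          linarith [hc.2.2.1 (f3 hcon)]
        · by_contra hcon
          push Not at hcon
          linarith [hc.2.1 (f2 hcon)]
      · rintro ⟨x, y⟩ hp h1 h2
        obtain ⟨f0, f1, f2, f3, f4⟩ := facts x y hp.1 hp.2.1 hp.2.2
        have hc := cos_pos_iff A hσ (U _ hp).1 (U _ hp).2
        simp only [mem_ofPred_eq] at h1 h2
        have he : f (Z y).re = f (Z x).re := le_antisymm h1 h2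
        refine (hc.1 (f1 ?_)).le
        unfold hD
        rw [he, sub_self, sub_zero]; linarith
    · refine mode2 (Tri_pre _ _) hψ ?_
      rintro ⟨x, y⟩ hp ⟨h2, h3⟩
      obtain ⟨f0, f1, f2, f3, f4⟩ := facts x y hp.1 hp.2.1 hp.2.2
      have hc := cos_pos_iff A hσ (U _ hp).1 (U _ hp).2
      simp only at h2 h3 hc
      rcases le_total (f (Z x).re) (f (Z y).re) with h | h
      · linarith [hc.1 (f1 (V.c hm0 f0 h))]
      · linarith [hc.2.2.1 (f3 (V.d hm0 f0 h))]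
  obtain ⟨k, hk⟩ := hk
  refine finish A hσ hδ1 (by linarith) hk fun x hx hxδ => ?_
  have hx' := abs_lt.1 hxδ
  have hs : (Z x).re ≠ 0 := by
    have h0 : |τ - τ| < δ1 := by simpa using hδ1
    rcases lt_or_gt_of_ne hx with h | h
    · have := mo x τ hxδ h0 h
      rw [Zτ] at this
      exact this.ne
    · have := mo τ x h0 hxδ h
      rw [Zτ] at this
      exact this.ne'
  obtain ⟨η, hη, hsh⟩ := V.short hs
  have cR : Continuous fun t => (Z t).re := by fun_prop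
  obtain ⟨η', hη', h'⟩ := Metric.continuous_iff.1 cR x η hη
  refine ⟨η', hη', fun y h1 h2 h3 => ?_⟩
  obtain ⟨f0, f1, f2, f3, f4⟩ := facts x y (by linarith) h1 h3
  have h4 := h' y (by rw [Real.dist_eq, abs_of_pos (by linarith)]; linarith)
  rw [Real.dist_eq] at h4
  have h5 := hsh (Z y).re f0 (by linarith [(abs_lt.1 h4).2])
  exact ⟨f1 h5.1, f3 h5.2⟩

end Pool.Agent.Y262.Peg
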