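import Pool.Agent.Y262.Peg.LocT2

/-! The angle function near an arbitrary point of a curve made of flat arcs. -/

set_option autoImplicit false
set_option maxHeartbeats 400000
open Complex Set Topology Metric Filter

namespace Pool.Agent.Y262.Peg

open Pool.Agent.H763R2 Pool.Agent.H763R2.An
open Pool.Agent.H763R2.Dm (NoSq)

variable {c : ℝ → ℂ} {θ : ℝ → ℝ → ℝ} {g : ℤ} {τ δ : ℝ} {a b : ℂ}

theorem incr (τ : ℝ) (e : ℂ) (s t : ℝ) :
    ((c t - c s) / e).re = ((c t - c τ) / e).re - ((c s - c τ) / e).re ∧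
    ((c t - c s) / e).im = ((c t - c τ) / e).im - ((c s - c τ) / e).im := by
  rw [← sub_re, ← sub_im, ← sub_div]
  constructor <;> congr 2 <;> ring

theorem corner (L : Loop c) (J : Inj c) (A : Ang c (mgc c) θ g) (hδ : 0 < δ) (hδ2 : δ < 1 / 2)
    (ha : ‖a‖ = 1) (hb : ‖b‖ = 1) (hab : 6 / 25 < ‖a + b‖)
    (h1 : ∀ s t, τ - δ ≤ s → s < t → t ≤ τ → Cone a (c t - c s))
    (h2 : ∀ s t, τ ≤ s → s < t → t ≤ τ + δ → Cone b (c t - c s)) : Loc θ τ := by
  have ha0 : a ≠ 0 := by rw [← norm_pos_iff, ha]; norm_num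
  have hb0 : b ≠ 0 := by rw [← norm_pos_iff, hb]; norm_num
  obtain ⟨e, he'⟩ : ∃ e, e = a + b := ⟨_, rfl⟩
  have he : e ≠ 0 := by rw [← norm_pos_iff, he']; linarith
  have hre := half_re ha hb (by rw [← he']; exact he)
  rw [← he'] at hre hab
  obtain ⟨m, hm⟩ : ∃ m : ℝ, m = 2 * (b / e).im := ⟨_, rfl⟩
  have hbe : b / e = (1 / 2 : ℝ) + (m / 2 : ℝ) * I := by
    apply Complex.ext
    · rw [hre]; simp
    · rw [hm]; simp
  have hae : a / e = (1 / 2 : ℝ) + ((-m) / 2 : ℝ) * I := by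
    have : a / e = 1 - b / e := by
      rw [eq_sub_iff_add_eq, ← add_div, ← he', div_self he]
    rw [this, hbe]
    push_cast; ring
  have hm2 : m ^ 2 ≤ 685 / 10 := by
    have e1 : ‖b / e‖ ^ 2 = 1 / ‖e‖ ^ 2 := by rw [norm_div, hb, div_pow, one_pow]
    rw [← Complex.normSq_eq_norm_sq, Complex.normSq_apply, hre] at e1
    have e2 : (6 / 25 : ℝ) ^ 2 < ‖e‖ ^ 2 := by
      apply pow_lt_pow_left₀ hab (by norm_num) (by norm_num)
    have e3 : 1 / ‖e‖ ^ 2 < 1 / (6 / 25 : ℝ) ^ 2 :=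
      one_div_lt_one_div_of_lt (by norm_num) e2
    rw [← e1] at e3
    rw [hm]
    norm_num at e3 ⊢
    nlinarith
  have hm2' : (-m) ^ 2 ≤ 685 / 10 := by rw [neg_sq]; exact hm2
  have ne : ∀ s t, s < t → t < s + 1 → c t - c s ≠ 0 := fun s t h h' =>
    sub_ne_zero.2 (J s t h h').symm
  obtain ⟨X, hX⟩ : ∃ X : ℝ → ℝ, X = fun t => ((c t - c τ) / e).re := ⟨_, rfl⟩
  obtain ⟨Y, hY⟩ : ∃ Y : ℝ → ℝ, Y = fun t => ((c t - c τ) / e).im := ⟨_, rfl⟩
  have hXt : ∀ t, ((c t - c τ) / e).re = X t := fun t => by rw [hX]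
  have hYt : ∀ t, ((c t - c τ) / e).im = Y t := fun t => by rw [hY]
  have Xτ : X τ = 0 := by rw [hX]; simp
  have Yτ : Y τ = 0 := by rw [hY]; simp
  have R : ∀ s t, τ ≤ s → s < t → t ≤ τ + δ → X s < X t ∧
      |Y t - Y s - m * (X t - X s)| ≤ 71 / 1000 * (X t - X s) := by
    intro s t k1 k2 k3
    have := cone_V hb0 he hbe hm2 (h2 s t k1 k2 k3) (ne s t k2 (by linarith))
    obtain ⟨i1, i2⟩ := incr (c := c) τ e s t
    rw [i1, i2, hXt, hXt, hYt, hYt] at this
    exact ⟨by linarith [this.1], this.2⟩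
  have Lf : ∀ s t, τ - δ ≤ s → s < t → t ≤ τ → X s < X t ∧
      |Y t - Y s - (-m) * (X t - X s)| ≤ 71 / 1000 * (X t - X s) := by
    intro s t k1 k2 k3
    have := cone_V ha0 he hae hm2' (h1 s t k1 k2 k3) (ne s t k2 (by linarith))
    obtain ⟨i1, i2⟩ := incr (c := c) τ e s t
    rw [i1, i2, hXt, hXt, hYt, hYt] at this
    exact ⟨by linarith [this.1], this.2⟩
  have mono : StrictMonoOn X (Icc (τ - δ) (τ + δ)) := by
    intro s hs t ht hst
    rcases le_total t τ with h | h
    · exact (Lf s t hs.1 hst h).1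
    rcases le_total τ s with h' | h'
    · exact (R s t h' hst ht.2).1
    · have q1 : X s ≤ X τ := by
        rcases h'.lt_or_eq with h3 | h3
        · exact (Lf s τ hs.1 h3 le_rfl).1.le
        · rw [h3]
      have q2 : X τ ≤ X t := by
        rcases h.lt_or_eq with h3 | h3
        · exact (R τ t le_rfl h3 ht.2).1.le
        · rw [h3]
      rcases h'.lt_or_eq with h3 | h3
      · exact lt_of_lt_of_le (Lf s τ hs.1 h3 le_rfl).1 q2
      · rw [h3] at hst ⊢
        exact (R τ t le_rfl hst ht.2).1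
  have posX : ∀ t, τ ≤ t → t ≤ τ + δ → 0 ≤ X t := fun t k1 k2 => by
    rw [← Xτ]
    exact mono.monotoneOn ⟨by linarith, by linarith⟩ ⟨by linarith, k2⟩ k1
  have negX : ∀ t, τ - δ ≤ t → t ≤ τ → X t ≤ 0 := fun t k1 k2 => by
    rw [← Xτ]
    exact mono.monotoneOn ⟨k1, by linarith⟩ ⟨by linarith, by linarith⟩ k2
  -- the differences with the corner
  have key : ∀ s ∈ Icc (τ - δ) (τ + δ), ∀ t ∈ Icc (τ - δ) (τ + δ), s ≤ t →
      |(Y t - m * |X t|) - (Y s - m * |X s|)| ≤ 71 / 1000 * (X t - X s) := by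
    have kR : ∀ s t, τ ≤ s → s ≤ t → t ≤ τ + δ →
        |(Y t - m * |X t|) - (Y s - m * |X s|)| ≤ 71 / 1000 * (X t - X s) := by
      intro s t k1 k2 k3
      rcases k2.lt_or_eq with h | h
      · rw [abs_of_nonneg (posX t (by linarith) k3), abs_of_nonneg (posX s k1 (by linarith))]
        convert (R s t k1 h k3).2 using 2
        ring
      · rw [h]; simp
    have kL : ∀ s t, τ - δ ≤ s → s ≤ t → t ≤ τ →
        |(Y t - m * |X t|) - (Y s - m * |X s|)| ≤ 71 / 1000 * (X t - X s) := by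
      intro s t k1 k2 k3
      rcases k2.lt_or_eq with h | h
      · rw [abs_of_nonpos (negX t (by linarith) k3), abs_of_nonpos (negX s k1 (by linarith))]
        convert (Lf s t k1 h k3).2 using 2
        ring
      · rw [h]; simp
    intro s hs t ht hst
    rcases le_total t τ with h | h
    · exact kL s t hs.1 hst h
    rcases le_total τ s with h' | h'
    · exact kR s t h' hst ht.2
    · have q1 := kL s τ hs.1 h' le_rfl
      have q2 := kR τ t le_rfl h ht.2
      have q3 := abs_le.1 q1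
      have q4 := abs_le.1 q2
      rw [abs_le]; constructor <;> linarith [q3.1, q3.2, q4.1, q4.2]
  obtain ⟨φ, hφ, hφe⟩ := extract (X := X) (Y := fun t => Y t - m * |X t|)
    (T := Icc (τ - δ) (τ + δ)) (K := 71 / 1000) (fun s hs t ht => by
      push_cast
      rcases le_total s t with h | h
      · rw [abs_of_nonneg (sub_nonneg.2 (mono.monotoneOn hs ht h))]
        exact key s hs t ht h
      · rw [abs_sub_comm, abs_sub_comm (X t), abs_of_nonneg (sub_nonneg.2 (mono.monotoneOn ht hs h))]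
        exact key t ht s hs h)
  have hm1 : |m| ≤ 83 / 10 := by
    rw [abs_le]; constructor <;> nlinarith
  refine locV L J A hδ hδ2 he (f := fun x => m * |x| + φ x) (m := m) (ε := 71 / 1000)
    ⟨fun x y => ?_, by norm_num, by linarith⟩ (by simp only [hXt]; exact mono) (fun t ht => ?_)
  · have := hφ x y
    push_cast at this
    convert this using 2
    ring
  · rw [hXt, hYt]
    have := hφe t ht
    linarith

/-- extensions to the left -/
noncomputable def up (f : ℝ → ℝ) (x : ℝ) : ℝ := f (max x 0) + min x 0 / 4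
noncomputable def dn (f : ℝ → ℝ) (x : ℝ) : ℝ := f (max x 0) - min x 0 / 4

theorem up_lip {f : ℝ → ℝ} (h : Lip4 f) : Lip4 (up f) := by
  intro x y
  unfold up
  have k := abs_le.1 (h (max x 0) (max y 0))
  rcases le_total 0 x with hx | hx <;> rcases le_total 0 y with hy | hy
  · rw [max_eq_left hx, max_eq_left hy] at *
    rw [min_eq_right hx, min_eq_right hy]
    rw [abs_le]; constructor <;> linarith [k.1, k.2]
  · rw [max_eq_left hx, max_eq_right hy] at *
    rw [min_eq_right hx, min_eq_left hy]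
    rw [sub_zero, abs_of_nonneg hx] at k
    rw [abs_of_nonneg (show 0 ≤ x - y by linarith), abs_le]
    constructor <;> linarith [k.1, k.2]
  · rw [max_eq_right hx, max_eq_left hy] at *
    rw [min_eq_left hx, min_eq_right hy]
    rw [zero_sub, abs_neg, abs_of_nonneg hy] at k
    rw [abs_of_nonpos (show x - y ≤ 0 by linarith), abs_le]
    constructor <;> linarith [k.1, k.2]
  · rw [max_eq_right hx, max_eq_right hy, min_eq_left hx, min_eq_left hy]
    have := abs_le.1 (le_refl |x - y|)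
    rw [abs_le]; constructor <;> linarith [this.1, this.2]

theorem dn_lip {f : ℝ → ℝ} (h : Lip4 f) : Lip4 (dn f) := by
  intro x y
  have := up_lip h.neg x y
  unfold up at this
  unfold dn
  rw [← abs_neg]
  convert this using 2
  ring

theorem up_pos (f : ℝ → ℝ) {x : ℝ} (h : 0 ≤ x) : up f x = f x := by
  unfold up; rw [max_eq_left h, min_eq_right h]; simp
theorem dn_pos (f : ℝ → ℝ) {x : ℝ} (h : 0 ≤ x) : dn f x = f x := by
  unfold dn; rw [max_eq_left h, min_eq_right h]; simp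

theorem up_dn_neg {f f' : ℝ → ℝ} (h : f 0 = 0) (h' : f' 0 = 0) {x : ℝ} (hx : x < 0) :
    up f x < dn f' x := by
  unfold up dn
  rw [max_eq_right hx.le, min_eq_left hx.le, h, h']
  linarith

theorem cusp (L : Loop c) (J : Inj c) (nosq : NoSq (range c)) (A : Ang c (mgc c) θ g)
    (hδ : 0 < δ) (hδ2 : δ < 1 / 2) (ha : ‖a‖ = 1) (hb : ‖b‖ = 1) (hab : ‖a + b‖ ≤ 6 / 25)
    (h1 : ∀ s t, τ - δ ≤ s → s < t → t ≤ τ → Cone a (c t - c s))
    (h2 : ∀ s t, τ ≤ s → s < t → t ≤ τ + δ → Cone b (c t - c s)) : Loc θ τ := by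
  have hb0 : b ≠ 0 := by rw [← norm_pos_iff, hb]; norm_num
  have ne : ∀ s t, s < t → t < s + 1 → c t - c s ≠ 0 := fun s t h h' =>
    sub_ne_zero.2 (J s t h h').symm
  have hc := L.cont
  obtain ⟨X, hX⟩ : ∃ X : ℝ → ℝ, X = fun t => ((c t - c τ) / b).re := ⟨_, rfl⟩
  obtain ⟨Y, hY⟩ : ∃ Y : ℝ → ℝ, Y = fun t => ((c t - c τ) / b).im := ⟨_, rfl⟩
  have hXt : ∀ t, ((c t - c τ) / b).re = X t := fun t => by rw [hX]
  have hYt : ∀ t, ((c t - c τ) / b).im = Y t := fun t => by rw [hY]
  have Xτ : X τ = 0 := by rw [hX]; simp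
  have Yτ : Y τ = 0 := by rw [hY]; simp
  have cX : Continuous X := by rw [hX]; fun_prop
  have R : ∀ s t, τ ≤ s → s < t → t ≤ τ + δ → X s < X t ∧ |Y t - Y s| ≤ (X t - X s) / 4 := by
    intro s t k1 k2 k3
    have := cone_T1 hb0 (h2 s t k1 k2 k3) (ne s t k2 (by linarith))
    obtain ⟨i1, i2⟩ := incr (c := c) τ b s t
    rw [i1, i2, hXt, hXt, hYt, hYt] at this
    exact ⟨by linarith [this.1], this.2⟩
  have Lf : ∀ s t, τ - δ ≤ s → s < t → t ≤ τ → X t < X s ∧ |Y t - Y s| ≤ (X s - X t) / 4 := by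
    intro s t k1 k2 k3
    have := cone_T2 ha hb hab (h1 s t k1 k2 k3) (ne s t k2 (by linarith))
    obtain ⟨i1, i2⟩ := incr (c := c) τ b s t
    rw [i1, i2, hXt, hXt, hYt, hYt] at this
    exact ⟨by linarith [this.1], by linarith [this.2]⟩
  have inc : StrictAntiOn X (Icc (τ - δ) τ) := fun s hs t ht hst => (Lf s t hs.1 hst ht.2).1
  have out : StrictMonoOn X (Icc τ (τ + δ)) := fun s hs t ht hst => (R s t hs.1 hst ht.2).1
  obtain ⟨f1, l1, e1⟩ := extract (X := X) (Y := Y) (T := Icc (τ - δ) τ) (K := 1 / 4)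
    (fun s hs t ht => by
      push_cast
      rcases lt_trichotomy s t with h | h | h
      · rw [abs_of_neg (show X t - X s < 0 by linarith [(Lf s t hs.1 h ht.2).1])]
        linarith [(Lf s t hs.1 h ht.2).2]
      · rw [h]; simp
      · rw [abs_sub_comm, abs_of_pos (show 0 < X t - X s by linarith [(Lf t s ht.1 h hs.2).1])]
        linarith [(Lf t s ht.1 h hs.2).2])
  obtain ⟨f2, l2, e2⟩ := extract (X := X) (Y := Y) (T := Icc τ (τ + δ)) (K := 1 / 4)
    (fun s hs t ht => by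
      push_cast
      rcases lt_trichotomy s t with h | h | h
      · rw [abs_of_pos (show 0 < X t - X s by linarith [(R s t hs.1 h ht.2).1])]
        linarith [(R s t hs.1 h ht.2).2]
      · rw [h]; simp
      · rw [abs_sub_comm, abs_of_neg (show X t - X s < 0 by linarith [(R t s ht.1 h hs.2).1])]
        linarith [(R t s ht.1 h hs.2).2])
  have L1 : Lip4 f1 := fun x y => by have := l1 x y; push_cast at this; linarith
  have L2 : Lip4 f2 := fun x y => by have := l2 x y; push_cast at this; linarith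
  have f10 : f1 0 = 0 := by
    have := e1 τ (right_mem_Icc.2 (by linarith))
    rw [Xτ, Yτ] at this; exact this.symm
  have f20 : f2 0 = 0 := by
    have := e2 τ (left_mem_Icc.2 (by linarith))
    rw [Xτ, Yτ] at this; exact this.symm
  obtain ⟨r, hr⟩ : ∃ r, r = min (X (τ - δ)) (X (τ + δ)) := ⟨_, rfl⟩
  have hr1 : r ≤ X (τ - δ) := by rw [hr]; exact min_le_left _ _
  have hr2 : r ≤ X (τ + δ) := by rw [hr]; exact min_le_right _ _
  have hr0 : 0 < r := by
    rw [hr, ← Xτ]
    exact lt_min (inc (left_mem_Icc.2 (by linarith)) (right_mem_Icc.2 (by linarith)) (by linarith))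
      (out (left_mem_Icc.2 (by linarith)) (right_mem_Icc.2 (by linarith)) (by linarith))
  have s1 : ∀ x, 0 ≤ x → x < r → ∃ t ∈ Icc (τ - δ) τ, X t = x := by
    intro x h3 h4
    exact intermediate_value_Icc' (show τ - δ ≤ τ by linarith) cX.continuousOn
      ⟨by rw [Xτ]; exact h3, by linarith⟩
  have s2 : ∀ x, 0 ≤ x → x < r → ∃ t ∈ Icc τ (τ + δ), X t = x := by
    intro x h3 h4
    exact intermediate_value_Icc (show τ ≤ τ + δ by linarith) cX.continuousOn
      ⟨by rw [Xτ]; exact h3, by linarith⟩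
  have back : ∀ t, c τ + b * ((X t : ℂ) + Y t * I) = c t := by
    intro t
    have : (X t : ℂ) + Y t * I = (c t - c τ) / b := by
      rw [← hXt, ← hYt, re_add_im]
    rw [this]
    field_simp; ring
  have m1 : ∀ x, 0 ≤ x → x < r → c τ + b * ((x : ℂ) + f1 x * I) ∈ range c := by
    intro x h3 h4
    obtain ⟨t, ht, rfl⟩ := s1 x h3 h4
    rw [← e1 t ht, back]
    exact mem_range_self t
  have m2 : ∀ x, 0 ≤ x → x < r → c τ + b * ((x : ℂ) + f2 x * I) ∈ range c := by
    intro x h3 h4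
    obtain ⟨t, ht, rfl⟩ := s2 x h3 h4
    rw [← e2 t ht, back]
    exact mem_range_self t
  have hne : ∀ x, 0 < x → x < r → f1 x ≠ f2 x := by
    intro x h3 h4 h5
    obtain ⟨s, hs, hsx⟩ := s1 x h3.le h4
    obtain ⟨t, ht, htx⟩ := s2 x h3.le h4
    have k1 := back s
    have k2 := back t
    rw [e1 s hs, hsx] at k1
    rw [e2 t ht, htx, ← h5, k1] at k2
    have hst : s < t := by
      rcases hs.2.lt_or_eq with h | h
      · exact lt_of_lt_of_le h ht.1
      · rw [h, Xτ] at hsx; linarith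
    exact J s t hst (by linarith [hs.1, ht.2]) k2
  have hsign : (∀ x, 0 < x → x < r → f2 x < f1 x) ∨ (∀ x, 0 < x → x < r → f1 x < f2 x) := by
    have hcont : ContinuousOn (fun x => f1 x - f2 x) (Ioo 0 r) :=
      (L1.cont.sub L2.cont).continuousOn
    by_contra hcon
    push Not at hcon
    obtain ⟨⟨x, x0, x1, hx⟩, ⟨y, y0, y1, hy⟩⟩ := hcon
    obtain ⟨z, hz, hz0⟩ := (isPreconnected_Ioo).intermediate_value (show x ∈ Ioo 0 r from ⟨x0, x1⟩)
      (show y ∈ Ioo 0 r from ⟨y0, y1⟩) hcont (show (0:ℝ) ∈ Icc (f1 x - f2 x) (f1 y - f2 y) from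
        ⟨by linarith, by linarith⟩)
    exact hne z hz.1 hz.2 (by simp only at hz0; linarith)
  rcases hsign with hs | hs
  · refine locT1 (u := up f1) (l := dn f2) (r := r) ⟨up_lip L1, dn_lip L2, ?_, ?_, hr0, ?_, ?_, ?_, ?_, ?_, ?_⟩
      L J nosq A hb0 hδ hδ2 ?_ ?_
    · rw [up_pos _ le_rfl, f10]
    · rw [dn_pos _ le_rfl, f20]
    · intro x h3 h4
      rw [up_pos _ h3.le, dn_pos _ h3.le]
      exact hs x h3 h4
    · intro x h3
      exact up_dn_neg f10 f20 h3
    · simp only [hXt]; exact inc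
    · simp only [hXt]; exact out
    · intro x h3 h4
      rw [up_pos _ h3]
      exact m1 x h3 h4
    · intro x h3 h4
      rw [dn_pos _ h3]
      exact m2 x h3 h4
    · intro t ht
      have hp : 0 ≤ X t := by
        rw [← Xτ]; exact inc.antitoneOn ht (right_mem_Icc.2 (by linarith)) ht.2
      rw [hXt, hYt, up_pos _ hp, e1 t ht]
    · intro t ht
      have hp : 0 ≤ X t := by
        rw [← Xτ]; exact out.monotoneOn (left_mem_Icc.2 (by linarith)) ht ht.1
      rw [hXt, hYt, dn_pos _ hp, e2 t ht]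
  · refine locT2 (u := up f2) (l := dn f1) (r := r) ⟨up_lip L2, dn_lip L1, ?_, ?_, hr0, ?_, ?_, ?_, ?_, ?_, ?_⟩
      L J nosq A hb0 hδ hδ2 ?_ ?_
    · rw [up_pos _ le_rfl, f20]
    · rw [dn_pos _ le_rfl, f10]
    · intro x h3 h4
      rw [up_pos _ h3.le, dn_pos _ h3.le]
      exact hs x h3 h4
    · intro x h3
      exact up_dn_neg f20 f10 h3
    · simp only [hXt]; exact inc
    · simp only [hXt]; exact out
    · intro x h3 h4
      rw [up_pos _ h3]
      exact m2 x h3 h4
    · intro x h3 h4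
      rw [dn_pos _ h3]
      exact m1 x h3 h4
    · intro t ht
      have hp : 0 ≤ X t := by
        rw [← Xτ]; exact inc.antitoneOn ht (right_mem_Icc.2 (by linarith)) ht.2
      rw [hXt, hYt, dn_pos _ hp, e1 t ht]
    · intro t ht
      have hp : 0 ≤ X t := by
        rw [← Xτ]; exact out.monotoneOn (left_mem_Icc.2 (by linarith)) ht ht.1
      rw [hXt, hYt, up_pos _ hp, e2 t ht]

/-- almost straight arcs on both sides of `τ` -/
def Flat (c : ℝ → ℂ) (τ : ℝ) : Prop := ∃ δ > 0, ∃ a b : ℂ, ‖a‖ = 1 ∧ ‖b‖ = 1 ∧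
  (∀ s t, τ - δ < s → s < t → t ≤ τ → Cone a (c t - c s)) ∧
  (∀ s t, τ ≤ s → s < t → t < τ + δ → Cone b (c t - c s))

theorem Flat.loc (L : Loop c) (J : Inj c) (nosq : NoSq (range c)) (A : Ang c (mgc c) θ g)
    (h : Flat c τ) : Loc θ τ := by
  obtain ⟨δ, hδ, a, b, ha, hb, h1, h2⟩ := h
  obtain ⟨δ', hδ'⟩ : ∃ δ', δ' = min (δ / 2) (1 / 4) := ⟨_, rfl⟩
  have p1 : δ' ≤ δ / 2 := by rw [hδ']; exact min_le_left _ _
  have p2 : δ' ≤ 1 / 4 := by rw [hδ']; exact min_le_right _ _
  have p0 : 0 < δ' := by rw [hδ']; positivity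
  rcases le_or_gt ‖a + b‖ (6 / 25) with h | h
  · exact cusp L J nosq A p0 (by linarith) ha hb h (fun s t k1 k2 k3 => h1 s t (by linarith) k2 k3)
      (fun s t k1 k2 k3 => h2 s t k1 k2 (by linarith))
  · exact corner L J A p0 (by linarith) ha hb h (fun s t k1 k2 k3 => h1 s t (by linarith) k2 k3)
      (fun s t k1 k2 k3 => h2 s t k1 k2 (by linarith))

/-- **Curves with almost straight arcs on both sides of every point.** -/
theorem flat_square (L : Loop c) (J : Inj c) (h : ∀ τ, Flat c τ) : ¬ NoSq (range c) := by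
  intro nosq
  obtain ⟨θ, g, A, ho⟩ := exists_odd L J nosq
  have hloc : ∀ τ, Loc θ τ := fun τ => (h τ).loc L J nosq A
  choose n δ hδ hn using hloc
  have hπ := Real.pi_pos
  -- two intervals at the same point
  have comp : ∀ {x : ℝ} {n1 n2 : ℤ}, (∃ η > 0, ∀ y, x < y → y < x + η →
      n1 * Real.pi < θ x y ∧ θ x y < n1 * Real.pi + Real.pi / 2) →
      (∃ η > 0, ∀ y, x < y → y < x + η →
      n2 * Real.pi < θ x y ∧ θ x y < n2 * Real.pi + Real.pi / 2) → n1 = n2 := by
    rintro x n1 n2 ⟨η1, e1, h1⟩ ⟨η2, e2, h2⟩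
    have m1 := min_le_left η1 η2
    have m2 := min_le_right η1 η2
    have m0 : 0 < min η1 η2 := lt_min e1 e2
    have k1 := h1 (x + min η1 η2 / 2) (by linarith) (by linarith)
    have k2 := h2 (x + min η1 η2 / 2) (by linarith) (by linarith)
    have k3 : (n1 : ℝ) < n2 + 1 := by
      by_contra hcon
      push Not at hcon
      have := mul_le_mul_of_nonneg_right hcon hπ.le
      linarith [k1.1, k2.2]
    have k4 : (n2 : ℝ) < n1 + 1 := by
      by_contra hcon
      push Not at hcon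
      have := mul_le_mul_of_nonneg_right hcon hπ.le
      linarith [k2.1, k1.2]
    have k5 : n1 < n2 + 1 := by exact_mod_cast k3
    have k6 : n2 < n1 + 1 := by exact_mod_cast k4
    omega
  have hl : IsLocallyConstant n := by
    rw [IsLocallyConstant.iff_eventually_eq]
    intro τ
    filter_upwards [Metric.ball_mem_nhds τ (hδ τ)] with τ' hτ'
    rw [Metric.mem_ball, Real.dist_eq] at hτ'
    -- a point near `τ'` different from both
    have hd : 0 < δ τ - |τ' - τ| := by linarith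
    obtain ⟨d, hd0, hd1, hd2, hd3⟩ : ∃ d : ℝ, 0 < d ∧ d < δ τ' ∧ d < δ τ - |τ' - τ| ∧ τ' + d ≠ τ := by
      have hm : 0 < min (δ τ') (δ τ - |τ' - τ|) := lt_min (hδ τ') hd
      have hm1 := min_le_left (δ τ') (δ τ - |τ' - τ|)
      have hm2 := min_le_right (δ τ') (δ τ - |τ' - τ|)
      by_cases hq : τ' + min (δ τ') (δ τ - |τ' - τ|) / 2 = τ
      · exact ⟨min (δ τ') (δ τ - |τ' - τ|) / 3, by linarith, by linarith, by linarith,
          fun h' => by linarith⟩
      · exact ⟨min (δ τ') (δ τ - |τ' - τ|) / 2, by linarith, by linarith, by linarith, hq⟩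
    have a1 := hn τ' (τ' + d) (by intro h'; linarith)
      (by rw [add_sub_cancel_left, abs_of_pos hd0]; exact hd1)
    have a2 := hn τ (τ' + d) hd3 (by
      have : |τ' + d - τ| ≤ |τ' - τ| + d := by
        have := abs_add_le (τ' - τ) d
        rw [abs_of_pos hd0] at this
        rw [show τ' + d - τ = τ' - τ + d by ring]; exact this
      linarith)
    exact comp a1 a2
  have hconst : ∀ x y, n x = n y := fun x y => hl.apply_eq_of_preconnectedSpace x y
  -- shift by one
  have hshift : n 1 = n 0 + 2 * g := by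
    obtain ⟨d, hd⟩ : ∃ d, d = min (min (δ 0) (δ 1)) 1 / 2 := ⟨_, rfl⟩
    have q0 : 0 < min (min (δ 0) (δ 1)) 1 := lt_min (lt_min (hδ 0) (hδ 1)) one_pos
    have q1 := (min_le_left (min (δ 0) (δ 1)) 1).trans (min_le_left _ _)
    have q2 := (min_le_left (min (δ 0) (δ 1)) 1).trans (min_le_right _ _)
    have q3 := min_le_right (min (δ 0) (δ 1)) 1
    obtain ⟨η0, h0, k0⟩ := hn 0 d (by linarith) (by rw [sub_zero, abs_of_pos (by linarith)]; linarith)
    obtain ⟨η1, h1, k1⟩ := hn 1 (d + 1) (by linarith) (by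
      rw [add_sub_cancel_right, abs_of_pos (by linarith)]; linarith)
    refine comp (x := d + 1) ⟨η1, h1, k1⟩ ⟨min η0 1, lt_min h0 one_pos, fun y y1 y2 => ?_⟩
    have y3 := lt_of_lt_of_le y2 (add_le_add_right (min_le_left η0 1) (d + 1))
    have y4 := lt_of_lt_of_le y2 (add_le_add_right (min_le_right η0 1) (d + 1))
    have := k0 (y - 1) (by linarith) (by linarith)
    have hp := A.per d (y - 1) (by linarith) (by linarith)
    rw [sub_add_cancel] at hp
    rw [hp]
    push_cast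
    constructor <;> linarith [this.1, this.2]
  rw [hconst 1 0] at hshift
  have : g = 0 := by omega
  rw [this] at ho
  exact absurd ho (by decide)

end Pool.Agent.Y262.Peg
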