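import Pool.Agent.Y262.Peg.Local

/-! Piecewise smooth curves, and curves of finite total curvature, consist of flat arcs. -/

set_option autoImplicit false
set_option maxHeartbeats 400000
open Complex Set Topology Metric Filter

namespace Pool.Agent.Y262.Peg

open Pool.Agent.H763R2 Pool.Agent.H763R2.An
open Pool.Agent.H763R2.Dm (NoSq)

/-- a vector close to the direction `b` satisfies the cone condition -/
theorem cone_of_close {b w : ℂ} (hb : ‖b‖ = 1) {r : ℝ} (hr : 0 ≤ r)
    (h : ‖w - r * b‖ ≤ r / 1500) : Cone b w := by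
  have hb0 : b ≠ 0 := by rw [← norm_pos_iff, hb]; norm_num
  have e : w / b = r + (w - r * b) / b := by field_simp; ring
  have hn : ‖(w - r * b) / b‖ ≤ r / 1500 := by rw [norm_div, hb, div_one]; exact h
  have h1 := (abs_re_le_norm ((w - r * b) / b)).trans hn
  have h2 := (abs_im_le_norm ((w - r * b) / b)).trans hn
  have e1 : (w / b).re = r + ((w - r * b) / b).re := by rw [e]; simp
  have e2 : (w / b).im = ((w - r * b) / b).im := by rw [e]; simp
  unfold Cone
  rw [e1, e2]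
  linarith [(abs_le.1 h1).1]

/-- all chords of `c` just to the right of `τ` are almost parallel -/
def Half (c : ℝ → ℂ) (τ : ℝ) : Prop := ∃ δ > 0, ∃ b : ℂ, ‖b‖ = 1 ∧
  ∀ s t, τ ≤ s → s < t → t < τ + δ → Cone b (c t - c s)

theorem flat_of_half {c : ℝ → ℂ} {τ : ℝ} (h1 : Half c τ) (h2 : Half (fun t => c (-t)) (-τ)) :
    Flat c τ := by
  obtain ⟨δ1, d1, b, nb, h1⟩ := h1
  obtain ⟨δ2, d2, a, na, h2⟩ := h2
  refine ⟨min δ1 δ2, lt_min d1 d2, -a, b, by rw [norm_neg, na], nb, fun s t k1 k2 k3 => ?_,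
    fun s t k1 k2 k3 => h1 s t k1 k2 (by linarith [min_le_left δ1 δ2])⟩
  have := h2 (-t) (-s) (by linarith) (by linarith) (by linarith [min_le_right δ1 δ2])
  simp only [neg_neg] at this
  unfold Cone at this ⊢
  rw [div_neg, ← neg_div, neg_sub]
  exact this

/-- a strict one-sided derivative -/
theorem half_of_strict {c : ℝ → ℂ} {τ : ℝ} {b : ℂ} (hb : b ≠ 0)
    (h2 : ∀ ε > 0, ∃ δ > 0, ∀ s t, τ ≤ s → s < t → t < τ + δ →
      ‖c t - c s - (t - s : ℝ) * b‖ ≤ ε * (t - s)) : Half c τ := by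
  have nb : 0 < ‖b‖ := norm_pos_iff.2 hb
  obtain ⟨δ2, d2, k2⟩ := h2 (‖b‖ / 1500) (by positivity)
  refine ⟨δ2, d2, b / ‖b‖, ?_, fun s t j1 j2 j3 => ?_⟩
  · rw [norm_div, norm_real, norm_norm, div_self nb.ne']
  · have := k2 s t j1 j2 j3
    refine cone_of_close (r := (t - s) * ‖b‖) ?_ (by have := sub_pos.2 j2; positivity) ?_
    · rw [norm_div, norm_real, norm_norm, div_self nb.ne']
    · have e : (((t - s) * ‖b‖ : ℝ) : ℂ) * (b / ‖b‖) = (t - s : ℝ) * b := by
        have : (‖b‖ : ℂ) ≠ 0 := by exact_mod_cast nb.ne'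
        push_cast; field_simp
      rw [e]
      refine this.trans (le_of_eq ?_)
      ring

/-- a `C¹` arc has strict derivatives -/
theorem strict_of_C1 {c : ℝ → ℂ} {p q : ℝ} (hpq : p < q) (hc : ContDiffOn ℝ 1 c (Icc p q)) {τ : ℝ}
    (hτ : τ ∈ Icc p q) {ε : ℝ} (hε : 0 < ε) : ∃ δ > 0, ∀ s t, s ∈ Icc p q → t ∈ Icc p q →
      |s - τ| < δ → |t - τ| < δ → s < t →
      ‖c t - c s - (t - s : ℝ) * derivWithin c (Icc p q) τ‖ ≤ ε * (t - s) := by
  have hd : ContinuousOn (derivWithin c (Icc p q)) (Icc p q) :=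
    hc.continuousOn_derivWithin (uniqueDiffOn_Icc hpq) le_rfl
  obtain ⟨δ, hδ, h⟩ := Metric.continuousOn_iff.1 hd τ hτ ε hε
  refine ⟨δ, hδ, fun s t hs ht hsτ htτ hst => ?_⟩
  have hconv : Convex ℝ (Icc p q ∩ Metric.ball τ δ) := (convex_Icc p q).inter (convex_ball τ δ)
  have key := hconv.norm_image_sub_le_of_norm_hasDerivWithin_le
    (f := fun x => c x - x * derivWithin c (Icc p q) τ)
    (f' := fun x => derivWithin c (Icc p q) x - derivWithin c (Icc p q) τ) (C := ε)
    (x := s) (y := t) (fun x hx => ?_) (fun x hx => ?_) ⟨hs, hsτ⟩ ⟨ht, htτ⟩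
  · rw [Real.norm_eq_abs, abs_of_pos (by linarith)] at key
    have e : c t - c s - (t - s : ℝ) * derivWithin c (Icc p q) τ =
        c t - t * derivWithin c (Icc p q) τ - (c s - s * derivWithin c (Icc p q) τ) := by
      push_cast; ring
    rw [e]
    exact key
  · have e1 : HasDerivWithinAt c (derivWithin c (Icc p q) x) (Icc p q) x :=
      ((hc.differentiableOn (by norm_num)) x hx.1).hasDerivWithinAt
    have e2 : HasDerivWithinAt (fun x : ℝ => (x : ℂ) * derivWithin c (Icc p q) τ)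
        (derivWithin c (Icc p q) τ) (Icc p q ∩ Metric.ball τ δ) x := by
      have := (Complex.ofRealCLM.hasDerivAt (x := x)).mul_const (derivWithin c (Icc p q) τ)
      simpa using this.hasDerivWithinAt
    exact (e1.mono inter_subset_left).sub e2
  · have := h x hx.1 hx.2
    rw [dist_eq_norm] at this
    exact this.le

/-- a regular `C¹` arc -/
theorem half_of_C1 {c : ℝ → ℂ} {τ δ : ℝ} (hδ : 0 < δ) (hc : ContDiffOn ℝ 1 c (Icc τ (τ + δ)))
    (hd : derivWithin c (Icc τ (τ + δ)) τ ≠ 0) : Half c τ := by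
  refine half_of_strict hd fun ε hε => ?_
  obtain ⟨δ', hδ', h⟩ := strict_of_C1 (by linarith) hc ⟨le_rfl, by linarith⟩ hε
  refine ⟨min δ δ', lt_min hδ hδ', fun s t h1 h2 h3 => ?_⟩
  have k1 := min_le_left δ δ'
  have k2 := min_le_right δ δ'
  exact h s t ⟨by linarith, by linarith⟩ ⟨by linarith, by linarith⟩
    (by rw [abs_lt]; constructor <;> linarith) (by rw [abs_lt]; constructor <;> linarith) h2

end Pool.Agent.Y262.Peg
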