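import Pool.Agent.H763R2.An.Re
import Pool.Agent.TH569.Peg.B
import Pool.Agent.H765R3.Peg.Conv

/-! The two sides of a Jordan curve near a point with two flat branches. -/

set_option autoImplicit false
set_option maxHeartbeats 400000
open Complex Set Topology Metric Filter

namespace Pool.Agent.Y262.Peg

open Pool.Agent.H763R2 Pool.Agent.H763R2.An
open Pool.Agent.H763R2.Dm (NoSq b b_true b_false)

variable {c : ℝ → ℂ}

theorem near (L : Loop c) (J : Inj c) (τ : ℝ) {η : ℝ} (hη : 0 < η) :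
    ∃ ρ > 0, ∀ w ∈ range c, ‖w - c τ‖ < ρ → ∃ t, |t - τ| < η ∧ c t = w := by
  obtain ⟨ρ, hρ, h⟩ := L.near_fib (c τ) hη
  refine ⟨ρ, hρ, ?_⟩
  rintro w ⟨t, rfl⟩ ht
  obtain ⟨t', ht', htt⟩ := h t ht
  obtain ⟨n, hn⟩ := TH569.Peg.int_of_eq L J ht'.symm
  refine ⟨t - n, ?_, ?_⟩
  · rw [show t - n - τ = t - t' by rw [hn]; ring]
    exact htt
  · have := L.per_int (t - n) n
    rw [sub_add_cancel] at this
    exact this.symm

theorem crossM (L : Loop c) (J : Inj c) {x1 η : ℝ} {e : ℂ} (he : e ≠ 0) (hη : 0 < η)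
    (hη2 : η < 1 / 2) (hpos : ∀ t ∈ Ioc x1 (x1 + η), 0 < ((c t - c x1) / e).re)
    (hneg : ∀ t ∈ Ico (x1 - η) x1, ((c t - c x1) / e).re < 0) :
    ∃ d0 > 0, ∀ d : ℝ, 0 < d → d < d0 → c x1 + d * I * e ∉ range c → c x1 - d * I * e ∉ range c →
      mgc c (c x1 + d * I * e) * mgc c (c x1 - d * I * e) < 0 := by
  have L' := L.shift x1
  have S := mgc_sg L
  have S' := S.shift L x1
  have r' := range_shift (c := c) x1
  have hc := L.cont
  obtain ⟨x, hx, hmin⟩ := isCompact_Icc.exists_isMinOn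
    (nonempty_Icc.2 (show η ≤ 1 - η by linarith)) (f := fun t => ‖(c (t + x1) - c x1) / e‖)
    (by fun_prop)
  have hp : 0 < ‖(c (x + x1) - c x1) / e‖ := by
    rw [norm_pos_iff]
    refine div_ne_zero (sub_ne_zero.2 ?_) he
    exact (J x1 (x + x1) (by linarith [hx.1]) (by linarith [hx.2])).symm
  refine ⟨_, hp, fun d hd0 hd m1 m2 => ?_⟩
  obtain ⟨n, hn⟩ := L'.exW (z := c x1 + d * I * e) (by rw [r']; exact m1)
  obtain ⟨n', hn'⟩ := L'.exW (z := c x1 - d * I * e) (by rw [r']; exact m2)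
  have hcr := cross (c := fun t => c (t + x1)) he hd0 hη hη2 L' (by simp only [zero_add])
    hn hn' (fun t ht => lt_of_lt_of_le hd (hmin ht))
    (fun t ht => hpos (t + x1) ⟨by linarith [ht.1], by linarith [ht.2]⟩)
    (fun t ht => hneg (t + x1) ⟨by linarith [ht.1], by linarith [ht.2]⟩)
  have p1 := S'.par _ (by rw [r']; exact m1) n hn
  have p2 := S'.par _ (by rw [r']; exact m2) n' hn'
  have k1 : mgc c (c x1 + d * I * e) ≠ 0 := fun h => m1 ((S.zero L).1 h)
  have k2 : mgc c (c x1 - d * I * e) ≠ 0 := fun h => m2 ((S.zero L).1 h)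
  rw [hcr] at p1
  push_cast at p1
  rw [p2] at p1
  rcases lt_or_gt_of_ne k1 with h1 | h1 <;> rcases lt_or_gt_of_ne k2 with h2 | h2
  · rw [b_false (not_lt.2 h1.le), b_false (not_lt.2 h2.le)] at p1
    exact absurd (show (1 : ZMod 2) = 0 by linear_combination p1) (by decide)
  · exact mul_neg_of_neg_of_pos h1 h2
  · exact mul_neg_of_pos_of_neg h1 h2
  · rw [b_true h1, b_true h2] at p1
    exact absurd (show (1 : ZMod 2) = 0 by linear_combination p1) (by decide)

theorem twoSides (L : Loop c) (J : Inj c) {τ δ : ℝ} (hδ2 : δ < 1 / 2) {e : ℂ}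
    (he : e ≠ 0) (hm : StrictMonoOn (fun t => ((c t - c τ) / e).re) (Icc τ (τ + δ)))
    {U1 U2 : Set ℂ} (p1 : IsPreconnected U1) (p2 : IsPreconnected U2)
    (d1 : ∀ z ∈ U1, c τ + e * z ∉ range c) (d2 : ∀ z ∈ U2, c τ + e * z ∉ range c) {x1 : ℝ}
    (hx1 : x1 ∈ Ioo τ (τ + δ)) {d0 : ℝ} (hd0 : 0 < d0)
    (h1 : ∀ d : ℝ, 0 < d → d < d0 → (c x1 - c τ) / e + d * I ∈ U1)
    (h2 : ∀ d : ℝ, 0 < d → d < d0 → (c x1 - c τ) / e - d * I ∈ U2) :
    ∃ σ : ℝ, (σ = 1 ∨ σ = -1) ∧ (∀ z ∈ U1, 0 < σ * mgc c (c τ + e * z)) ∧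
      ∀ z ∈ U2, σ * mgc c (c τ + e * z) < 0 := by
  set η := min (x1 - τ) (τ + δ - x1) with hη
  have hη0 : 0 < η := lt_min (by linarith [hx1.1]) (by linarith [hx1.2])
  have hη1 : η ≤ x1 - τ := min_le_left _ _
  have hη2 : η ≤ τ + δ - x1 := min_le_right _ _
  have re_eq : ∀ t, ((c t - c x1) / e).re = ((c t - c τ) / e).re - ((c x1 - c τ) / e).re := by
    intro t
    rw [← sub_re, ← sub_div]
    congr 2; ring
  obtain ⟨d', hd', hcr⟩ := crossM L J (x1 := x1) he hη0 (by linarith) (fun t ht => by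
      rw [re_eq]
      have := hm (a := x1) (b := t) ⟨hx1.1.le, hx1.2.le⟩ ⟨by linarith [ht.1, hx1.1],
        by linarith [ht.2]⟩ ht.1
      simp only at this
      linarith) (fun t ht => by
      rw [re_eq]
      have := hm (a := t) (b := x1) ⟨by linarith [ht.1], by linarith [ht.2, hx1.2]⟩
        ⟨hx1.1.le, hx1.2.le⟩ ht.2
      simp only at this
      linarith)
  set d := min d' d0 / 2 with hd
  have hdp : 0 < min d' d0 := lt_min hd' hd0
  have dp : 0 < d := by positivity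
  have d1' : d < d' := by have := min_le_left d' d0; linarith
  have d2' : d < d0 := by have := min_le_right d' d0; linarith
  have e1 : c x1 + d * I * e = c τ + e * ((c x1 - c τ) / e + d * I) := by
    field_simp; ring
  have e2 : c x1 - d * I * e = c τ + e * ((c x1 - c τ) / e - d * I) := by
    field_simp; ring
  have m1 := h1 d dp d2'
  have m2 := h2 d dp d2'
  have hop := hcr d dp d1' (by rw [e1]; exact d1 _ m1) (by rw [e2]; exact d2 _ m2)
  rw [e1, e2] at hop
  have S := mgc_sg L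
  have cφ : Continuous fun z : ℂ => mgc c (c τ + e * z) := S.cont.comp (by fun_prop)
  have s1 : ∀ z ∈ U1, 0 < mgc c (c τ + e * z) * mgc c (c τ + e * ((c x1 - c τ) / e + d * I)) :=
    fun z hz => sign_mul p1 cφ (fun w hw h => d1 w hw ((S.zero L).1 h)) hz m1
  have s2 : ∀ z ∈ U2, 0 < mgc c (c τ + e * z) * mgc c (c τ + e * ((c x1 - c τ) / e - d * I)) :=
    fun z hz => sign_mul p2 cφ (fun w hw h => d2 w hw ((S.zero L).1 h)) hz m2
  rcases lt_or_ge 0 (mgc c (c τ + e * ((c x1 - c τ) / e + d * I))) with hA | hA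
  · refine ⟨1, Or.inl rfl, fun z hz => ?_, fun z hz => ?_⟩
    · rw [one_mul]
      exact (pos_iff_pos_of_mul_pos (s1 z hz)).2 hA
    · rw [one_mul]
      have hB : mgc c (c τ + e * ((c x1 - c τ) / e - d * I)) < 0 := by
        by_contra hcon
        push Not at hcon
        nlinarith [mul_nonneg hA.le hcon]
      by_contra hcon
      push Not at hcon
      nlinarith [s2 z hz, mul_nonneg hcon (show 0 ≤ -mgc c (c τ + e * ((c x1 - c τ) / e - d * I)) by
        linarith)]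
  · refine ⟨-1, Or.inr rfl, fun z hz => ?_, fun z hz => ?_⟩
    · have := s1 z hz
      by_contra hcon
      push Not at hcon
      nlinarith [mul_nonneg (show 0 ≤ mgc c (c τ + e * z) by linarith)
        (show 0 ≤ -mgc c (c τ + e * ((c x1 - c τ) / e + d * I)) by linarith)]
    · have hB : 0 < mgc c (c τ + e * ((c x1 - c τ) / e - d * I)) := by
        by_contra hcon
        push Not at hcon
        nlinarith [mul_nonneg (show 0 ≤ -mgc c (c τ + e * ((c x1 - c τ) / e + d * I)) by linarith)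
          (show 0 ≤ -mgc c (c τ + e * ((c x1 - c τ) / e - d * I)) by linarith)]
      have := (pos_iff_pos_of_mul_pos (s2 z hz)).2 hB
      linarith

/-- the parts above and below a graph -/
def Abv (f : ℝ → ℝ) (ρ h : ℝ) : Set ℂ := {z | |z.re| < ρ ∧ f z.re < z.im ∧ z.im < f z.re + h}
def Bel (f : ℝ → ℝ) (ρ h : ℝ) : Set ℂ := {z | |z.re| < ρ ∧ z.im < f z.re ∧ f z.re - h < z.im}
def Btw (u l : ℝ → ℝ) (ρ : ℝ) : Set ℂ := {z | 0 < z.re ∧ z.re < ρ ∧ l z.re < z.im ∧ z.im < u z.re}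

theorem Abv_pre {f : ℝ → ℝ} (hf : Continuous f) (ρ h : ℝ) : IsPreconnected (Abv f ρ h) := by
  have e : Abv f ρ h = (fun p : ℝ × ℝ => (p.1 : ℂ) + ((f p.1 + p.2 : ℝ) : ℂ) * I) ''
      (Ioo (-ρ) ρ ×ˢ Ioo 0 h) := by
    ext z
    constructor
    · rintro ⟨h1, h2, h3⟩
      refine ⟨(z.re, z.im - f z.re), ⟨abs_lt.1 h1, ⟨by simp only; linarith, by simp only; linarith⟩⟩, ?_⟩
      apply Complex.ext <;> simp
    · rintro ⟨⟨x, y⟩, ⟨h1, h2⟩, rfl⟩
      simp only [Abv, mem_ofPred_eq]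
      simp only [mem_Ioo] at h1 h2
      refine ⟨?_, ?_, ?_⟩
      · simpa [abs_lt] using h1
      · simp; exact h2.1
      · simp; exact h2.2
  rw [e]
  refine IsPreconnected.image ?_ _ (by fun_prop)
  exact ((convex_Ioo _ _).prod (convex_Ioo _ _)).isPreconnected

theorem Bel_pre {f : ℝ → ℝ} (hf : Continuous f) (ρ h : ℝ) : IsPreconnected (Bel f ρ h) := by
  have e : Bel f ρ h = (fun p : ℝ × ℝ => (p.1 : ℂ) + ((f p.1 - p.2 : ℝ) : ℂ) * I) ''
      (Ioo (-ρ) ρ ×ˢ Ioo 0 h) := by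
    ext z
    constructor
    · rintro ⟨h1, h2, h3⟩
      refine ⟨(z.re, f z.re - z.im), ⟨abs_lt.1 h1, ⟨by simp only; linarith, by simp only; linarith⟩⟩, ?_⟩
      apply Complex.ext <;> simp
    · rintro ⟨⟨x, y⟩, ⟨h1, h2⟩, rfl⟩
      simp only [Bel, mem_ofPred_eq]
      simp only [mem_Ioo] at h1 h2
      refine ⟨?_, ?_, ?_⟩
      · simpa [abs_lt] using h1
      · simp; exact h2.1
      · simp; exact h2.2
  rw [e]
  refine IsPreconnected.image ?_ _ (by fun_prop)
  exact ((convex_Ioo _ _).prod (convex_Ioo _ _)).isPreconnected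

theorem Btw_pre {u l : ℝ → ℝ} (hu : Continuous u) (hl : Continuous l) {ρ : ℝ}
    (hgap : ∀ x, 0 < x → x < ρ → l x < u x) : IsPreconnected (Btw u l ρ) := by
  have e : Btw u l ρ = (fun p : ℝ × ℝ => (p.1 : ℂ) + ((l p.1 + p.2 * (u p.1 - l p.1) : ℝ) : ℂ) * I) ''
      (Ioo 0 ρ ×ˢ Ioo 0 1) := by
    ext z
    constructor
    · rintro ⟨h1, h2, h3, h4⟩
      have hg := hgap _ h1 h2
      have hg' : 0 < u z.re - l z.re := by linarith
      refine ⟨(z.re, (z.im - l z.re) / (u z.re - l z.re)), ⟨⟨h1, h2⟩, ⟨?_, ?_⟩⟩, ?_⟩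
      · exact div_pos (by linarith) hg'
      · simp only
        rw [div_lt_one hg']; linarith
      · simp only
        rw [div_mul_cancel₀ _ hg'.ne']
        apply Complex.ext <;> simp
    · rintro ⟨⟨x, y⟩, ⟨h1, h2⟩, rfl⟩
      simp only [Btw, mem_ofPred_eq]
      simp only [mem_Ioo] at h1 h2
      have hg := hgap x h1.1 h1.2
      have hg' : 0 < u x - l x := by linarith
      have k1 : 0 < y * (u x - l x) := mul_pos h2.1 hg'
      have k2 : y * (u x - l x) < 1 * (u x - l x) := mul_lt_mul_of_pos_right h2.2 hg'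
      refine ⟨?_, ?_, ?_, ?_⟩
      · simpa using h1.1
      · simpa using h1.2
      · have : ((x : ℂ) + ((l x + y * (u x - l x) : ℝ) : ℂ) * I).im = l x + y * (u x - l x) := by simp
        rw [this]
        have : ((x : ℂ) + ((l x + y * (u x - l x) : ℝ) : ℂ) * I).re = x := by simp
        rw [this]; linarith
      · have : ((x : ℂ) + ((l x + y * (u x - l x) : ℝ) : ℂ) * I).im = l x + y * (u x - l x) := by simp
        rw [this]
        have : ((x : ℂ) + ((l x + y * (u x - l x) : ℝ) : ℂ) * I).re = x := by simp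
        rw [this]; linarith
  rw [e]
  refine IsPreconnected.image ?_ _ (by fun_prop)
  exact ((convex_Ioo _ _).prod (convex_Ioo _ _)).isPreconnected

end Pool.Agent.Y262.Peg
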