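import Pool.Agent.Y262.Peg.Side

/-! The sign of the signed distance near a corner and near a cusp. -/

set_option autoImplicit false
set_option maxHeartbeats 400000
open Complex Set Topology Metric Filter

namespace Pool.Agent.Y262.Peg

open Pool.Agent.H763R2 Pool.Agent.H763R2.An
open Pool.Agent.H763R2.Dm (NoSq b b_true b_false)

variable {c : ℝ → ℂ}

theorem nearZ (L : Loop c) (J : Inj c) {τ δ : ℝ} (hδ : 0 < δ) {e : ℂ} (he : e ≠ 0) :
    ∃ R > 0, ∀ z : ℂ, ‖z‖ < R → c τ + e * z ∈ range c →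
      ∃ t ∈ Icc (τ - δ) (τ + δ), (c t - c τ) / e = z := by
  obtain ⟨ρ, hρ, h⟩ := near L J τ hδ
  have hn : 0 < ‖e‖ := norm_pos_iff.2 he
  refine ⟨ρ / ‖e‖, by positivity, fun z hz hm => ?_⟩
  rw [lt_div_iff₀ hn] at hz
  obtain ⟨t, ht, htt⟩ := h _ hm (by
    rw [add_sub_cancel_left, norm_mul, mul_comm]; exact hz)
  have := abs_lt.1 ht
  refine ⟨t, ⟨by linarith, by linarith⟩, ?_⟩
  rw [htt, add_sub_cancel_left, mul_div_cancel_left₀ _ he]

theorem exists_small {f : ℝ → ℝ} (hf : Continuous f) (f0 : f 0 = 0) {ε : ℝ} (hε : 0 < ε) :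
    ∃ ρ > 0, ∀ x, |x| < ρ → |f x| < ε := by
  obtain ⟨ρ, hρ, h⟩ := Metric.continuous_iff.1 hf 0 ε hε
  refine ⟨ρ, hρ, fun x hx => ?_⟩
  have := h x (by rw [Real.dist_eq, sub_zero]; exact hx)
  rw [Real.dist_eq, f0, sub_zero] at this
  exact this

theorem norm_le_parts (z : ℂ) : ‖z‖ ≤ |z.re| + |z.im| := Complex.norm_le_abs_re_add_abs_im z

theorem exists_x1 (L : Loop c) {τ δ : ℝ} (hδ : 0 < δ) {e : ℂ}
    (hm : StrictMonoOn (fun t => ((c t - c τ) / e).re) (Icc τ (τ + δ))) {ρ : ℝ} (hρ : 0 < ρ) :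
    ∃ x1 ∈ Ioo τ (τ + δ), 0 < ((c x1 - c τ) / e).re ∧ ((c x1 - c τ) / e).re < ρ := by
  have hc := L.cont
  have h1 : Continuous fun t => ((c t - c τ) / e).re := by fun_prop
  have h2 : ∀ᶠ t in 𝓝[>] τ, ((c t - c τ) / e).re < ρ := by
    refine (h1.tendsto τ).mono_left (nhdsWithin_le_nhds) |>.eventually (gt_mem_nhds ?_)
    simpa using hρ
  obtain ⟨x1, hx, hx1⟩ := (h2.and (Ioo_mem_nhdsGT (show τ < τ + δ by linarith))).exists
  refine ⟨x1, hx1, ?_, hx⟩
  have := hm (a := τ) (b := x1) ⟨le_rfl, by linarith⟩ ⟨hx1.1.le, hx1.2.le⟩ hx1.1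
  simpa using this

theorem sideV (L : Loop c) (J : Inj c) {τ δ : ℝ} (hδ : 0 < δ) (hδ2 : δ < 1 / 2) {e : ℂ}
    (he : e ≠ 0) (hm : StrictMonoOn (fun t => ((c t - c τ) / e).re) (Icc τ (τ + δ)))
    {f : ℝ → ℝ} (hf : Continuous f)
    (hg : ∀ t ∈ Icc (τ - δ) (τ + δ), ((c t - c τ) / e).im = f ((c t - c τ) / e).re) :
    ∃ ρ > 0, ∃ σ : ℝ, (σ = 1 ∨ σ = -1) ∧ ∀ z : ℂ, ‖z‖ < ρ →
      (f z.re < z.im → 0 < σ * mgc c (c τ + e * z)) ∧
      (z.im < f z.re → σ * mgc c (c τ + e * z) < 0) := by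
  obtain ⟨R, hR, hmem⟩ := nearZ L J hδ he (τ := τ)
  have f0 : f 0 = 0 := by
    have := hg τ ⟨by linarith, by linarith⟩
    simpa using this.symm
  obtain ⟨ρ', hρ', hsm⟩ := exists_small hf f0 (show 0 < R / 8 by positivity)
  set ρ1 := min ρ' (R / 8) with hρ1
  have ρ10 : 0 < ρ1 := lt_min hρ' (by positivity)
  have ρ1a : ρ1 ≤ ρ' := min_le_left _ _
  have ρ1b : ρ1 ≤ R / 8 := min_le_right _ _
  have dA : ∀ z ∈ Abv f ρ1 (R / 4), c τ + e * z ∉ range c := by
    rintro z ⟨h1, h2, h3⟩ hz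
    have h4 := abs_lt.1 (hsm z.re (by linarith))
    obtain ⟨t, ht, htz⟩ := hmem z (by
      have := norm_le_parts z
      have h5 : |z.im| < R / 2 := by rw [abs_lt]; constructor <;> linarith [h4.1, h4.2]
      linarith) hz
    have := hg t ht
    rw [htz] at this
    linarith
  have dB : ∀ z ∈ Bel f ρ1 (R / 4), c τ + e * z ∉ range c := by
    rintro z ⟨h1, h2, h3⟩ hz
    have h4 := abs_lt.1 (hsm z.re (by linarith))
    obtain ⟨t, ht, htz⟩ := hmem z (by
      have := norm_le_parts z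
      have h5 : |z.im| < R / 2 := by rw [abs_lt]; constructor <;> linarith [h4.1, h4.2]
      linarith) hz
    have := hg t ht
    rw [htz] at this
    linarith
  obtain ⟨x1, hx1, ha0, ha1⟩ := exists_x1 L hδ hm ρ10
  have hx1g := hg x1 ⟨by linarith [hx1.1], hx1.2.le⟩
  have habs : |((c x1 - c τ) / e).re| < ρ1 := by rw [abs_of_pos ha0]; exact ha1
  obtain ⟨σ, hσ, s1, s2⟩ := twoSides L J hδ2 he hm (Abv_pre hf ρ1 (R / 4)) (Bel_pre hf ρ1 (R / 4))
    dA dB hx1 (d0 := R / 4) (by positivity) (fun d h1 h2 => by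
      refine ⟨?_, ?_, ?_⟩
      · simpa using habs
      · simp; linarith
      · simp; linarith) (fun d h1 h2 => by
      refine ⟨?_, ?_, ?_⟩
      · simpa using habs
      · simp; linarith
      · simp; linarith)
  refine ⟨ρ1, ρ10, σ, hσ, fun z hz => ⟨fun h => s1 z ?_, fun h => s2 z ?_⟩⟩
  · have h1 := abs_re_le_norm z
    have h2 := abs_im_le_norm z
    have h4 := abs_lt.1 (hsm z.re (by linarith))
    have h5 := abs_le.1 h2
    exact ⟨by linarith, h, by linarith [h4.1, h5.2]⟩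
  · have h1 := abs_re_le_norm z
    have h2 := abs_im_le_norm z
    have h4 := abs_lt.1 (hsm z.re (by linarith))
    have h5 := abs_le.1 h2
    exact ⟨by linarith, h, by linarith [h4.2, h5.1]⟩

theorem sideT (L : Loop c) (J : Inj c) {τ δ : ℝ} (hδ : 0 < δ) (hδ2 : δ < 1 / 2) {e : ℂ}
    (he : e ≠ 0) (hm : StrictMonoOn (fun t => ((c t - c τ) / e).re) (Icc τ (τ + δ)))
    {u l : ℝ → ℝ} (hu : Continuous u) (hl : Continuous l) (u0 : u 0 = 0) (l0 : l 0 = 0) {r : ℝ}
    (hr : 0 < r) (gap : ∀ x, 0 < x → x < r → l x < u x) (neg : ∀ x < 0, u x < l x)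
    (hg : ∀ t ∈ Icc (τ - δ) (τ + δ), 0 ≤ ((c t - c τ) / e).re ∧
      (((c t - c τ) / e).im = u ((c t - c τ) / e).re ∨ ((c t - c τ) / e).im = l ((c t - c τ) / e).re))
    (hout : (∀ t ∈ Icc τ (τ + δ), ((c t - c τ) / e).im = u ((c t - c τ) / e).re) ∨
      (∀ t ∈ Icc τ (τ + δ), ((c t - c τ) / e).im = l ((c t - c τ) / e).re)) :
    ∃ ρ > 0, ∃ σ : ℝ, (σ = 1 ∨ σ = -1) ∧ ∀ z : ℂ, ‖z‖ < ρ →
      (l z.re < z.im → z.im < u z.re → 0 < σ * mgc c (c τ + e * z)) ∧
      ((u z.re < z.im ∨ z.im < l z.re) → σ * mgc c (c τ + e * z) < 0) := by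
  obtain ⟨R, hR, hmem⟩ := nearZ L J hδ he (τ := τ)
  obtain ⟨ρa, hρa, hsa⟩ := exists_small hu u0 (show 0 < R / 8 by positivity)
  obtain ⟨ρb, hρb, hsb⟩ := exists_small hl l0 (show 0 < R / 8 by positivity)
  set ρ1 := min (min ρa ρb) (min (R / 8) r) with hρ1
  have ρ10 : 0 < ρ1 := by positivity
  have ρ1a : ρ1 ≤ ρa := (min_le_left _ _).trans (min_le_left _ _)
  have ρ1b : ρ1 ≤ ρb := (min_le_left _ _).trans (min_le_right _ _)
  have ρ1c : ρ1 ≤ R / 8 := (min_le_right _ _).trans (min_le_left _ _)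
  have ρ1d : ρ1 ≤ r := (min_le_right _ _).trans (min_le_right _ _)
  have gap' : ∀ x, 0 ≤ x → x < ρ1 → l x ≤ u x := by
    intro x h1 h2
    rcases h1.lt_or_eq with h | h
    · exact (gap x h (by linarith)).le
    · rw [← h, u0, l0]
  have dA : ∀ z ∈ Abv u ρ1 (R / 4), c τ + e * z ∉ range c := by
    rintro z ⟨h1, h2, h3⟩ hz
    have h4 := abs_lt.1 (hsa z.re (by linarith))
    obtain ⟨t, ht, htz⟩ := hmem z (by
      have := norm_le_parts z
      have h5 : |z.im| < R / 2 := by rw [abs_lt]; constructor <;> linarith [h4.1, h4.2]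
      linarith) hz
    obtain ⟨g1, g2⟩ := hg t ht
    rw [htz] at g1 g2
    have := gap' z.re g1 (abs_lt.1 h1).2
    rcases g2 with g2 | g2 <;> linarith
  have dB : ∀ z ∈ Bel l ρ1 (R / 4), c τ + e * z ∉ range c := by
    rintro z ⟨h1, h2, h3⟩ hz
    have h4 := abs_lt.1 (hsb z.re (by linarith))
    obtain ⟨t, ht, htz⟩ := hmem z (by
      have := norm_le_parts z
      have h5 : |z.im| < R / 2 := by rw [abs_lt]; constructor <;> linarith [h4.1, h4.2]
      linarith) hz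
    obtain ⟨g1, g2⟩ := hg t ht
    rw [htz] at g1 g2
    have := gap' z.re g1 (abs_lt.1 h1).2
    rcases g2 with g2 | g2 <;> linarith
  have dC : ∀ z ∈ Btw u l ρ1, c τ + e * z ∉ range c := by
    rintro z ⟨h0, h1, h2, h3⟩ hz
    have h1' : |z.re| < ρ1 := by rw [abs_of_pos h0]; exact h1
    have h4 := abs_lt.1 (hsa z.re (by linarith))
    have h4' := abs_lt.1 (hsb z.re (by linarith))
    obtain ⟨t, ht, htz⟩ := hmem z (by
      have := norm_le_parts z
      have h5 : |z.im| < R / 2 := by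
        rw [abs_lt]; constructor <;> linarith [h4.1, h4.2, h4'.1, h4'.2]
      linarith) hz
    obtain ⟨g1, g2⟩ := hg t ht
    rw [htz] at g1 g2
    rcases g2 with g2 | g2 <;> linarith
  have pF : IsPreconnected (Abv u ρ1 (R / 4) ∪ Bel l ρ1 (R / 4)) := by
    have hx : -(ρ1 / 2) < 0 := by linarith
    have hn := neg _ hx
    have habs : |(-(ρ1 / 2))| < ρ1 := by rw [abs_neg, abs_of_pos (by linarith)]; linarith
    have h4 := abs_lt.1 (hsa (-(ρ1 / 2)) (by linarith))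
    have h4' := abs_lt.1 (hsb (-(ρ1 / 2)) (by linarith))
    refine IsPreconnected.union (⟨-(ρ1 / 2), (u (-(ρ1 / 2)) + l (-(ρ1 / 2))) / 2⟩ : ℂ) ?_ ?_
      (Abv_pre hu _ _) (Bel_pre hl _ _)
    · exact ⟨habs, by simp only; linarith, by simp only; linarith⟩
    · exact ⟨habs, by simp only; linarith, by simp only; linarith⟩
  have dF : ∀ z ∈ Abv u ρ1 (R / 4) ∪ Bel l ρ1 (R / 4), c τ + e * z ∉ range c := by
    rintro z (h | h)
    · exact dA z h
    · exact dB z h
  have pT : IsPreconnected (Btw u l ρ1) := Btw_pre hu hl fun x h1 h2 => gap x h1 (by linarith)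
  obtain ⟨x1, hx1, ha0, ha1⟩ := exists_x1 L hδ hm ρ10
  have habs : |((c x1 - c τ) / e).re| < ρ1 := by rw [abs_of_pos ha0]; exact ha1
  have hgx := gap _ ha0 (by linarith)
  have main : ∃ σ : ℝ, (σ = 1 ∨ σ = -1) ∧ (∀ z ∈ Btw u l ρ1, 0 < σ * mgc c (c τ + e * z)) ∧
      ∀ z ∈ Abv u ρ1 (R / 4) ∪ Bel l ρ1 (R / 4), σ * mgc c (c τ + e * z) < 0 := by
    rcases hout with ho | ho
    · have hx1g := ho x1 ⟨hx1.1.le, hx1.2.le⟩
      obtain ⟨σ, hσ, s1, s2⟩ := twoSides L J hδ2 he hm pF pT dF dC hx1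
        (d0 := min (R / 4) (u ((c x1 - c τ) / e).re - l ((c x1 - c τ) / e).re))
        (lt_min (by positivity) (by linarith)) (fun d h1 h2 => by
          have h3 := lt_of_lt_of_le h2 (min_le_left _ _)
          left
          refine ⟨?_, ?_, ?_⟩
          · simpa using habs
          · simp; linarith
          · simp; linarith) (fun d h1 h2 => by
          have h3 := lt_of_lt_of_le h2 (min_le_right _ _)
          refine ⟨?_, ?_, ?_, ?_⟩
          · simpa using ha0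
          · simpa using ha1
          · simp; linarith
          · simp; linarith)
      refine ⟨-σ, ?_, fun z hz => ?_, fun z hz => ?_⟩
      · rcases hσ with rfl | rfl <;> simp
      · have := s2 z hz; linarith
      · have := s1 z hz; linarith
    · have hx1g := ho x1 ⟨hx1.1.le, hx1.2.le⟩
      exact twoSides L J hδ2 he hm pT pF dC dF hx1
        (d0 := min (R / 4) (u ((c x1 - c τ) / e).re - l ((c x1 - c τ) / e).re))
        (lt_min (by positivity) (by linarith)) (fun d h1 h2 => by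
          have h3 := lt_of_lt_of_le h2 (min_le_right _ _)
          refine ⟨?_, ?_, ?_, ?_⟩
          · simpa using ha0
          · simpa using ha1
          · simp; linarith
          · simp; linarith) (fun d h1 h2 => by
          have h3 := lt_of_lt_of_le h2 (min_le_left _ _)
          right
          refine ⟨?_, ?_, ?_⟩
          · simpa using habs
          · simp; linarith
          · simp; linarith)
  obtain ⟨σ, hσ, s1, s2⟩ := main
  refine ⟨ρ1, ρ10, σ, hσ, fun z hz => ?_⟩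
  have h1 := abs_re_le_norm z
  have h2 := abs_im_le_norm z
  have h4 := abs_lt.1 (hsa z.re (by linarith))
  have h4' := abs_lt.1 (hsb z.re (by linarith))
  have h5 := abs_le.1 h2
  refine ⟨fun k1 k2 => s1 z ⟨?_, ?_, k1, k2⟩, fun h => s2 z ?_⟩
  · by_contra hcon
    push Not at hcon
    rcases hcon.lt_or_eq with h | h
    · have := neg _ h; linarith
    · rw [h, u0] at k2
      rw [h, l0] at k1
      linarith
  · linarith [le_abs_self z.re]
  · rcases h with h | h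
    · left; exact ⟨by linarith, h, by linarith [h4.1, h5.2]⟩
    · right; exact ⟨by linarith, h, by linarith [h4'.2, h5.1]⟩

end Pool.Agent.Y262.Peg
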